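import Mathlib

/-!
Formulas of set theory, satisfaction in a set, and a small calculus of definable relations.
-/

namespace Gss969

open ZFSet

universe u

set_option linter.unusedVariables false

/-- Formulas of the language of set theory (one binary relation symbol), with variables
`x_0, x_1, ...`. The constructor `ex i φ` is the quantifier `∃ x_i, φ`. -/
inductive Fml : Type
  | mem (i j : ℕ) : Fml
  | eq (i j : ℕ) : Fml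
  | neg (φ : Fml) : Fml
  | and (φ ψ : Fml) : Fml
  | ex (i : ℕ) (φ : Fml) : Fml

/-- `Sat M v φ`: the structure `(M, ∈)` satisfies `φ` when the variable `x_i` has the value `v i`. -/
def Sat (M : ZFSet.{u}) : (ℕ → ZFSet.{u}) → Fml → Prop
  | v, .mem i j => v i ∈ v j
  | v, .eq i j => v i = v j
  | v, .neg φ => ¬ Sat M v φ
  | v, .and φ ψ => Sat M v φ ∧ Sat M v ψ
  | v, .ex i φ => ∃ a ∈ M, Sat M (Function.update v i a) φ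

/-- `j` is an elementary embedding of `(M, ∈)` into `(N, ∈)`. -/
def IsEl (M N : ZFSet.{u}) (j : ZFSet.{u} → ZFSet.{u}) : Prop :=
  (∀ x ∈ M, j x ∈ N) ∧
    ∀ (φ : Fml) (v : ℕ → ZFSet.{u}), (∀ i, v i ∈ M) → (Sat M v φ ↔ Sat N (fun i => j (v i)) φ)

/-- A relation on assignments is definable over all members of the class `𝒰` by one formula. -/
def Dfn (𝒰 : Set ZFSet.{u}) (A : (ℕ → ZFSet.{u}) → Prop) : Prop :=
  ∀ f : ℕ → ℕ, (Set.range f)ᶜ.Infinite → ∃ φ : Fml, ∀ U ∈ 𝒰, ∀ s : ℕ → ZFSet.{u},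
    (∀ i, s i ∈ U) → (Sat U s φ ↔ A (fun i => s (f i)))

theorem Dfn.congr {𝒰 : Set ZFSet.{u}} {A B : (ℕ → ZFSet.{u}) → Prop} (h : Dfn 𝒰 A)
    (e : ∀ v, A v ↔ B v) : Dfn 𝒰 B := by
  have : A = B := by ext v; exact e v
  exact this ▸ h

/-- Congruence restricted to assignments with values in members of the class. -/
theorem Dfn.congr' {𝒰 : Set ZFSet.{u}} {A B : (ℕ → ZFSet.{u}) → Prop} (h : Dfn 𝒰 A)
    (e : ∀ U ∈ 𝒰, ∀ v : ℕ → ZFSet.{u}, (∀ i, v i ∈ U) → (A v ↔ B v)) : Dfn 𝒰 B := by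
  intro f hf
  obtain ⟨φ, hφ⟩ := h f hf
  refine ⟨φ, fun U hU s hs => ?_⟩
  rw [hφ U hU s hs, e U hU _ (fun i => hs _)]

theorem Dfn.mono {𝒰 𝒱 : Set ZFSet.{u}} {A : (ℕ → ZFSet.{u}) → Prop} (h : Dfn 𝒱 A)
    (hs : 𝒰 ⊆ 𝒱) : Dfn 𝒰 A := by
  intro f hf
  obtain ⟨φ, hφ⟩ := h f hf
  exact ⟨φ, fun U hU => hφ U (hs hU)⟩

section closure

variable {𝒰 : Set ZFSet.{u}}

theorem Dfn.mem (i j : ℕ) : Dfn 𝒰 (fun v => v i ∈ v j) :=
  fun f _ => ⟨.mem (f i) (f j), fun _ _ _ _ => Iff.rfl⟩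

theorem Dfn.eq (i j : ℕ) : Dfn 𝒰 (fun v => v i = v j) :=
  fun f _ => ⟨.eq (f i) (f j), fun _ _ _ _ => Iff.rfl⟩

theorem Dfn.not {A : (ℕ → ZFSet.{u}) → Prop} (h : Dfn 𝒰 A) : Dfn 𝒰 (fun v => ¬ A v) := by
  intro f hf
  obtain ⟨φ, hφ⟩ := h f hf
  exact ⟨.neg φ, fun U hU s hs => not_congr (hφ U hU s hs)⟩

theorem Dfn.and {A B : (ℕ → ZFSet.{u}) → Prop} (h : Dfn 𝒰 A) (h' : Dfn 𝒰 B) :
    Dfn 𝒰 (fun v => A v ∧ B v) := by
  intro f hf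
  obtain ⟨φ, hφ⟩ := h f hf
  obtain ⟨ψ, hψ⟩ := h' f hf
  exact ⟨.and φ ψ, fun U hU s hs => and_congr (hφ U hU s hs) (hψ U hU s hs)⟩

theorem Dfn.or {A B : (ℕ → ZFSet.{u}) → Prop} (h : Dfn 𝒰 A) (h' : Dfn 𝒰 B) :
    Dfn 𝒰 (fun v => A v ∨ B v) :=
  ((h.not.and h'.not).not).congr fun v => by tauto

theorem Dfn.imp {A B : (ℕ → ZFSet.{u}) → Prop} (h : Dfn 𝒰 A) (h' : Dfn 𝒰 B) :
    Dfn 𝒰 (fun v => A v → B v) :=
  ((h.and h'.not).not).congr fun v => by tauto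

theorem Dfn.iff {A B : (ℕ → ZFSet.{u}) → Prop} (h : Dfn 𝒰 A) (h' : Dfn 𝒰 B) :
    Dfn 𝒰 (fun v => (A v ↔ B v)) :=
  ((h.imp h').and (h'.imp h)).congr fun v => by tauto

/-- Existential quantifiers whose witnesses can be found in the structure. -/
theorem Dfn.ex {A : ZFSet.{u} → (ℕ → ZFSet.{u}) → Prop}
    (h : Dfn 𝒰 (fun w => A (w 0) (fun n => w (n + 1))))
    (hb : ∀ U ∈ 𝒰, ∀ v : ℕ → ZFSet.{u}, (∀ i, v i ∈ U) → (∃ a, A a v) → ∃ a ∈ U, A a v) :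
    Dfn 𝒰 (fun v => ∃ a, A a v) := by
  intro f hf
  obtain ⟨k, hk⟩ := hf.nonempty
  have hk' : ∀ n, f n ≠ k := fun n hn => hk ⟨n, hn⟩
  let f' : ℕ → ℕ := fun n => Nat.casesOn n k f
  have hf' : (Set.range f')ᶜ.Infinite := by
    have : (Set.range f)ᶜ \ {k} ⊆ (Set.range f')ᶜ := by
      rintro x ⟨hx, hx'⟩ ⟨n, rfl⟩
      cases n with
      | zero => exact hx' rfl
      | succ n => exact hx ⟨n, rfl⟩
    exact (hf.sdiff (Set.finite_singleton k)).mono this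
  obtain ⟨φ, hφ⟩ := h f' hf'
  refine ⟨.ex k φ, fun U hU s hs => ?_⟩
  have key : ∀ a ∈ U, (Sat U (Function.update s k a) φ ↔ A a (fun i => s (f i))) := by
    intro a ha
    have hs' : ∀ i, Function.update s k a i ∈ U := by
      intro i
      by_cases hi : i = k
      · subst hi; simpa using ha
      · simpa [hi] using hs i
    refine (hφ U hU _ hs').trans ?_
    have e1 : Function.update s k a (f' 0) = a := by simp [f']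
    have e2 : (fun n => Function.update s k a (f' (n + 1))) = fun i => s (f i) := by
      funext n
      simp [f', Function.update_of_ne (hk' n)]
    show A (Function.update s k a (f' 0)) (fun n => Function.update s k a (f' (n + 1))) ↔ _
    rw [e1, e2]
  constructor
  · rintro ⟨a, ha, h1⟩
    exact ⟨a, (key a ha).1 h1⟩
  · intro h1
    obtain ⟨a, ha, h2⟩ := hb U hU (fun i => s (f i)) (fun i => hs _) h1
    exact ⟨a, ha, (key a ha).2 h2⟩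

theorem Dfn.all {A : ZFSet.{u} → (ℕ → ZFSet.{u}) → Prop}
    (h : Dfn 𝒰 (fun w => A (w 0) (fun n => w (n + 1))))
    (hb : ∀ U ∈ 𝒰, ∀ v : ℕ → ZFSet.{u}, (∀ i, v i ∈ U) → (∃ a, ¬ A a v) → ∃ a ∈ U, ¬ A a v) :
    Dfn 𝒰 (fun v => ∀ a, A a v) :=
  ((Dfn.ex (A := fun a v => ¬ A a v) h.not hb).not).congr fun v => by push Not; exact Iff.rfl

/-- The class of transitive sets. -/
def Trs : Set ZFSet.{u} := {U | U.IsTransitive}

/-- The class of all `V_δ` with `δ > ω` a limit ordinal. -/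
def Lvl : Set ZFSet.{u} := {U | ∃ δ : Ordinal.{u}, Order.IsSuccLimit δ ∧ Ordinal.omega0 < δ ∧ U = V_ δ}

theorem Lvl_sub_Trs : Lvl.{u} ⊆ Trs := by
  rintro U ⟨δ, _, _, rfl⟩
  exact isTransitive_vonNeumann δ

theorem Dfn.bex (ht : 𝒰 ⊆ Trs) (i : ℕ) {A : ZFSet.{u} → (ℕ → ZFSet.{u}) → Prop}
    (h : Dfn 𝒰 (fun w => A (w 0) (fun n => w (n + 1)))) :
    Dfn 𝒰 (fun v => ∃ a ∈ v i, A a v) :=
  Dfn.ex (A := fun a v => a ∈ v i ∧ A a v) ((Dfn.mem 0 (i + 1)).and h)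
    fun U hU v hv ⟨a, ha, h1⟩ => ⟨a, (ht hU).mem_trans ha (hv i), ha, h1⟩

theorem Dfn.ball (ht : 𝒰 ⊆ Trs) (i : ℕ) {A : ZFSet.{u} → (ℕ → ZFSet.{u}) → Prop}
    (h : Dfn 𝒰 (fun w => A (w 0) (fun n => w (n + 1)))) :
    Dfn 𝒰 (fun v => ∀ a ∈ v i, A a v) :=
  ((Dfn.bex ht i (A := fun a v => ¬ A a v) h.not).not).congr fun v => by
    push Not; exact Iff.rfl

theorem Lvl_sub {U x y : ZFSet.{u}} (hU : U ∈ Lvl) (hy : y ∈ U) (h : x ⊆ y) : x ∈ U := by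
  obtain ⟨δ, _, _, rfl⟩ := hU
  exact mem_vonNeumann_of_subset h hy

theorem Lvl_powerset {U x : ZFSet.{u}} (hU : U ∈ Lvl) (hx : x ∈ U) : powerset x ∈ U := by
  obtain ⟨δ, hδ, _, rfl⟩ := hU
  rw [mem_vonNeumann] at *
  rw [rank_powerset]
  exact hδ.succ_lt hx

theorem Lvl_union {U x y : ZFSet.{u}} (hU : U ∈ Lvl) (hx : x ∈ U) (hy : y ∈ U) : x ∪ y ∈ U := by
  obtain ⟨δ, hδ, _, rfl⟩ := hU
  rw [mem_vonNeumann] at *
  rw [rank_union]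
  exact max_lt hx hy

theorem Lvl_pair {U x y : ZFSet.{u}} (hU : U ∈ Lvl) (hx : x ∈ U) (hy : y ∈ U) : pair x y ∈ U := by
  obtain ⟨δ, hδ, _, rfl⟩ := hU
  rw [mem_vonNeumann] at *
  simp only [pair, rank_insert, rank_singleton, max_lt_iff]
  refine ⟨hδ.succ_lt (hδ.succ_lt hx), ?_⟩
  exact hδ.succ_lt (max_lt (hδ.succ_lt hx) (hδ.succ_lt hy))

theorem prod_sub_pp (x y : ZFSet.{u}) : prod x y ⊆ powerset (powerset (x ∪ y)) := by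
  unfold prod pairSep
  exact sep_subset

theorem Lvl_prod {U x y : ZFSet.{u}} (hU : U ∈ Lvl) (hx : x ∈ U) (hy : y ∈ U) : prod x y ∈ U :=
  Lvl_sub hU (Lvl_powerset hU (Lvl_powerset hU (Lvl_union hU hx hy))) (prod_sub_pp x y)

theorem Lvl_func {U x y f : ZFSet.{u}} (hU : U ∈ Lvl) (hx : x ∈ U) (hy : y ∈ U)
    (hf : IsFunc x y f) : f ∈ U :=
  Lvl_sub hU (Lvl_prod hU hx hy) hf.1

theorem Lvl_funs {U x y : ZFSet.{u}} (hU : U ∈ Lvl) (hx : x ∈ U) (hy : y ∈ U) :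
    funs x y ∈ U := by
  refine Lvl_sub hU (Lvl_powerset hU (Lvl_prod hU hx hy)) ?_
  unfold funs
  exact sep_subset

theorem Dfn.exsub (ht : 𝒰 ⊆ Lvl) (i : ℕ) {A : ZFSet.{u} → (ℕ → ZFSet.{u}) → Prop}
    (h : Dfn 𝒰 (fun w => A (w 0) (fun n => w (n + 1)))) :
    Dfn 𝒰 (fun v => ∃ a, a ⊆ v i ∧ A a v) :=
  Dfn.ex (A := fun a v => a ⊆ v i ∧ A a v)
    (Dfn.and ((Dfn.ball (ht.trans Lvl_sub_Trs) 0 (A := fun a w => a ∈ w (i + 1))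
      (Dfn.mem 0 (i + 2))).congr fun v => Iff.rfl) h)
    fun U hU v hv ⟨a, ha, h1⟩ => ⟨a, Lvl_sub (ht hU) (hv i) ha, ha, h1⟩

theorem Dfn.allsub (ht : 𝒰 ⊆ Lvl) (i : ℕ) {A : ZFSet.{u} → (ℕ → ZFSet.{u}) → Prop}
    (h : Dfn 𝒰 (fun w => A (w 0) (fun n => w (n + 1)))) :
    Dfn 𝒰 (fun v => ∀ a, a ⊆ v i → A a v) :=
  ((Dfn.exsub ht i (A := fun a v => ¬ A a v) h.not).not).congr fun v => by
    push Not; exact Iff.rfl

end closure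

/-- Transfer of a definable relation along an elementary embedding. -/
theorem IsEl.transfer {𝒰 : Set ZFSet.{u}} {M N : ZFSet.{u}} {j : ZFSet.{u} → ZFSet.{u}}
    (h : IsEl M N j) {A : (ℕ → ZFSet.{u}) → Prop} (hA : Dfn 𝒰 A) (hM : M ∈ 𝒰) (hN : N ∈ 𝒰)
    (v : ℕ → ZFSet.{u}) (hv : ∀ i, v i ∈ M) : A v ↔ A (fun i => j (v i)) := by
  have hinf : (Set.range (fun n : ℕ => 2 * n))ᶜ.Infinite := by
    refine Set.infinite_of_injective_forall_mem (f := fun n : ℕ => 2 * n + 1) ?_ ?_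
    · intro a b hab; simpa using hab
    · rintro n ⟨m, hm⟩
      simp only at hm
      omega
  obtain ⟨φ, hφ⟩ := hA _ hinf
  have e : ∀ i, (2 * i) / 2 = i := fun i => by omega
  have h1 := hφ M hM (fun n => v (n / 2)) (fun i => hv _)
  have h2 := hφ N hN (fun n => j (v (n / 2))) (fun i => h.1 _ (hv _))
  simp only [e] at h1 h2
  rw [← h1, ← h2]
  exact h.2 φ _ (fun i => hv _)

/-- Assignment listing up to six given sets. -/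
def asg (a b c d e f : ZFSet.{u}) : ℕ → ZFSet.{u}
  | 0 => a
  | 1 => b
  | 2 => c
  | 3 => d
  | 4 => e
  | _ => f

theorem asg_mem {M a b c d e f : ZFSet.{u}} (ha : a ∈ M) (hb : b ∈ M) (hc : c ∈ M) (hd : d ∈ M)
    (he : e ∈ M) (hf : f ∈ M) : ∀ i, asg a b c d e f i ∈ M
  | 0 => ha
  | 1 => hb
  | 2 => hc
  | 3 => hd
  | 4 => he
  | (_ + 5) => hf

theorem IsEl.t6 {𝒰 : Set ZFSet.{u}} {M N : ZFSet.{u}} {j : ZFSet.{u} → ZFSet.{u}}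
    (h : IsEl M N j) (hM : M ∈ 𝒰) (hN : N ∈ 𝒰)
    {A : ZFSet.{u} → ZFSet.{u} → ZFSet.{u} → ZFSet.{u} → ZFSet.{u} → ZFSet.{u} → Prop}
    (hA : Dfn 𝒰 (fun v => A (v 0) (v 1) (v 2) (v 3) (v 4) (v 5)))
    {a b c d e f : ZFSet.{u}} (ha : a ∈ M) (hb : b ∈ M) (hc : c ∈ M) (hd : d ∈ M)
    (he : e ∈ M) (hf : f ∈ M) : A a b c d e f ↔ A (j a) (j b) (j c) (j d) (j e) (j f) :=
  h.transfer hA hM hN (asg a b c d e f) (asg_mem ha hb hc hd he hf)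

theorem IsEl.t5 {𝒰 : Set ZFSet.{u}} {M N : ZFSet.{u}} {j : ZFSet.{u} → ZFSet.{u}}
    (h : IsEl M N j) (hM : M ∈ 𝒰) (hN : N ∈ 𝒰)
    {A : ZFSet.{u} → ZFSet.{u} → ZFSet.{u} → ZFSet.{u} → ZFSet.{u} → Prop}
    (hA : Dfn 𝒰 (fun v => A (v 0) (v 1) (v 2) (v 3) (v 4)))
    {a b c d e : ZFSet.{u}} (ha : a ∈ M) (hb : b ∈ M) (hc : c ∈ M) (hd : d ∈ M)
    (he : e ∈ M) : A a b c d e ↔ A (j a) (j b) (j c) (j d) (j e) :=
  h.transfer hA hM hN (asg a b c d e e) (asg_mem ha hb hc hd he he)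

theorem IsEl.t4 {𝒰 : Set ZFSet.{u}} {M N : ZFSet.{u}} {j : ZFSet.{u} → ZFSet.{u}}
    (h : IsEl M N j) (hM : M ∈ 𝒰) (hN : N ∈ 𝒰)
    {A : ZFSet.{u} → ZFSet.{u} → ZFSet.{u} → ZFSet.{u} → Prop}
    (hA : Dfn 𝒰 (fun v => A (v 0) (v 1) (v 2) (v 3)))
    {a b c d : ZFSet.{u}} (ha : a ∈ M) (hb : b ∈ M) (hc : c ∈ M) (hd : d ∈ M) :
    A a b c d ↔ A (j a) (j b) (j c) (j d) :=
  h.transfer hA hM hN (asg a b c d d d) (asg_mem ha hb hc hd hd hd)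

theorem IsEl.t3 {𝒰 : Set ZFSet.{u}} {M N : ZFSet.{u}} {j : ZFSet.{u} → ZFSet.{u}}
    (h : IsEl M N j) (hM : M ∈ 𝒰) (hN : N ∈ 𝒰)
    {A : ZFSet.{u} → ZFSet.{u} → ZFSet.{u} → Prop}
    (hA : Dfn 𝒰 (fun v => A (v 0) (v 1) (v 2)))
    {a b c : ZFSet.{u}} (ha : a ∈ M) (hb : b ∈ M) (hc : c ∈ M) :
    A a b c ↔ A (j a) (j b) (j c) :=
  h.transfer hA hM hN (asg a b c c c c) (asg_mem ha hb hc hc hc hc)

theorem IsEl.t2 {𝒰 : Set ZFSet.{u}} {M N : ZFSet.{u}} {j : ZFSet.{u} → ZFSet.{u}}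
    (h : IsEl M N j) (hM : M ∈ 𝒰) (hN : N ∈ 𝒰)
    {A : ZFSet.{u} → ZFSet.{u} → Prop}
    (hA : Dfn 𝒰 (fun v => A (v 0) (v 1)))
    {a b : ZFSet.{u}} (ha : a ∈ M) (hb : b ∈ M) :
    A a b ↔ A (j a) (j b) :=
  h.transfer hA hM hN (asg a b b b b b) (asg_mem ha hb hb hb hb hb)

theorem IsEl.t1 {𝒰 : Set ZFSet.{u}} {M N : ZFSet.{u}} {j : ZFSet.{u} → ZFSet.{u}}
    (h : IsEl M N j) (hM : M ∈ 𝒰) (hN : N ∈ 𝒰)
    {A : ZFSet.{u} → Prop} (hA : Dfn 𝒰 (fun v => A (v 0)))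
    {a : ZFSet.{u}} (ha : a ∈ M) : A a ↔ A (j a) :=
  h.transfer hA hM hN (asg a a a a a a) (asg_mem ha ha ha ha ha ha)

end Gss969
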