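import Pool.Agent.Gss969.Notions

/-!
Critical points of elementary embeddings.
-/

namespace Gss969

open ZFSet

universe u

set_option linter.unusedVariables false

variable {B N : ZFSet.{u}} {j : ZFSet.{u} → ZFSet.{u}}

/-- `j` has critical point `μ`, sends it to `τ`, and the target is correct up to `τ`. -/
structure Crit (B N : ZFSet.{u}) (j : ZFSet.{u} → ZFSet.{u}) (μ τ : Ordinal.{u}) : Prop where
  E : Emb B N j
  mB : V_ μ ∈ B
  fixo : ∀ α < μ, j α.toZFSet = α.toZFSet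
  jm : j μ.toZFSet = τ.toZFSet
  ne : μ ≠ τ
  vn : V_ τ ⊆ N

namespace Crit

variable {μ τ : Ordinal.{u}}

theorem fix (C : Crit B N j μ τ) {x : ZFSet.{u}} (hx : x ∈ V_ μ) : j x = x :=
  C.E.fix C.mB C.fixo μ le_rfl x hx

theorem oB (C : Crit B N j μ τ) : μ.toZFSet ∈ B :=
  Lvl_sub C.E.lvl C.mB μ.toZFSet_subset_vonNeumann

theorem lt (C : Crit B N j μ τ) : μ < τ := by
  refine lt_of_le_of_ne ?_ C.ne
  rw [← Ordinal.toZFSet_subset_toZFSet_iff, ← C.jm]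
  intro x hx
  obtain ⟨a, ha, rfl⟩ := Ordinal.mem_toZFSet_iff.1 hx
  rw [← C.fixo a ha]
  exact (C.E.mem_iff (C.E.bt.mem_trans hx C.oB) C.oB).1 hx

theorem jV (C : Crit B N j μ τ) : j (V_ μ) = V_ τ := by
  have h := (C.E.jV C.mB).2
  rw [C.jm, Ordinal.rank_toZFSet] at h
  ext x
  rw [h]
  exact ⟨fun h => h.1, fun h => ⟨h, C.vn h⟩⟩

theorem el (C : Crit B N j μ τ) : IsEl (V_ μ) (V_ τ) j := by
  have := C.E.restr C.mB
  rwa [C.jV] at this

theorem ne_zero (C : Crit B N j μ τ) : μ ≠ 0 := by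
  rintro rfl
  have h := C.jV
  have h2 := C.lt
  have h3 : V_ (0 : Ordinal.{u}) ∈ j (V_ 0) := by
    rw [h]; exact vonNeumann_mem_vonNeumann_iff.2 h2
  have h4 := (C.E.el.t1 C.E.bt C.E.nt (A := fun a => ∀ x ∈ a, ¬ x = x)
    (by repeat' first
          | exact Dfn.eq _ _ | refine Dfn.not ?_ | refine Dfn.ball subset_rfl _ ?_) C.mB).1
    (by intro x hx; simp at hx)
  exact h4 _ h3 rfl

theorem ne_succ (C : Crit B N j μ τ) (δ : Ordinal.{u}) : μ ≠ Order.succ δ := by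
  rintro rfl
  have hδB : δ.toZFSet ∈ B := C.E.bt.mem_trans
    (Ordinal.toZFSet_mem_toZFSet_iff.2 (Order.lt_succ δ)) C.oB
  have h1 : ∀ x ∈ (Order.succ δ).toZFSet, x ∈ δ.toZFSet ∨ x = δ.toZFSet := by
    intro x hx
    obtain ⟨a, ha, rfl⟩ := Ordinal.mem_toZFSet_iff.1 hx
    rw [Order.lt_succ_iff] at ha
    rcases ha.lt_or_eq with h | h
    · exact Or.inl (Ordinal.toZFSet_mem_toZFSet_iff.2 h)
    · exact Or.inr (by rw [h])
  have h2 := (C.E.el.t2 C.E.bt C.E.nt (A := fun a b => ∀ x ∈ a, x ∈ b ∨ x = b)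
    (by repeat' first
          | exact Dfn.mem _ _ | exact Dfn.eq _ _ | refine Dfn.or ?_ ?_
          | refine Dfn.ball subset_rfl _ ?_) C.oB hδB).1 h1
  rw [C.jm, C.fixo δ (Order.lt_succ δ)] at h2
  have h3 := h2 (Order.succ δ).toZFSet (Ordinal.toZFSet_mem_toZFSet_iff.2 C.lt)
  rcases h3 with h | h
  · rw [Ordinal.toZFSet_mem_toZFSet_iff] at h
    exact absurd h (Order.le_succ δ).not_gt
  · exact (Order.lt_succ δ).ne' (Ordinal.toZFSet_injective h)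

theorem ne_omega (C : Crit B N j μ τ) : μ ≠ Ordinal.omega0 := by
  rintro rfl
  have h1 : ∀ x ∈ (Ordinal.omega0.{u}).toZFSet, (∀ y ∈ x, ¬ y = y) ∨
      ∃ y ∈ x, ∀ z ∈ x, z ∈ y ∨ z = y := by
    intro x hx
    obtain ⟨n, rfl⟩ := mem_om.1 hx
    cases n with
    | zero =>
      left
      intro y hy
      unfold nt at hy
      simp at hy
    | succ n =>
      right
      refine ⟨nt n, ?_, fun z hz => ?_⟩
      · unfold nt
        rw [Ordinal.toZFSet_mem_toZFSet_iff]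
        exact_mod_cast Nat.lt_succ_self n
      · unfold nt at hz
        obtain ⟨a, ha, rfl⟩ := Ordinal.mem_toZFSet_iff.1 hz
        push_cast at ha
        rw [Order.lt_add_one_iff] at ha
        rcases ha.lt_or_eq with h | h
        · left; unfold nt; exact Ordinal.toZFSet_mem_toZFSet_iff.2 h
        · right; unfold nt; rw [h]
  have h2 := (C.E.el.t1 C.E.bt C.E.nt (A := fun a => ∀ x ∈ a, (∀ y ∈ x, ¬ y = y) ∨
      ∃ y ∈ x, ∀ z ∈ x, z ∈ y ∨ z = y)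
    (by repeat' first
          | exact Dfn.mem _ _ | exact Dfn.eq _ _ | refine Dfn.or ?_ ?_ | refine Dfn.not ?_
          | refine Dfn.ball subset_rfl _ ?_ | refine Dfn.bex subset_rfl _ ?_) C.oB).1 h1
  rw [C.jm] at h2
  rcases h2 _ (Ordinal.toZFSet_mem_toZFSet_iff.2 C.lt) with h | ⟨y, hy, h⟩
  · exact h _ (nt_mem 0) rfl
  · obtain ⟨n, rfl⟩ := mem_om.1 hy
    have h3 := h _ (nt_mem (n + 1))
    have h4 : nt.{u} n ∈ nt (n + 1) := by
      unfold nt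
      rw [Ordinal.toZFSet_mem_toZFSet_iff]
      exact_mod_cast Nat.lt_succ_self n
    rcases h3 with h3 | h3
    · exact mem_asymm h3 h4
    · rw [h3] at h4
      exact mem_irrefl _ h4

theorem lim (C : Crit B N j μ τ) : Order.IsSuccLimit μ := by
  rw [Order.isSuccLimit_iff, Order.isSuccPrelimit_iff_succ_ne]
  refine ⟨?_, fun δ => (C.ne_succ δ).symm⟩
  intro hm
  rw [isMin_iff_eq_bot] at hm
  exact C.ne_zero (by simpa using hm)

theorem om_lt (C : Crit B N j μ τ) : Ordinal.omega0 < μ :=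
  lt_of_le_of_ne (Ordinal.omega0_le_of_isSuccLimit C.lim) C.ne_omega.symm

theorem mlvl (C : Crit B N j μ τ) : V_ μ ∈ Lvl := ⟨μ, C.lim, C.om_lt, rfl⟩

theorem tlvl (C : Crit B N j μ τ) : V_ τ ∈ Lvl := by
  refine lvl_of_unb (C.om_lt.trans C.lt) ?_
  have h1 : ∀ x ∈ V_ μ, ∃ y ∈ V_ μ, x ∈ y := by
    intro x hx
    refine ⟨V_ (Order.succ (rank x)), ?_, mem_vonNeumann_succ x⟩
    exact vonNeumann_mem_vonNeumann_iff.2 (C.lim.succ_lt (mem_vonNeumann.1 hx))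
  have h2 := (C.E.el.t1 C.E.bt C.E.nt (A := fun a => ∀ x ∈ a, ∃ y ∈ a, x ∈ y)
    (by repeat' first
          | exact Dfn.mem _ _
          | refine Dfn.ball subset_rfl _ ?_ | refine Dfn.bex subset_rfl _ ?_) C.mB).1 h1
  rwa [C.jV] at h2

theorem mt (C : Crit B N j μ τ) : V_ μ ∈ V_ τ := vonNeumann_mem_vonNeumann_iff.2 C.lt

theorem inac (C : Crit B N j μ τ) : Inac (V_ μ) := by
  refine ⟨⟨μ, rfl⟩, ⟨om, om_mem_Lvl C.mlvl, inf_om⟩, fun a ha g hg => ?_⟩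
  have haB : a ∈ B := C.E.bt.mem_trans ha C.mB
  have hgB : g ∈ B := Lvl_func C.E.lvl haB C.mB hg
  have hgs : g ⊆ V_ μ := by
    intro p hp
    obtain ⟨x, hx, y, hy, rfl⟩ := mem_prod.1 (hg.1 hp)
    exact Lvl_pair C.mlvl ((isTransitive_vonNeumann μ).mem_trans hx ha) hy
  have hfun := C.E.func haB C.mB hg
  rw [C.fix ha, C.jV] at hfun
  have hjg : j g = g := by
    ext p
    constructor
    · intro hp
      obtain ⟨x, hx, y, hy, rfl⟩ := mem_prod.1 (hfun.1 hp)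
      have h1 := (app_iff hfun hx).1 hp
      have hxm : x ∈ V_ μ := (isTransitive_vonNeumann μ).mem_trans hx ha
      have h2 := C.E.app_eq haB C.mB hg hx
      rw [C.fix hxm, C.fix (app_mem hg hx), h1] at h2
      rw [h2]
      exact app_spec hg hx
    · intro hp
      have h1 := (C.E.mem_iff (C.E.bt.mem_trans hp hgB) hgB).1 hp
      rwa [C.fix (hgs hp)] at h1
  have h3 : j g ∈ j (V_ μ) := by
    rw [hjg, C.jV, mem_vonNeumann]
    exact lt_of_le_of_lt (subset_vonNeumann.1 hgs) C.lt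
  exact (C.E.mem_iff hgB C.mB).2 h3

theorem jid (C : Crit B N j μ τ) {D : ZFSet.{u}} (hD : D ⊆ V_ μ) : D ⊆ j D := by
  intro x hx
  have hDB := Lvl_sub C.E.lvl C.mB hD
  have := (C.E.mem_iff (C.E.bt.mem_trans hx hDB) hDB).1 hx
  rwa [C.fix (hD hx)] at this

end Crit

/-- Closure of `w` under the functions `j f`, `f : k → k`. -/
def Cp (j : ZFSet.{u} → ZFSet.{u}) (k T w : ZFSet.{u}) : Prop :=
  w ∈ Lvl ∧ T ∈ w ∧ ∀ f, IsFunc k k f → ∀ a ∈ w, app (j f) a ∈ w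

/-- Unboundedness of the closed levels. -/
theorem unb {U k T : ZFSet.{u}} (hU : Inac U) (hk : k ∈ U) (hT : T ∈ U)
    (hc : ∀ f, IsFunc k k f → ∀ a ∈ U, app (j f) a ∈ U) {a : ZFSet.{u}} (ha : a ∈ U) :
    ∃ w ∈ U, a ∈ w ∧ Cp j k T w := by
  classical
  obtain ⟨α, hα, hω, rfl⟩ := hU.lvl
  have hul := hU.lvl
  have hQ : ∀ γ < α, ∃ γ' < α, ∀ f, IsFunc k k f → ∀ a ∈ V_ γ, app (j f) a ∈ V_ γ' := by
    intro γ hγ
    have hVγ : V_ γ ∈ V_ α := vonNeumann_mem_vonNeumann_iff.2 hγ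
    have hA : prod (funs k k) (V_ γ) ∈ V_ α := Lvl_prod hul (Lvl_funs hul hk hk) hVγ
    have c1 : ∀ p ∈ prod (funs k k) (V_ γ), ∃ f, IsFunc k k f ∧ ∃ a ∈ V_ γ, p = pair f a := by
      intro p hp
      obtain ⟨f, hf, a, ha, rfl⟩ := mem_prod.1 hp
      exact ⟨f, mem_funs.1 hf, a, ha, rfl⟩
    choose! p1 hp1 p2 hp2 hp using c1
    obtain ⟨b, hb, hb'⟩ := hU.repl _ hA (fun p => app (j (p1 p)) (p2 p))
      (fun p hpp => hc _ (hp1 p hpp) _ ((isTransitive_vonNeumann α).mem_trans (hp2 p hpp) hVγ))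
    refine ⟨rank b, mem_vonNeumann.1 hb, fun f hf a ha => ?_⟩
    rw [mem_vonNeumann]
    refine rank_lt_of_mem ((hb' _).2 ⟨pair f a, pair_mem_prod.2 ⟨mem_funs.2 hf, ha⟩, ?_⟩)
    have h := hp (pair f a) (pair_mem_prod.2 ⟨mem_funs.2 hf, ha⟩)
    rw [pair_inj] at h
    rw [← h.1, ← h.2]
  obtain ⟨δ, hδ, hγδ, hlim, hcl⟩ := hU.clos _ hQ
    (γ0 := max (max (rank a) (rank T)) Ordinal.omega0)
    (max_lt (max_lt (mem_vonNeumann.1 ha) (mem_vonNeumann.1 hT)) hω)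
  have h1 := (le_max_left _ _).trans_lt hγδ
  refine ⟨V_ δ, vonNeumann_mem_vonNeumann_iff.2 hδ,
    mem_vonNeumann.2 ((le_max_left _ _).trans_lt h1),
    ⟨δ, hlim, (le_max_right _ _).trans_lt hγδ, rfl⟩,
    mem_vonNeumann.2 ((le_max_right _ _).trans_lt h1), fun f hf a ha => ?_⟩
  obtain ⟨ε', hε', hle, ε'', hε'', hq⟩ := hcl (Order.succ (rank a))
    (hlim.succ_lt (mem_vonNeumann.1 ha))
  refine vonNeumann_subset_of_le hε''.le (hq f hf a ?_)
  exact vonNeumann_subset_of_le hle (mem_vonNeumann_succ a)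

/-- The club of closed levels. -/
noncomputable def Cl (j : ZFSet.{u} → ZFSet.{u}) (k K T : ZFSet.{u}) : ZFSet.{u} :=
  ZFSet.sep (Cp j k T) K

theorem lvl_lev {w : ZFSet.{u}} (h : w ∈ Lvl) : Lev w := by
  obtain ⟨δ, _, _, rfl⟩ := h
  exact ⟨δ, rfl⟩

theorem lvl_nonempty {w : ZFSet.{u}} (h : w ∈ Lvl) : ∅ ∈ w :=
  Lvl_sub h (om_mem_Lvl h) (by simp)

theorem club_Cl (E : Emb B N j) {k T : ZFSet.{u}} (hk : k ∈ B) (hK : Inac (j k))
    (hkK : k ∈ j k) (hTK : T ∈ j k) : Club (Cl j k (j k) T) (j k) := by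
  refine ⟨fun d hd => ⟨(mem_sep.1 hd).1, lvl_lev (mem_sep.1 hd).2.1⟩, fun a ha => ?_, ?_⟩
  · obtain ⟨w, hw, haw, hcp⟩ := unb (j := j) hK hkK hTK
      (fun f hf a ha => app_mem (E.func hk hk hf) ha) ha
    exact ⟨w, mem_sep.2 ⟨hw, hcp⟩, haw⟩
  · intro c hc hlev hne hun
    refine mem_sep.2 ⟨hc, ?_, ?_, ?_⟩
    · obtain ⟨d, hd, hdc⟩ := hne
      obtain ⟨γ, rfl⟩ := hlev
      obtain ⟨δ, hδ, hω, rfl⟩ := (mem_sep.1 hd).2.1
      refine lvl_of_unb (hω.trans (vonNeumann_mem_vonNeumann_iff.1 hdc)) fun x hx => ?_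
      obtain ⟨d', _, h1, h2⟩ := hun x hx
      exact ⟨d', h2, h1⟩
    · obtain ⟨d, hd, hdc⟩ := hne
      exact hlev.trans.mem_trans (mem_sep.1 hd).2.2.1 hdc
    · intro f hf a ha
      obtain ⟨d, hd, h1, h2⟩ := hun a ha
      exact hlev.trans.mem_trans ((mem_sep.1 hd).2.2.2 f hf a h1) h2

theorem IsEl.congr {M N : ZFSet.{u}} {i i' : ZFSet.{u} → ZFSet.{u}} (h : IsEl M N i)
    (he : ∀ x ∈ M, i x = i' x) : IsEl M N i' := by
  refine ⟨fun x hx => he x hx ▸ h.1 x hx, fun φ v hv => ?_⟩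
  rw [h.2 φ v hv]
  have : (fun n => i (v n)) = fun n => i' (v n) := by
    funext n; exact he _ (hv n)
  rw [this]

theorem IsEl.comp {M N P : ZFSet.{u}} {i i' : ZFSet.{u} → ZFSet.{u}} (h : IsEl M N i)
    (h' : IsEl N P i') : IsEl M P (fun x => i' (i x)) :=
  ⟨fun x hx => h'.1 _ (h.1 x hx), fun φ v hv => by
    rw [h.2 φ v hv, h'.2 φ _ (fun n => h.1 _ (hv n))]⟩

/-- Making a set embedding out of a Lean function. -/
theorem elS_gr {t M : ZFSet.{u}} {i : ZFSet.{u} → ZFSet.{u}} (h : IsEl t M i) :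
    ElS t M (gr t i) :=
  ⟨isFunc_gr h.1, h.congr fun x hx => (app_gr hx).symm⟩

/-- The hull embedding, as a set inside an inaccessible level `U`. -/
theorem hull_set (E : Emb B N j) {k K t w U : ZFSet.{u}} (hK : j k = K) (hKt : K.IsTransitive)
    (ht : t ∈ B) (hlt : Lev t) (hkt : k ∈ t) (k0 : ∅ ∈ k) (hw : w ∈ K) {T : ZFSet.{u}}
    (hcp : Cp j k T w) (hU : Inac U) (htU : t ∈ U) (hwU : w ∈ U) :
    ∃ M ∈ U, M.IsTransitive ∧ ∃ e ∈ U, ElS t M e ∧ pair k w ∈ e := by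
  have D : HullData B N j k t w :=
    { E := E
      ht := ht
      tt := hlt.trans
      hk := hkt
      k0 := k0
      wk := by rw [hK]; exact hKt.subset_of_mem hw
      wt := (lvl_lev hcp.1).trans
      w0 := lvl_nonempty hcp.1
      wp := fun a ha b hb => Lvl_pair hcp.1 ha hb
      cl := hcp.2.2 }
  obtain ⟨h1, h2, h3⟩ := D.main
  have hM := D.small hU.lvl hU.repl htU hwU
  refine ⟨_, hM, h1, gr t (fun x => coll (hull j k t w) (j x)),
    Lvl_func hU.lvl htU hM (isFunc_gr h2.1), elS_gr h2, pair_mem_gr.2 ⟨hkt, h3⟩⟩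

end Gss969
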