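import Pool.Agent.Gss969.Elem

/-!
The notions of the problem MP_6fa13c_lc: suitable tuples, the formula `Ψ_gss`, `Ψ_gss`-large
cardinals and globally superstrong cardinals in a universe `U` (a set `V_α` in the application),
models of ZFC, and 2-superstrong cardinals.

From `Base.lean`: `Fml` is the type of formulas of the language of set theory, `Sat M v φ` is
satisfaction in the structure `(M, ∈)`, and `IsEl M N j` says that `j` is an elementary embedding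
of `(M, ∈)` into `(N, ∈)`. From `Elem.lean`: `ElS t M e` says that the set `e` is the graph of an
elementary embedding of `(t, ∈)` into `(M, ∈)`.
-/

namespace Gss969

open ZFSet

universe u

/-- `x` is a limit ordinal (von Neumann ordinal, not zero, not a successor). -/
def LimOrd (x : ZFSet.{u}) : Prop := x.IsOrdinal ∧ x ≠ ∅ ∧ ∀ y ∈ x, insert y y ∈ x

/-- `x` is a cardinal in the transitive set `N`: an ordinal onto which `N` has no surjection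
from a smaller ordinal. -/
def CardIn (N x : ZFSet.{u}) : Prop :=
  x.IsOrdinal ∧ ∀ γ ∈ x, ∀ f ∈ N, ¬ (IsFunc γ x f ∧ ∀ y ∈ x, ∃ z ∈ γ, pair z y ∈ f)

/-- `X` is closed under basic set operations: (unordered) pairs, products and intersections. -/
structure ClosedBasic (X : ZFSet.{u}) : Prop where
  upair : ∀ x ∈ X, ∀ y ∈ X, ({x, y} : ZFSet.{u}) ∈ X
  prod : ∀ x ∈ X, ∀ y ∈ X, ZFSet.prod x y ∈ X
  inter : ∀ x ∈ X, ∀ y ∈ X, x ∩ y ∈ X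
  sInter : ∀ x ∈ X, ZFSet.sInter x ∈ X

/-- The tuple `⟨N, M, μ, ν, ρ⟩` is suitable. -/
structure Suitable (N M μ ν ρ : ZFSet.{u}) : Prop where
  sub : M ⊆ N
  transM : M.IsTransitive
  transN : N.IsTransitive
  closedM : ClosedBasic M
  closedN : ClosedBasic N
  ords : ∃ δ, LimOrd δ ∧ ∀ x, x.IsOrdinal → ((x ∈ M ↔ x ∈ δ) ∧ (x ∈ N ↔ x ∈ δ))
  limμ : LimOrd μ
  limν : LimOrd ν
  limρ : LimOrd ρ
  memM : μ ∈ M ∧ ν ∈ M ∧ ρ ∈ M
  lt : μ ∈ ν ∧ ν ∈ ρ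
  card : CardIn N μ

/-- The formula `Ψ_gss(N, M, μ, ν, ρ)`: the tuple is suitable and `N ∩ V_ν ⊆ M`. -/
def PsiGss (N M μ ν ρ : ZFSet.{u}) : Prop :=
  Suitable N M μ ν ρ ∧ N ∩ V_ (rank ν) ⊆ M

/-- `κ` is `Ψ_gss`-large in the universe `U = V_α`: for all limit ordinals `κ < η < θ` there are
unboundedly many cardinals `lam ≥ η` for which there are a transitive set `M` and an elementary
embedding `e : V_{θ+1} → M` with `e(κ) > lam` and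
`Ψ_gss(V_{e(θ)}, M ∩ V_{e(θ)}, lam, e(κ), e(η))`. -/
def PsiGssLargeIn (U κ : ZFSet.{u}) : Prop :=
  ∀ η ∈ U, ∀ θ ∈ U, LimOrd η → LimOrd θ → κ ∈ η → η ∈ θ →
    ∀ b ∈ U, b.IsOrdinal → ∃ lam ∈ U, CardIn U lam ∧ η ⊆ lam ∧ b ∈ lam ∧
      ∃ M ∈ U, M.IsTransitive ∧ ∃ e ∈ U, ElS (V_ (rank θ + 1)) M e ∧
        ∃ κ' θ' η', pair κ κ' ∈ e ∧ pair θ θ' ∈ e ∧ pair η η' ∈ e ∧ lam ∈ κ' ∧
          PsiGss (V_ (rank θ')) (M ∩ V_ (rank θ')) lam κ' η'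

/-- `κ` is globally superstrong in the universe `U = V_α`: for every ordinal `lam > κ` there are a
transitive class `M` and an elementary embedding `j : U → M` with critical point `κ`,
`j(κ) > lam` and `V_{j(κ)} ⊆ M`. Here arbitrary subsets `M` of `U` and arbitrary maps `j` are
allowed as classes, which includes all the definable ones. -/
def GloballySuperstrongIn (U κ : ZFSet.{u}) : Prop :=
  ∀ lam ∈ U, lam.IsOrdinal → κ ∈ lam → ∃ M, M ⊆ U ∧ M.IsTransitive ∧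
    ∃ j : ZFSet.{u} → ZFSet.{u}, IsEl U M j ∧ (∀ x ∈ κ, j x = x) ∧ j κ ≠ κ ∧ lam ∈ j κ ∧
      ∀ x ∈ U, x ∈ V_ (rank (j κ)) → x ∈ M

/-- The structure `(M, ∈)` satisfies every axiom of ZFC. All quantifiers are relativised to `M`. -/
structure ModelsZFC (M : ZFSet.{u}) : Prop where
  extensionality : ∀ x ∈ M, ∀ y ∈ M, (∀ z ∈ M, z ∈ x ↔ z ∈ y) → x = y
  foundation : ∀ x ∈ M, (∃ y ∈ M, y ∈ x) → ∃ y ∈ M, y ∈ x ∧ ∀ z ∈ M, ¬ (z ∈ y ∧ z ∈ x)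
  pairing : ∀ x ∈ M, ∀ y ∈ M, ∃ z ∈ M, ∀ w ∈ M, w ∈ z ↔ w = x ∨ w = y
  union : ∀ x ∈ M, ∃ z ∈ M, ∀ w ∈ M, w ∈ z ↔ ∃ y ∈ M, y ∈ x ∧ w ∈ y
  power : ∀ x ∈ M, ∃ z ∈ M, ∀ w ∈ M, w ∈ z ↔ ∀ y ∈ M, y ∈ w → y ∈ x
  infinity : ∃ z ∈ M, (∃ x ∈ M, x ∈ z ∧ ∀ y ∈ M, y ∉ x) ∧
    ∀ x ∈ M, x ∈ z → ∃ y ∈ M, y ∈ z ∧ ∀ w ∈ M, w ∈ y ↔ w ∈ x ∨ w = x
  separation : ∀ (φ : Fml) (v : ℕ → ZFSet.{u}), (∀ i, v i ∈ M) → ∀ a ∈ M, ∃ b ∈ M, ∀ z ∈ M,
    z ∈ b ↔ z ∈ a ∧ Sat M (Function.update v 0 z) φ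
  replacement : ∀ (φ : Fml) (v : ℕ → ZFSet.{u}), (∀ i, v i ∈ M) → ∀ a ∈ M,
    (∀ x ∈ M, x ∈ a → ∃ y ∈ M, ∀ y' ∈ M,
      Sat M (Function.update (Function.update v 0 x) 1 y') φ ↔ y' = y) →
    ∃ b ∈ M, ∀ y ∈ M, y ∈ b ↔
      ∃ x ∈ M, x ∈ a ∧ Sat M (Function.update (Function.update v 0 x) 1 y) φ
  choice : ∀ a ∈ M, (∀ x ∈ M, x ∈ a → ∃ y ∈ M, y ∈ x) →
    (∀ x ∈ M, ∀ y ∈ M, x ∈ a → y ∈ a → (∃ z ∈ M, z ∈ x ∧ z ∈ y) → x = y) →
    ∃ c ∈ M, ∀ x ∈ M, x ∈ a → ∃ y ∈ M, ∀ z ∈ M, (z ∈ x ∧ z ∈ c) ↔ z = y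

/-- The restriction to some `V_β` of an elementary embedding `j` witnessing that the ordinal `μ` is
a 2-superstrong cardinal: `j : V_β → N` is elementary with `β` a limit ordinal, `N` transitive,
critical point `μ`, `j(j(μ)) ≤ β` and `V_{j(j(μ))} ⊆ N`. (If `j : V → M` is elementary with
critical point `μ` and `V_{j(j(μ))} ⊆ M`, then the restriction of `j` to any `V_β` with
`β ≥ j(j(μ))` a limit ordinal, with `N = j(V_β)`, is as required.) -/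
structure TwoSuperstrong (β : Ordinal.{u}) (N : ZFSet.{u}) (j : ZFSet.{u} → ZFSet.{u})
    (μ : Ordinal.{u}) : Prop where
  lim : Order.IsSuccLimit β
  om : Ordinal.omega0 < β
  trans : N.IsTransitive
  el : IsEl (V_ β) N j
  memμ : μ < β
  crit : ∀ a < μ, j a.toZFSet = a.toZFSet
  moved : j μ.toZFSet ≠ μ.toZFSet
  mem1 : rank (j μ.toZFSet) < β
  mem2 : rank (j (j μ.toZFSet)) ≤ β
  strong : V_ (rank (j (j μ.toZFSet))) ⊆ N

end Gss969
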