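import Pool.Agent.Gss969.Defs

/-!
One more notion, for the problem MP_ce9e93_lc.
-/

namespace Gss969

open ZFSet

universe u

/-- `κ` is singular in `N`: some function in `N` maps a smaller ordinal `γ ∈ κ` cofinally
into `κ`. -/
def SingularIn (N κ : ZFSet.{u}) : Prop :=
  ∃ γ ∈ κ, ∃ f ∈ N, IsFunc γ κ f ∧ ∀ y ∈ κ, ∃ z ∈ γ, ∃ v, pair z v ∈ f ∧ y ∈ v

end Gss969
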