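import Pool.Agent.Gss969.Level

/-!
The relation `e is an elementary embedding of t into M` is definable in every `V_δ`.
-/

namespace Gss969

open ZFSet

universe u

set_option linter.unusedVariables false

/-- `e` is (the graph of) an elementary embedding of `(t, ∈)` into `(M, ∈)`. -/
def ElS (t M e : ZFSet.{u}) : Prop := IsFunc t M e ∧ IsEl t M (app e)

def AMem (W S t c i l : ZFSet.{u}) : Prop :=
  ∀ s, IsFunc W t s → (pair c s ∈ S ↔ ∃ a ∈ t, ∃ b ∈ t, pair i a ∈ s ∧ pair l b ∈ s ∧ a ∈ b)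

def AEq (W S t c i l : ZFSet.{u}) : Prop :=
  ∀ s, IsFunc W t s → (pair c s ∈ S ↔ ∃ a ∈ t, pair i a ∈ s ∧ pair l a ∈ s)

def ANeg (W S t c c' : ZFSet.{u}) : Prop :=
  ∀ s, IsFunc W t s → (pair c' s ∈ S ↔ ¬ pair c s ∈ S)

def AAnd (W S t c c1 c2 : ZFSet.{u}) : Prop :=
  ∀ s, IsFunc W t s → (pair c s ∈ S ↔ pair c1 s ∈ S ∧ pair c2 s ∈ S)

def AEx (W S t i c c' : ZFSet.{u}) : Prop :=
  ∀ s, IsFunc W t s → (pair c' s ∈ S ↔ ∃ s', IsFunc W t s' ∧
    (pair c s' ∈ S ∧ ∀ l ∈ W, ¬ l = i → ∀ a ∈ t, pair l a ∈ s → pair l a ∈ s'))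

def APres (W S S' t M e c : ZFSet.{u}) : Prop :=
  ∀ s, IsFunc W t s → ∀ s', IsFunc W M s' →
    (∀ i ∈ W, ∀ a ∈ t, ∀ b ∈ M, pair i a ∈ s → pair i b ∈ s' → pair a b ∈ e) →
    (pair c s ∈ S ↔ pair c s' ∈ S')

def Good (W I S S' t M e : ZFSet.{u}) : Prop :=
  (∀ i ∈ W, ∀ l ∈ W, ∃ c ∈ I, AMem W S t c i l ∧ AMem W S' M c i l) ∧
  (∀ i ∈ W, ∀ l ∈ W, ∃ c ∈ I, AEq W S t c i l ∧ AEq W S' M c i l) ∧
  (∀ c ∈ I, ∃ c' ∈ I, ANeg W S t c c' ∧ ANeg W S' M c c') ∧
  (∀ c1 ∈ I, ∀ c2 ∈ I, ∃ c ∈ I, AAnd W S t c c1 c2 ∧ AAnd W S' M c c1 c2) ∧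
  (∀ i ∈ W, ∀ c ∈ I, ∃ c' ∈ I, AEx W S t i c c' ∧ AEx W S' M i c c') ∧
  (∀ c ∈ I, APres W S S' t M e c)

/-- A simple way to say that `W` is infinite. -/
def Inf (W : ZFSet.{u}) : Prop := (∃ x ∈ W, x = x) ∧ ∀ x ∈ W, ∃ y ∈ W, x ∈ y

section dfn

theorem Dfn.allfun (i l : ℕ) {A : ZFSet.{u} → (ℕ → ZFSet.{u}) → Prop}
    (h : Dfn Lvl (fun w => A (w 0) (fun n => w (n + 1)))) :
    Dfn Lvl (fun v => ∀ s, IsFunc (v i) (v l) s → A s v) :=
  Dfn.all (A := fun s v => IsFunc (v i) (v l) s → A s v)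
    ((dfn_isFunc Lvl_sub_Trs (i + 1) (l + 1) 0).imp h)
    fun U hU v hv ⟨a, ha⟩ => ⟨a, by
      push Not at ha
      exact Lvl_func hU (hv i) (hv l) ha.1, ha⟩

theorem Dfn.exfun (i l : ℕ) {A : ZFSet.{u} → (ℕ → ZFSet.{u}) → Prop}
    (h : Dfn Lvl (fun w => A (w 0) (fun n => w (n + 1)))) :
    Dfn Lvl (fun v => ∃ s, IsFunc (v i) (v l) s ∧ A s v) :=
  Dfn.ex (A := fun s v => IsFunc (v i) (v l) s ∧ A s v)
    ((dfn_isFunc Lvl_sub_Trs (i + 1) (l + 1) 0).and h)
    fun U hU v hv ⟨a, ha⟩ => ⟨a, Lvl_func hU (hv i) (hv l) ha.1, ha⟩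

theorem dfn_inf (i : ℕ) : Dfn Lvl.{u} (fun v => Inf (v i)) := by
  unfold Inf
  repeat' first
    | exact Dfn.mem _ _ | exact Dfn.eq _ _ | refine Dfn.and ?_ ?_
    | refine Dfn.ball Lvl_sub_Trs _ ?_ | refine Dfn.bex Lvl_sub_Trs _ ?_

theorem dfn_AMem (a b c d e f : ℕ) :
    Dfn Lvl.{u} (fun v => AMem (v a) (v b) (v c) (v d) (v e) (v f)) := by
  unfold AMem
  repeat' first
    | exact Dfn.mem _ _ | exact Dfn.eq _ _ | exact dfn_pm Lvl_sub_Trs _ _ _
    | refine Dfn.and ?_ ?_ | refine Dfn.iff ?_ ?_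
    | refine Dfn.bex Lvl_sub_Trs _ ?_ | refine Dfn.allfun _ _ ?_

theorem dfn_AEq (a b c d e f : ℕ) :
    Dfn Lvl.{u} (fun v => AEq (v a) (v b) (v c) (v d) (v e) (v f)) := by
  unfold AEq
  repeat' first
    | exact Dfn.mem _ _ | exact Dfn.eq _ _ | exact dfn_pm Lvl_sub_Trs _ _ _
    | refine Dfn.and ?_ ?_ | refine Dfn.iff ?_ ?_
    | refine Dfn.bex Lvl_sub_Trs _ ?_ | refine Dfn.allfun _ _ ?_

theorem dfn_ANeg (a b c d e : ℕ) :
    Dfn Lvl.{u} (fun v => ANeg (v a) (v b) (v c) (v d) (v e)) := by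
  unfold ANeg
  repeat' first
    | exact dfn_pm Lvl_sub_Trs _ _ _
    | refine Dfn.not ?_ | refine Dfn.iff ?_ ?_ | refine Dfn.allfun _ _ ?_

theorem dfn_AAnd (a b c d e f : ℕ) :
    Dfn Lvl.{u} (fun v => AAnd (v a) (v b) (v c) (v d) (v e) (v f)) := by
  unfold AAnd
  repeat' first
    | exact dfn_pm Lvl_sub_Trs _ _ _
    | refine Dfn.and ?_ ?_ | refine Dfn.iff ?_ ?_ | refine Dfn.allfun _ _ ?_

theorem dfn_AEx (a b c d e f : ℕ) :
    Dfn Lvl.{u} (fun v => AEx (v a) (v b) (v c) (v d) (v e) (v f)) := by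
  unfold AEx
  refine Dfn.allfun _ _ ?_
  refine Dfn.iff (dfn_pm Lvl_sub_Trs _ _ _) ?_
  refine Dfn.exfun _ _ ?_
  repeat' first
    | exact Dfn.mem _ _ | exact Dfn.eq _ _ | exact dfn_pm Lvl_sub_Trs _ _ _
    | refine Dfn.and ?_ ?_ | refine Dfn.not ?_ | refine Dfn.ball Lvl_sub_Trs _ ?_
    | refine Dfn.imp ?_ ?_

theorem dfn_APres (a b c d e f g : ℕ) :
    Dfn Lvl.{u} (fun v => APres (v a) (v b) (v c) (v d) (v e) (v f) (v g)) := by
  unfold APres
  refine Dfn.allfun _ _ ?_
  refine Dfn.allfun _ _ ?_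
  repeat' first
    | exact Dfn.mem _ _ | exact Dfn.eq _ _ | exact dfn_pm Lvl_sub_Trs _ _ _
    | refine Dfn.and ?_ ?_ | refine Dfn.iff ?_ ?_
    | refine Dfn.ball Lvl_sub_Trs _ ?_ | refine Dfn.imp ?_ ?_

theorem dfn_Good (a b c d e f g : ℕ) :
    Dfn Lvl.{u} (fun v => Good (v a) (v b) (v c) (v d) (v e) (v f) (v g)) := by
  unfold Good
  repeat' first
    | exact dfn_AMem _ _ _ _ _ _ | exact dfn_AEq _ _ _ _ _ _ | exact dfn_ANeg _ _ _ _ _
    | exact dfn_AAnd _ _ _ _ _ _ | exact dfn_AEx _ _ _ _ _ _ | exact dfn_APres _ _ _ _ _ _ _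
    | refine Dfn.and ?_ ?_
    | refine Dfn.ball Lvl_sub_Trs _ ?_ | refine Dfn.bex Lvl_sub_Trs _ ?_

end dfn

/-- From the families `S, S'` to elementarity. -/
theorem elem_of_good {W I S S' t M e : ZFSet.{u}} (hW : Inf W) (hG : Good W I S S' t M e)
    (he : IsFunc t M e) : IsEl t M (app e) := by
  classical
  obtain ⟨⟨x0, hx0, _⟩, hnext⟩ := hW
  choose! nxt hnxt hnxt' using hnext
  let ι : ℕ → ZFSet.{u} := fun n => nxt^[n] x0
  have hι : ∀ n, ι n ∈ W := by
    intro n
    induction n with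
    | zero => exact hx0
    | succ n ih =>
      show nxt^[n + 1] x0 ∈ W
      rw [Function.iterate_succ_apply']
      exact hnxt _ ih
  have hιm : StrictMono (fun n => rank (ι n)) := by
    refine strictMono_nat_of_lt_succ fun n => ?_
    show rank (ι n) < rank (nxt^[n + 1] x0)
    rw [Function.iterate_succ_apply']
    exact rank_lt_of_mem (hnxt' _ (hι n))
  have hιi : Function.Injective ι := fun a b h => hιm.injective (congrArg rank h)
  obtain ⟨g1, g2, g3, g4, g5, g6⟩ := hG
  have main : ∀ φ : Fml, ∀ f : ℕ → ZFSet.{u}, (∀ n, f n ∈ W) →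
      {n | ι n ∉ Set.range f}.Infinite → ∃ c ∈ I,
        (∀ s, IsFunc W t s → (pair c s ∈ S ↔ Sat t (fun n => app s (f n)) φ)) ∧
        (∀ s, IsFunc W M s → (pair c s ∈ S' ↔ Sat M (fun n => app s (f n)) φ)) := by
    intro φ
    induction φ with
    | mem i l =>
      intro f hf hinf
      obtain ⟨c, hc, h1, h2⟩ := g1 (f i) (hf i) (f l) (hf l)
      refine ⟨c, hc, fun s hs => ?_, fun s hs => ?_⟩
      · rw [h1 s hs]
        simp only [Sat]
        constructor
        · rintro ⟨a, _, b, _, h3, h4, h5⟩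
          rw [(app_iff hs (hf i)).1 h3, (app_iff hs (hf l)).1 h4]; exact h5
        · intro h
          exact ⟨_, app_mem hs (hf i), _, app_mem hs (hf l), app_spec hs (hf i),
            app_spec hs (hf l), h⟩
      · rw [h2 s hs]
        simp only [Sat]
        constructor
        · rintro ⟨a, _, b, _, h3, h4, h5⟩
          rw [(app_iff hs (hf i)).1 h3, (app_iff hs (hf l)).1 h4]; exact h5
        · intro h
          exact ⟨_, app_mem hs (hf i), _, app_mem hs (hf l), app_spec hs (hf i),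
            app_spec hs (hf l), h⟩
    | eq i l =>
      intro f hf hinf
      obtain ⟨c, hc, h1, h2⟩ := g2 (f i) (hf i) (f l) (hf l)
      refine ⟨c, hc, fun s hs => ?_, fun s hs => ?_⟩
      · rw [h1 s hs]
        simp only [Sat]
        constructor
        · rintro ⟨a, _, h3, h4⟩
          rw [(app_iff hs (hf i)).1 h3, (app_iff hs (hf l)).1 h4]
        · intro h
          exact ⟨_, app_mem hs (hf i), app_spec hs (hf i), h ▸ app_spec hs (hf l)⟩
      · rw [h2 s hs]
        simp only [Sat]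
        constructor
        · rintro ⟨a, _, h3, h4⟩
          rw [(app_iff hs (hf i)).1 h3, (app_iff hs (hf l)).1 h4]
        · intro h
          exact ⟨_, app_mem hs (hf i), app_spec hs (hf i), h ▸ app_spec hs (hf l)⟩
    | neg φ ih =>
      intro f hf hinf
      obtain ⟨c, hc, h1, h2⟩ := ih f hf hinf
      obtain ⟨c', hc', h3, h4⟩ := g3 c hc
      refine ⟨c', hc', fun s hs => ?_, fun s hs => ?_⟩
      · rw [h3 s hs, h1 s hs]; exact Iff.rfl
      · rw [h4 s hs, h2 s hs]; exact Iff.rfl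
    | and φ ψ ih ih' =>
      intro f hf hinf
      obtain ⟨c1, hc1, h1, h2⟩ := ih f hf hinf
      obtain ⟨c2, hc2, h1', h2'⟩ := ih' f hf hinf
      obtain ⟨c', hc', h3, h4⟩ := g4 c1 hc1 c2 hc2
      refine ⟨c', hc', fun s hs => ?_, fun s hs => ?_⟩
      · rw [h3 s hs, h1 s hs, h1' s hs]; exact Iff.rfl
      · rw [h4 s hs, h2 s hs, h2' s hs]; exact Iff.rfl
    | ex i φ ih =>
      intro f hf hinf
      obtain ⟨n0, hn0⟩ := hinf.nonempty
      have hk : ∀ n, f n ≠ ι n0 := fun n h => hn0 ⟨n, h⟩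
      have hf' : ∀ n, Function.update f i (ι n0) n ∈ W := by
        intro n
        by_cases hn : n = i
        · subst hn; simpa using hι n0
        · simpa [hn] using hf n
      have hinf' : {n | ι n ∉ Set.range (Function.update f i (ι n0))}.Infinite := by
        have : {n | ι n ∉ Set.range f} \ {n0} ⊆
            {n | ι n ∉ Set.range (Function.update f i (ι n0))} := by
          rintro n ⟨h1, h2⟩ ⟨m, hm⟩
          by_cases hmi : m = i
          · subst hmi
            rw [Function.update_self] at hm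
            exact h2 (hιi hm).symm
          · rw [Function.update_of_ne hmi] at hm
            exact h1 ⟨m, hm⟩
        exact (hinf.sdiff (Set.finite_singleton n0)).mono this
      obtain ⟨c, hc, h1, h2⟩ := ih _ hf' hinf'
      obtain ⟨c', hc', h3, h4⟩ := g5 (ι n0) (hι n0) c hc
      have key : ∀ (t S : ZFSet.{u}), (∀ s, IsFunc W t s → (pair c s ∈ S ↔
          Sat t (fun n => app s (Function.update f i (ι n0) n)) φ)) →
          AEx W S t (ι n0) c c' →
          ∀ s, IsFunc W t s → (pair c' s ∈ S ↔ Sat t (fun n => app s (f n)) (.ex i φ)) := by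
        intro t S h1 h3 s hs
        rw [h3 s hs]
        simp only [Sat]
        constructor
        · rintro ⟨s', hs', h5, h6⟩
          refine ⟨app s' (ι n0), app_mem hs' (hι n0), ?_⟩
          rw [h1 s' hs'] at h5
          have : (fun n => app s' (Function.update f i (ι n0) n)) =
              Function.update (fun n => app s (f n)) i (app s' (ι n0)) := by
            funext n
            by_cases hn : n = i
            · subst hn; simp
            · simp only [Function.update_of_ne hn]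
              have h7 := h6 (f n) (hf n) (hk n) _ (app_mem hs (hf n)) (app_spec hs (hf n))
              exact (app_iff hs' (hf n)).1 h7
          rwa [this] at h5
        · rintro ⟨a, ha, h5⟩
          let g : ZFSet.{u} → ZFSet.{u} := fun x => if x = ι n0 then a else app s x
          have hg : ∀ x ∈ W, g x ∈ t := by
            intro x hx
            simp only [g]
            split_ifs
            · exact ha
            · exact app_mem hs hx
          have hG := isFunc_gr (d := W) (t := t) hg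
          refine ⟨gr W g, hG, ?_, ?_⟩
          · rw [h1 _ hG]
            have : (fun n => app (gr W g) (Function.update f i (ι n0) n)) =
                Function.update (fun n => app s (f n)) i a := by
              funext n
              by_cases hn : n = i
              · subst hn; simp [app_gr (hι n0), g]
              · simp [Function.update_of_ne hn, app_gr (hf n), g, hk n]
            rw [this]
            exact h5
          · intro l hl hli b hb hlb
            refine pair_mem_gr.2 ⟨hl, ?_⟩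
            simp only [g, hli, if_false]
            exact (app_iff hs hl).1 hlb
      exact ⟨c', hc', key t S h1 h3, key M S' h2 h4⟩
  refine ⟨fun x hx => app_mem he hx, fun φ v hv => ?_⟩
  have hinf : {n | ι n ∉ Set.range (fun m => ι (2 * m))}.Infinite := by
    refine Set.infinite_of_injective_forall_mem (f := fun n : ℕ => 2 * n + 1) ?_ ?_
    · intro a b hab; simpa using hab
    · rintro n ⟨m, hm⟩
      have := hιi hm
      omega
  obtain ⟨c, hc, h1, h2⟩ := main φ (fun m => ι (2 * m)) (fun m => hι _) hinf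
  let g : ZFSet.{u} → ZFSet.{u} := fun x => if h : ∃ n, x = ι (2 * n) then v h.choose else v 0
  have hgv : ∀ n, g (ι (2 * n)) = v n := by
    intro n
    have h : ∃ m, ι (2 * n) = ι (2 * m) := ⟨n, rfl⟩
    simp only [g]
    rw [dif_pos h]
    have := hιi h.choose_spec
    congr 1
    omega
  have hg : ∀ x ∈ W, g x ∈ t := by
    intro x hx
    simp only [g]
    split_ifs
    · exact hv _
    · exact hv _
  have hG := isFunc_gr (d := W) (t := t) hg
  have hG' := isFunc_gr (d := W) (t := M) (g := fun x => app e (g x))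
    (fun x hx => app_mem he (hg x hx))
  have h3 := g6 c hc _ hG _ hG' (by
    intro i hi a ha b hb h3 h4
    rw [pair_mem_gr] at h3 h4
    rw [← h3.2] at ha ⊢
    rw [← h4.2]
    exact app_spec he ha)
  rw [h1 _ hG, h2 _ hG'] at h3
  have e1 : (fun n => app (gr W g) (ι (2 * n))) = v := by
    funext n
    rw [app_gr (hι _), hgv]
  have e2 : (fun n => app (gr W (fun x => app e (g x))) (ι (2 * n))) =
      fun n => app e (v n) := by
    funext n
    rw [app_gr (hι _), hgv]
  rw [e1, e2] at h3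
  exact h3

end Gss969
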