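import Pool.Agent.Gss969.Elem

/-!
Definability of elementarity: the converse direction and the conclusion.
-/

namespace Gss969

open ZFSet

universe u

set_option linter.unusedVariables false

/-- The set `ω`. -/
noncomputable def om : ZFSet.{u} := Ordinal.omega0.toZFSet

/-- The natural number `n` as a set. -/
noncomputable def nt (n : ℕ) : ZFSet.{u} := ((n : Ordinal.{u})).toZFSet

theorem nt_mem (n : ℕ) : nt.{u} n ∈ om := by
  unfold nt om
  rw [Ordinal.toZFSet_mem_toZFSet_iff]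
  exact Ordinal.natCast_lt_omega0 n

theorem mem_om {x : ZFSet.{u}} : x ∈ om ↔ ∃ n : ℕ, x = nt n := by
  constructor
  · intro h
    unfold om at h
    rw [Ordinal.mem_toZFSet_iff] at h
    obtain ⟨a, ha, rfl⟩ := h
    obtain ⟨n, rfl⟩ := Ordinal.lt_omega0.1 ha
    exact ⟨n, rfl⟩
  · rintro ⟨n, rfl⟩
    exact nt_mem n

theorem nt_inj {n m : ℕ} : nt.{u} n = nt m ↔ n = m := by
  unfold nt
  rw [Ordinal.toZFSet_injective.eq_iff]
  exact Nat.cast_inj

theorem om_mem_Lvl {U : ZFSet.{u}} (hU : U ∈ Lvl) : om ∈ U := by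
  obtain ⟨δ, _, hδ, rfl⟩ := hU
  rw [mem_vonNeumann]
  unfold om
  rw [Ordinal.rank_toZFSet]
  exact hδ

theorem inf_om : Inf om.{u} := by
  refine ⟨⟨nt 0, nt_mem 0, rfl⟩, ?_⟩
  intro x hx
  obtain ⟨n, rfl⟩ := mem_om.1 hx
  refine ⟨nt (n + 1), nt_mem _, ?_⟩
  unfold nt
  rw [Ordinal.toZFSet_mem_toZFSet_iff]
  exact_mod_cast Nat.lt_succ_self n

section canon

/-- The set of assignments satisfying `φ`. -/
noncomputable def xs (t : ZFSet.{u}) (φ : Fml) : ZFSet.{u} :=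
  ZFSet.sep (fun s => Sat t (fun n => app s (nt n)) φ) (funs om t)

noncomputable def cd (t M : ZFSet.{u}) (φ : Fml) : ZFSet.{u} := pair (xs t φ) (xs M φ)

noncomputable def ci (t M : ZFSet.{u}) : ZFSet.{u} :=
  ZFSet.sep (fun c => ∃ φ, c = cd t M φ) (prod (powerset (funs om t)) (powerset (funs om M)))

noncomputable def cs (t M T : ZFSet.{u}) : ZFSet.{u} :=
  ZFSet.sep (fun p => ∃ φ, ∃ s ∈ xs T φ, p = pair (cd t M φ) s) (prod (ci t M) (funs om T))

theorem cd_mem (t M : ZFSet.{u}) (φ : Fml) : cd t M φ ∈ ci t M := by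
  unfold ci
  rw [mem_sep]
  refine ⟨pair_mem_prod.2 ⟨?_, ?_⟩, φ, rfl⟩
  · rw [mem_powerset]; exact sep_subset
  · rw [mem_powerset]; exact sep_subset

theorem mem_cs {t M T s : ZFSet.{u}} (hT : T = t ∨ T = M) (φ : Fml) (hs : IsFunc om T s) :
    pair (cd t M φ) s ∈ cs t M T ↔ Sat T (fun n => app s (nt n)) φ := by
  unfold cs
  rw [mem_sep]
  constructor
  · rintro ⟨_, ψ, s', hs', h⟩
    rw [pair_inj] at h
    obtain ⟨h1, rfl⟩ := h
    unfold cd at h1
    rw [pair_inj] at h1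
    have : xs T φ = xs T ψ := by
      rcases hT with rfl | rfl
      · exact h1.1
      · exact h1.2
    rw [← this] at hs'
    exact (mem_sep.1 hs').2
  · intro h
    exact ⟨pair_mem_prod.2 ⟨cd_mem t M φ, mem_funs.2 hs⟩, φ, s,
      mem_sep.2 ⟨mem_funs.2 hs, h⟩, rfl⟩

theorem good_canon {t M e : ZFSet.{u}} (h : ElS t M e) :
    Good om (ci t M) (cs t M t) (cs t M M) t M e := by
  classical
  have hmem : ∀ T, T = t ∨ T = M → ∀ i l : ℕ,
      AMem om (cs t M T) T (cd t M (.mem i l)) (nt i) (nt l) := by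
    intro T hT i l s hs
    rw [mem_cs hT _ hs]
    simp only [Sat]
    constructor
    · intro h
      exact ⟨_, app_mem hs (nt_mem i), _, app_mem hs (nt_mem l), app_spec hs (nt_mem i),
        app_spec hs (nt_mem l), h⟩
    · rintro ⟨a, _, b, _, h3, h4, h5⟩
      rw [(app_iff hs (nt_mem i)).1 h3, (app_iff hs (nt_mem l)).1 h4]; exact h5
  have heq : ∀ T, T = t ∨ T = M → ∀ i l : ℕ,
      AEq om (cs t M T) T (cd t M (.eq i l)) (nt i) (nt l) := by
    intro T hT i l s hs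
    rw [mem_cs hT _ hs]
    simp only [Sat]
    constructor
    · intro h
      exact ⟨_, app_mem hs (nt_mem i), app_spec hs (nt_mem i), h ▸ app_spec hs (nt_mem l)⟩
    · rintro ⟨a, _, h3, h4⟩
      rw [(app_iff hs (nt_mem i)).1 h3, (app_iff hs (nt_mem l)).1 h4]
  have hneg : ∀ T, T = t ∨ T = M → ∀ φ,
      ANeg om (cs t M T) T (cd t M φ) (cd t M (.neg φ)) := by
    intro T hT φ s hs
    rw [mem_cs hT _ hs, mem_cs hT _ hs]
    exact Iff.rfl
  have hand : ∀ T, T = t ∨ T = M → ∀ φ ψ,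
      AAnd om (cs t M T) T (cd t M (.and φ ψ)) (cd t M φ) (cd t M ψ) := by
    intro T hT φ ψ s hs
    rw [mem_cs hT _ hs, mem_cs hT _ hs, mem_cs hT _ hs]
    exact Iff.rfl
  have hex : ∀ T, T = t ∨ T = M → ∀ i φ,
      AEx om (cs t M T) T (nt i) (cd t M φ) (cd t M (.ex i φ)) := by
    intro T hT i φ s hs
    rw [mem_cs hT _ hs]
    simp only [Sat]
    constructor
    · rintro ⟨a, ha, h5⟩
      let g : ZFSet.{u} → ZFSet.{u} := fun x => if x = nt i then a else app s x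
      have hg : ∀ x ∈ om, g x ∈ T := by
        intro x hx
        simp only [g]
        split_ifs
        · exact ha
        · exact app_mem hs hx
      have hG := isFunc_gr (d := om) (t := T) hg
      refine ⟨gr om g, hG, ?_, ?_⟩
      · rw [mem_cs hT _ hG]
        have : (fun n => app (gr om g) (nt n)) =
            Function.update (fun n => app s (nt n)) i a := by
          funext n
          by_cases hn : n = i
          · subst hn; simp [app_gr (nt_mem n), g]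
          · have : nt.{u} n ≠ nt i := fun h => hn (nt_inj.1 h)
            simp [hn, app_gr (nt_mem n), g, this]
        rw [this]
        exact h5
      · intro l hl hli b hb hlb
        refine pair_mem_gr.2 ⟨hl, ?_⟩
        simp only [g, hli, if_false]
        exact (app_iff hs hl).1 hlb
    · rintro ⟨s', hs', h5, h6⟩
      rw [mem_cs hT _ hs'] at h5
      refine ⟨app s' (nt i), app_mem hs' (nt_mem i), ?_⟩
      have : (fun n => app s' (nt n)) =
          Function.update (fun n => app s (nt n)) i (app s' (nt i)) := by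
        funext n
        by_cases hn : n = i
        · subst hn; simp
        · simp only [Function.update_of_ne hn]
          have hni : ¬ nt.{u} n = nt i := fun h => hn (nt_inj.1 h)
          have h7 := h6 (nt n) (nt_mem n) hni _ (app_mem hs (nt_mem n)) (app_spec hs (nt_mem n))
          exact (app_iff hs' (nt_mem n)).1 h7
      rwa [this] at h5
  have hI : ∀ c ∈ ci t M, ∃ φ, c = cd t M φ := fun c hc => (mem_sep.1 hc).2
  refine ⟨?_, ?_, ?_, ?_, ?_, ?_⟩
  · intro i hi l hl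
    obtain ⟨i, rfl⟩ := mem_om.1 hi
    obtain ⟨l, rfl⟩ := mem_om.1 hl
    exact ⟨_, cd_mem t M _, hmem t (Or.inl rfl) i l, hmem M (Or.inr rfl) i l⟩
  · intro i hi l hl
    obtain ⟨i, rfl⟩ := mem_om.1 hi
    obtain ⟨l, rfl⟩ := mem_om.1 hl
    exact ⟨_, cd_mem t M _, heq t (Or.inl rfl) i l, heq M (Or.inr rfl) i l⟩
  · intro c hc
    obtain ⟨φ, rfl⟩ := hI c hc
    exact ⟨_, cd_mem t M _, hneg t (Or.inl rfl) φ, hneg M (Or.inr rfl) φ⟩
  · intro c hc c' hc'
    obtain ⟨φ, rfl⟩ := hI c hc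
    obtain ⟨ψ, rfl⟩ := hI c' hc'
    exact ⟨_, cd_mem t M _, hand t (Or.inl rfl) φ ψ, hand M (Or.inr rfl) φ ψ⟩
  · intro i hi c hc
    obtain ⟨i, rfl⟩ := mem_om.1 hi
    obtain ⟨φ, rfl⟩ := hI c hc
    exact ⟨_, cd_mem t M _, hex t (Or.inl rfl) i φ, hex M (Or.inr rfl) i φ⟩
  · intro c hc s hs s' hs' hcomp
    obtain ⟨φ, rfl⟩ := hI c hc
    rw [mem_cs (Or.inl rfl) _ hs, mem_cs (Or.inr rfl) _ hs',
      h.2.2 φ _ (fun n => app_mem hs (nt_mem n))]
    have : (fun n => app e (app s (nt n))) = fun n => app s' (nt n) := by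
      funext n
      rw [← app_iff h.1 (app_mem hs (nt_mem n))]
      exact hcomp _ (nt_mem n) _ (app_mem hs (nt_mem n)) _ (app_mem hs' (nt_mem n))
        (app_spec hs (nt_mem n)) (app_spec hs' (nt_mem n))
    rw [this]

theorem canon_mem {U t M : ZFSet.{u}} (hU : U ∈ Lvl) (ht : t ∈ U) (hM : M ∈ U) :
    ci t M ∈ U ∧ cs t M t ∈ U ∧ cs t M M ∈ U := by
  have ho := om_mem_Lvl hU
  have h1 : ci t M ∈ U := Lvl_sub hU (Lvl_prod hU (Lvl_powerset hU (Lvl_funs hU ho ht))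
    (Lvl_powerset hU (Lvl_funs hU ho hM))) sep_subset
  exact ⟨h1, Lvl_sub hU (Lvl_prod hU h1 (Lvl_funs hU ho ht)) sep_subset,
    Lvl_sub hU (Lvl_prod hU h1 (Lvl_funs hU ho hM)) sep_subset⟩

end canon

theorem elS_iff (t M e : ZFSet.{u}) : ElS t M e ↔ IsFunc t M e ∧
    ∃ Q : ZFSet.{u}, ∃ W ∈ Q, ∃ I ∈ Q, ∃ S ∈ Q, ∃ S' ∈ Q, Inf W ∧ Good W I S S' t M e := by
  constructor
  · intro h
    refine ⟨h.1, {om, ci t M, cs t M t, cs t M M}, om, by simp, ci t M, by simp, cs t M t,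
      by simp, cs t M M, by simp, inf_om, good_canon h⟩
  · rintro ⟨h, Q, W, _, I, _, S, _, S', _, h1, h2⟩
    exact ⟨h, elem_of_good h1 h2 h⟩

theorem dfn_ElS (a b c : ℕ) : Dfn Lvl.{u} (fun v => ElS (v a) (v b) (v c)) := by
  refine Dfn.congr (A := fun v => IsFunc (v a) (v b) (v c) ∧
    ∃ Q : ZFSet.{u}, ∃ W ∈ Q, ∃ I ∈ Q, ∃ S ∈ Q, ∃ S' ∈ Q, Inf W ∧ Good W I S S' (v a) (v b) (v c)) ?_
    fun v => (elS_iff _ _ _).symm
  -- rearrange so that the witness can be bounded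
  refine Dfn.congr (A := fun v => ∃ Q : ZFSet.{u}, (IsFunc (v a) (v b) (v c) ∧
    ∃ W ∈ Q, ∃ I ∈ Q, ∃ S ∈ Q, ∃ S' ∈ Q, Inf W ∧ Good W I S S' (v a) (v b) (v c))) ?_
    fun v => exists_and_left
  refine Dfn.ex ?_ ?_
  · refine Dfn.and (dfn_isFunc Lvl_sub_Trs _ _ _) ?_
    repeat' first
      | exact dfn_inf _ | exact dfn_Good _ _ _ _ _ _ _
      | refine Dfn.and ?_ ?_ | refine Dfn.bex Lvl_sub_Trs _ ?_
  · rintro U hU v hv ⟨Q, h, W, _, I, _, S, _, S', _, h1, h2⟩
    have hE : ElS (v a) (v b) (v c) := ⟨h, elem_of_good h1 h2 h⟩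
    have ho := om_mem_Lvl hU
    obtain ⟨m1, m2, m3⟩ := canon_mem hU (hv a) (hv b)
    refine ⟨{om, ci (v a) (v b), cs (v a) (v b) (v a), cs (v a) (v b) (v b)}, ?_, h,
      om, by simp, ci (v a) (v b), by simp, cs (v a) (v b) (v a),
      by simp, cs (v a) (v b) (v b), by simp, inf_om, good_canon hE⟩
    obtain ⟨δ, hδ, _, rfl⟩ := hU
    rw [mem_vonNeumann] at *
    simp only [rank_insert, rank_singleton, max_lt_iff]
    exact ⟨hδ.succ_lt ho, hδ.succ_lt m1, hδ.succ_lt m2, hδ.succ_lt m3⟩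

end Gss969
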