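import Pool.Agent.Gss969.Main
import Pool.Agent.Gss969.Defs

/-!
From the argument about levels to the statement of the problem.
-/

namespace Gss969

open ZFSet

universe u

set_option linter.unusedVariables false

/-! ### ZFC in inaccessible levels -/

theorem Inac.tr {U : ZFSet.{u}} (h : Inac U) : U.IsTransitive := h.1.trans

theorem modelsZFC {U : ZFSet.{u}} (h : Inac U) : ModelsZFC U := by
  classical
  have hl := h.lvl
  have ht := h.tr
  have hsep : ∀ a ∈ U, ∀ p : ZFSet.{u} → Prop, ZFSet.sep p a ∈ U :=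
    fun a ha p => Lvl_sub hl ha sep_subset
  constructor
  · intro x hx y hy hxy
    ext z
    exact ⟨fun hz => (hxy z (ht.mem_trans hz hx)).1 hz, fun hz => (hxy z (ht.mem_trans hz hy)).2 hz⟩
  · rintro x hx ⟨y, hy, hyx⟩
    obtain ⟨m, hm, hm'⟩ := mem_wf.has_min {z | z ∈ x} ⟨y, hyx⟩
    exact ⟨m, ht.mem_trans hm hx, hm, fun z _ hz => hm' z hz.2 hz.1⟩
  · intro x hx y hy
    exact ⟨{x, y}, ht.mem_trans (by simp [pair]) (Lvl_pair hl hx hy), fun w _ => by simp⟩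
  · intro x hx
    refine ⟨ZFSet.sUnion x, ?_, fun w _ => ?_⟩
    · obtain ⟨δ, _, _, rfl⟩ := hl
      rw [mem_vonNeumann] at *
      exact (rank_sUnion_le x).trans_lt hx
    · rw [mem_sUnion]
      exact ⟨fun ⟨y, hy, hw⟩ => ⟨y, ht.mem_trans hy hx, hy, hw⟩, fun ⟨y, _, hy, hw⟩ => ⟨y, hy, hw⟩⟩
  · intro x hx
    refine ⟨powerset x, Lvl_powerset hl hx, fun w hw => ?_⟩
    rw [mem_powerset]
    exact ⟨fun h y _ hy => h hy, fun h y hy => h y (ht.mem_trans hy hw) hy⟩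
  · refine ⟨om, om_mem_Lvl hl, ⟨∅, lvl_nonempty hl, ?_, by simp⟩, ?_⟩
    · rw [mem_om]; exact ⟨0, by simp [nt]⟩
    · intro x hx hxo
      obtain ⟨n, rfl⟩ := mem_om.1 hxo
      refine ⟨nt (n + 1), ht.mem_trans (nt_mem _) (om_mem_Lvl hl), nt_mem _, fun w _ => ?_⟩
      simp [nt, or_comm]
  · intro φ v hv a ha
    exact ⟨_, hsep a ha _, fun z _ => by rw [mem_sep]⟩
  · intro φ v hv a ha hfun
    have hfun' : ∀ x ∈ a, ∃ y ∈ U, ∀ y' ∈ U,
        Sat U (Function.update (Function.update v 0 x) 1 y') φ ↔ y' = y :=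
      fun x hx => hfun x (ht.mem_trans hx ha) hx
    choose! F hF hF' using hfun'
    obtain ⟨b, hb, hb'⟩ := h.repl a ha F hF
    refine ⟨b, hb, fun y hy => ?_⟩
    rw [hb']
    constructor
    · rintro ⟨x, hx, rfl⟩
      exact ⟨x, ht.mem_trans hx ha, hx, (hF' x hx _ (hF x hx)).2 rfl⟩
    · rintro ⟨x, _, hx, h1⟩
      exact ⟨x, hx, ((hF' x hx y hy).1 h1).symm⟩
  · intro a ha hne hdis
    have hne' : ∀ x ∈ a, ∃ y ∈ U, y ∈ x := fun x hx => hne x (ht.mem_trans hx ha) hx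
    choose! F hF hF' using hne'
    obtain ⟨b, hb, hb'⟩ := h.repl a ha F hF
    refine ⟨b, hb, fun x hx hxa => ⟨F x, hF x hxa, fun z hz => ?_⟩⟩
    constructor
    · rintro ⟨hzx, hzb⟩
      obtain ⟨x', hx', rfl⟩ := (hb' z).1 hzb
      have : x = x' := hdis x hx x' (ht.mem_trans hx' ha) hxa hx'
        ⟨F x', hF x' hx', hzx, hF' x' hx'⟩
      rw [this]
    · rintro rfl
      exact ⟨hF' x hxa, (hb' _).2 ⟨x, hxa, rfl⟩⟩

/-! ### Cardinals below an inaccessible level -/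

theorem no_surj {α γ : Ordinal.{u}} (h : Inac (V_ α)) (hγ : γ < α) {a : ZFSet.{u}}
    (ha : a ∈ V_ α) (F : ZFSet.{u} → ZFSet.{u})
    (hF : ∀ δ < α, ∃ x ∈ a, F x = δ.toZFSet) : False := by
  classical
  let G : ZFSet.{u} → ZFSet.{u} := fun x => if F x ∈ V_ α then F x else ∅
  have hG : ∀ x ∈ a, G x ∈ V_ α := by
    intro x hx
    simp only [G]
    split_ifs with hh
    · exact hh
    · exact lvl_nonempty h.lvl
  obtain ⟨b, hb, hb'⟩ := h.repl a ha G hG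
  have h1 : ∀ δ < α, δ < rank b := by
    intro δ hδ
    obtain ⟨x, hx, he⟩ := hF δ hδ
    have h2 : δ.toZFSet ∈ b := by
      refine (hb' _).2 ⟨x, hx, ?_⟩
      simp only [G]
      rw [he, if_pos]
      rw [mem_vonNeumann, Ordinal.rank_toZFSet]
      exact hδ
    have := rank_lt_of_mem h2
    rwa [Ordinal.rank_toZFSet] at this
  exact absurd (h1 (rank b) (mem_vonNeumann.1 hb)) (lt_irrefl _)

open Cardinal in
theorem exists_card {α γ : Ordinal.{u}} (h : Inac (V_ α)) (hγ : γ < α) :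
    ∃ l < α, γ < l ∧ LimOrd l.toZFSet ∧ ∀ N : ZFSet.{u}, CardIn N l.toZFSet := by
  classical
  obtain ⟨α', hlim, hω, he⟩ := h.lvl
  rw [vonNeumann_inj] at he
  subst he
  set g : Ordinal.{u} := max γ Ordinal.omega0 with hg
  have hgα : g < α := max_lt hγ hω
  set c : Cardinal.{u} := 2 ^ g.card with hc
  have hc0 : ℵ₀ ≤ c := by
    have h1 : ℵ₀ ≤ g.card := by
      rw [Ordinal.aleph0_le_card]
      exact le_max_right _ _
    exact h1.trans (cantor _).le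
  have hgc : g < c.ord := by
    rw [lt_ord]
    exact cantor _
  have hcα : c.ord < α := by
    by_contra hcon
    push Not at hcon
    -- an injection of `α` into the power set of `g`
    have h1 : #{x // x ∈ α.toZFSet} ≤ #{x // x ∈ powerset g.toZFSet} := by
      have e1 : #{x // x ∈ α.toZFSet} = lift.{u + 1, u} (card α.toZFSet) := cardinalMk_coe_sort
      have e2 : #{x // x ∈ powerset g.toZFSet} = lift.{u + 1, u} (card (powerset g.toZFSet)) :=
        cardinalMk_coe_sort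
      rw [e1, e2, lift_le, card_powerset, Ordinal.card_toZFSet, Ordinal.card_toZFSet]
      have := Ordinal.card_le_card hcon
      rwa [card_ord] at this
    obtain ⟨f⟩ := h1
    have ha : powerset g.toZFSet ∈ V_ α := Lvl_powerset h.lvl (by
      rw [mem_vonNeumann, Ordinal.rank_toZFSet]; exact hgα)
    refine no_surj h hgα ha (fun y => if hy : ∃ x, (f x).1 = y then hy.choose.1 else ∅) ?_
    intro δ hδ
    let x0 : {x // x ∈ α.toZFSet} := ⟨δ.toZFSet, Ordinal.toZFSet_mem_toZFSet_iff.2 hδ⟩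
    refine ⟨(f x0).1, (f x0).2, ?_⟩
    have hy : ∃ x, (f x).1 = (f x0).1 := ⟨x0, rfl⟩
    rw [dif_pos hy]
    have : hy.choose = x0 := f.injective (Subtype.ext hy.choose_spec)
    rw [this]
  refine ⟨c.ord, hcα, (le_max_left _ _).trans_lt hgc, ?_, fun N => ⟨isOrdinal_toZFSet _, ?_⟩⟩
  · refine ⟨isOrdinal_toZFSet _, ?_, fun y hy => ?_⟩
    · intro h0
      have : (0 : Ordinal.{u}).toZFSet ∈ c.ord.toZFSet := by
        rw [Ordinal.toZFSet_mem_toZFSet_iff]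
        exact lt_of_le_of_lt zero_le hgc
      rw [h0] at this
      exact notMem_empty _ this
    · obtain ⟨a, ha, rfl⟩ := Ordinal.mem_toZFSet_iff.1 hy
      rw [← Ordinal.toZFSet_add_one, Ordinal.toZFSet_mem_toZFSet_iff]
      exact (isSuccLimit_ord hc0).succ_lt ha
  · rintro x hx f _ ⟨hf, hs⟩
    obtain ⟨a, ha, rfl⟩ := Ordinal.mem_toZFSet_iff.1 hx
    -- a surjection contradicts `a.card < c`
    have h1 : #{x // x ∈ c.ord.toZFSet} ≤ #{x // x ∈ a.toZFSet} := by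
      refine mk_le_of_surjective (f := fun z => ⟨app f z.1, app_mem hf z.2⟩) ?_
      rintro ⟨y, hy⟩
      obtain ⟨z, hz, hzy⟩ := hs y hy
      exact ⟨⟨z, hz⟩, Subtype.ext ((app_iff hf hz).1 hzy)⟩
    have e1 : #{x // x ∈ c.ord.toZFSet} = lift.{u + 1, u} (card c.ord.toZFSet) :=
      cardinalMk_coe_sort
    have e2 : #{x // x ∈ a.toZFSet} = lift.{u + 1, u} (card a.toZFSet) := cardinalMk_coe_sort
    rw [e1, e2, lift_le, Ordinal.card_toZFSet, Ordinal.card_toZFSet, card_ord] at h1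
    exact absurd (lt_ord.1 ha) h1.not_gt

theorem cardIn_of_inac {κ : Ordinal.{u}} (h : Inac (V_ κ)) (N : ZFSet.{u}) :
    CardIn N κ.toZFSet := by
  refine ⟨isOrdinal_toZFSet _, ?_⟩
  rintro x hx f _ ⟨hf, hs⟩
  obtain ⟨a, ha, rfl⟩ := Ordinal.mem_toZFSet_iff.1 hx
  refine no_surj h ha (a := a.toZFSet) ?_ (app f) ?_
  · rw [mem_vonNeumann, Ordinal.rank_toZFSet]; exact ha
  · intro δ hδ
    obtain ⟨z, hz, hzy⟩ := hs δ.toZFSet (Ordinal.toZFSet_mem_toZFSet_iff.2 hδ)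
    exact ⟨z, hz, (app_iff hf hz).1 hzy⟩

/-! ### Largeness -/

theorem dfn_prodrel {𝒰 : Set ZFSet.{u}} (ht : 𝒰 ⊆ Trs) (a b c : ℕ) :
    Dfn 𝒰 (fun v => v a = ZFSet.prod (v b) (v c)) := by
  refine Dfn.congr (A := fun v => (∀ p ∈ v a, ∃ x ∈ v b, ∃ y ∈ v c, p = pair x y) ∧
    ∀ x ∈ v b, ∀ y ∈ v c, pair x y ∈ v a) ?_ fun v => ?_
  · repeat' first
      | exact dfn_pair ht _ _ _ | exact dfn_pm ht _ _ _
      | refine Dfn.and ?_ ?_ | refine Dfn.ball ht _ ?_ | refine Dfn.bex ht _ ?_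
  · constructor
    · rintro ⟨h1, h2⟩
      ext p
      rw [mem_prod]
      exact ⟨h1 p, fun ⟨x, hx, y, hy, e⟩ => e ▸ h2 x hx y hy⟩
    · intro h
      rw [h]
      exact ⟨fun p hp => mem_prod.1 hp, fun x hx y hy => pair_mem_prod.2 ⟨hx, hy⟩⟩

theorem dfn_interrel {𝒰 : Set ZFSet.{u}} (ht : 𝒰 ⊆ Trs) (a b c : ℕ) :
    Dfn 𝒰 (fun v => v a = v b ∩ v c) := by
  refine Dfn.congr (A := fun v => (∀ p ∈ v a, p ∈ v b ∧ p ∈ v c) ∧
    ∀ x ∈ v b, x ∈ v c → x ∈ v a) ?_ fun v => ?_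
  · repeat' first
      | exact Dfn.mem _ _
      | refine Dfn.and ?_ ?_ | refine Dfn.ball ht _ ?_ | refine Dfn.imp ?_ ?_
  · constructor
    · rintro ⟨h1, h2⟩
      ext p
      rw [mem_inter]
      exact ⟨h1 p, fun ⟨hx, hy⟩ => h2 p hx hy⟩
    · intro h
      rw [h]
      exact ⟨fun p hp => mem_inter.1 hp, fun x hx hy => mem_inter.2 ⟨hx, hy⟩⟩

theorem dfn_sInterrel {𝒰 : Set ZFSet.{u}} (ht : 𝒰 ⊆ Trs) (a b : ℕ) :
    Dfn 𝒰 (fun v => v a = ZFSet.sInter (v b)) := by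
  refine Dfn.congr (A := fun v => (∀ p ∈ v a, (∃ x ∈ v b, p ∈ x) ∧ ∀ x ∈ v b, p ∈ x) ∧
    ∀ x ∈ v b, ∀ p ∈ x, (∀ y ∈ v b, p ∈ y) → p ∈ v a) ?_ fun v => ?_
  · repeat' first
      | exact Dfn.mem _ _
      | refine Dfn.and ?_ ?_ | refine Dfn.ball ht _ ?_ | refine Dfn.bex ht _ ?_
      | refine Dfn.imp ?_ ?_
  · have key : ∀ p, p ∈ ZFSet.sInter (v b) ↔ (∃ x ∈ v b, p ∈ x) ∧ ∀ x ∈ v b, p ∈ x := by
      intro p
      unfold ZFSet.sInter
      rw [mem_sep, mem_sUnion]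
    constructor
    · rintro ⟨h1, h2⟩
      ext p
      rw [key]
      exact ⟨h1 p, fun ⟨⟨x, hx, hp⟩, hall⟩ => h2 x hx p hp hall⟩
    · intro h
      rw [h]
      exact ⟨fun p hp => (key p).1 hp, fun x hx p hp hall => (key p).2 ⟨⟨x, hx, hp⟩, hall⟩⟩

theorem closed_lvl {U : ZFSet.{u}} (hl : U ∈ Lvl) : ClosedBasic U := by
  have ht : U.IsTransitive := Lvl_sub_Trs hl
  constructor
  · intro x hx y hy
    exact ht.mem_trans (by simp [pair]) (Lvl_pair hl hx hy)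
  · intro x hx y hy
    exact Lvl_prod hl hx hy
  · intro x hx y hy
    exact Lvl_sub hl hx (fun z hz => (mem_inter.1 hz).1)
  · intro x hx
    obtain ⟨δ, _, _, rfl⟩ := hl
    rw [mem_vonNeumann] at *
    refine lt_of_le_of_lt ?_ hx
    refine le_trans (rank_mono ?_) (rank_sUnion_le x)
    unfold ZFSet.sInter
    exact sep_subset

theorem closed_image {B N : ZFSet.{u}} {j : ZFSet.{u} → ZFSet.{u}} (E : Emb B N j)
    {a : ZFSet.{u}} (ha : a ∈ B) (h : ClosedBasic a) : ClosedBasic (j a) := by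
  constructor
  · have := (E.el.t1 E.bt E.nt (A := fun a => ∀ x ∈ a, ∀ y ∈ a, ∃ z ∈ a, z = ({x, y} : ZFSet.{u}))
      (by repeat' first
            | exact dfn_up subset_rfl _ _ _ | refine Dfn.ball subset_rfl _ ?_
            | refine Dfn.bex subset_rfl _ ?_) ha).1
      (fun x hx y hy => ⟨_, h.upair x hx y hy, rfl⟩)
    intro x hx y hy
    obtain ⟨z, hz, rfl⟩ := this x hx y hy
    exact hz
  · have := (E.el.t1 E.bt E.nt (A := fun a => ∀ x ∈ a, ∀ y ∈ a, ∃ z ∈ a, z = ZFSet.prod x y)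
      (by repeat' first
            | exact dfn_prodrel subset_rfl _ _ _ | refine Dfn.ball subset_rfl _ ?_
            | refine Dfn.bex subset_rfl _ ?_) ha).1
      (fun x hx y hy => ⟨_, h.prod x hx y hy, rfl⟩)
    intro x hx y hy
    obtain ⟨z, hz, rfl⟩ := this x hx y hy
    exact hz
  · have := (E.el.t1 E.bt E.nt (A := fun a => ∀ x ∈ a, ∀ y ∈ a, ∃ z ∈ a, z = x ∩ y)
      (by repeat' first
            | exact dfn_interrel subset_rfl _ _ _ | refine Dfn.ball subset_rfl _ ?_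
            | refine Dfn.bex subset_rfl _ ?_) ha).1
      (fun x hx y hy => ⟨_, h.inter x hx y hy, rfl⟩)
    intro x hx y hy
    obtain ⟨z, hz, rfl⟩ := this x hx y hy
    exact hz
  · have := (E.el.t1 E.bt E.nt (A := fun a => ∀ x ∈ a, ∃ z ∈ a, z = ZFSet.sInter x)
      (by repeat' first
            | exact dfn_sInterrel subset_rfl _ _ | refine Dfn.ball subset_rfl _ ?_
            | refine Dfn.bex subset_rfl _ ?_) ha).1
      (fun x hx => ⟨_, h.sInter x hx, rfl⟩)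
    intro x hx
    obtain ⟨z, hz, rfl⟩ := this x hx
    exact hz

theorem limOrd_iff {x : ZFSet.{u}} : LimOrd x ↔
    x.IsOrdinal ∧ (∃ y ∈ x, y = y) ∧ ∀ y ∈ x, ∃ z ∈ x, y ∈ z := by
  constructor
  · rintro ⟨h1, h2, h3⟩
    refine ⟨h1, ?_, fun y hy => ⟨insert y y, h3 y hy, by simp⟩⟩
    obtain ⟨y, hy⟩ := (ZFSet.eq_empty_or_nonempty x).resolve_left h2
    exact ⟨y, hy, rfl⟩
  · rintro ⟨h1, ⟨y0, hy0, _⟩, h3⟩
    refine ⟨h1, ?_, fun y hy => ?_⟩
    · rintro rfl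
      exact notMem_empty _ hy0
    · obtain ⟨z, hz, hyz⟩ := h3 y hy
      have hy' := h1.mem hy
      have hz' := h1.mem hz
      refine (isOrdinal_succ hy').mem_of_subset_of_mem h1 ?_ hz
      intro w hw
      rcases mem_insert_iff.1 hw with rfl | hw
      · exact hyz
      · exact hz'.mem_trans hw hyz

theorem limOrd_image {B N : ZFSet.{u}} {j : ZFSet.{u} → ZFSet.{u}} (E : Emb B N j)
    {a : ZFSet.{u}} (ha : a ∈ B) (h : LimOrd a) : LimOrd (j a) := by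
  rw [limOrd_iff] at *
  exact (E.el.t1 E.bt E.nt (A := fun x => x.IsOrdinal ∧ (∃ y ∈ x, y = y) ∧
      ∀ y ∈ x, ∃ z ∈ x, y ∈ z)
      (by repeat' first
            | exact dfn_ord subset_rfl _ | exact Dfn.mem _ _ | exact Dfn.eq _ _
            | refine Dfn.and ?_ ?_ | refine Dfn.ball subset_rfl _ ?_
            | refine Dfn.bex subset_rfl _ ?_) ha).1 h

theorem limOrd_toZFSet {γ : Ordinal.{u}} (h : LimOrd γ.toZFSet) : Order.IsSuccLimit γ := by
  rw [Order.isSuccLimit_iff, Order.isSuccPrelimit_iff_succ_lt]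
  refine ⟨?_, fun δ hδ => ?_⟩
  · intro hm
    rw [isMin_iff_eq_bot] at hm
    refine h.2.1 ?_
    rw [hm]
    simp
  · have := h.2.2 δ.toZFSet (Ordinal.toZFSet_mem_toZFSet_iff.2 hδ)
    rw [← Ordinal.toZFSet_add_one, Ordinal.toZFSet_mem_toZFSet_iff] at this
    exact this

theorem large_of_pr {α κ : Ordinal.{u}} (hU : Inac (V_ α)) (hk : Inac (V_ κ)) (hκ : κ < α)
    (hP : Pr (V_ κ) (V_ α)) : PsiGssLargeIn (V_ α) κ.toZFSet := by
  intro η hη θ hθ hηl hθl hκη hηθ b hb hbo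
  have hul := hU.lvl
  have hαlim : Order.IsSuccLimit α := by
    obtain ⟨α', h1, _, h2⟩ := hul
    rw [vonNeumann_inj] at h2
    exact h2 ▸ h1
  -- ordinals
  have eη := hηl.1.toZFSet_rank_eq
  have eθ := hθl.1.toZFSet_rank_eq
  set ηo := rank η with hηo
  set θo := rank θ with hθo
  have hηα : ηo < α := mem_vonNeumann.1 hη
  have hθα : θo < α := mem_vonNeumann.1 hθ
  have hκη' : κ < ηo := by
    have := rank_lt_of_mem hκη; rwa [Ordinal.rank_toZFSet] at this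
  have hηθ' : ηo < θo := rank_lt_of_mem hηθ
  obtain ⟨l, hlα, hml, hllim, hlcard⟩ := exists_card hU
    (γ := max ηo (rank b)) (max_lt hηα (mem_vonNeumann.1 hb))
  have hlU : l.toZFSet ∈ V_ α := by
    rw [mem_vonNeumann, Ordinal.rank_toZFSet]; exact hlα
  -- a limit level containing everything
  obtain ⟨δ, hδ, hγδ, hδlim, _⟩ := hU.clos (fun _ _ => True) (fun γ hγ => ⟨γ, hγ, trivial⟩)
    (γ0 := max (Order.succ θo) Ordinal.omega0)
    (max_lt (hαlim.succ_lt hθα) (by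
      obtain ⟨α', _, h1, h2⟩ := hul
      rw [vonNeumann_inj] at h2
      exact h2 ▸ h1))
  have hθδ : Order.succ θo < δ := (le_max_left _ _).trans_lt hγδ
  have hθδ' : θo < δ := (Order.lt_succ θo).trans hθδ
  have htl : V_ δ ∈ Lvl := ⟨δ, hδlim, (le_max_right _ _).trans_lt hγδ, rfl⟩
  have hkt : V_ κ ∈ V_ δ := vonNeumann_mem_vonNeumann_iff.2 ((hκη'.trans hηθ').trans hθδ')
  obtain ⟨M0, hM0, hM0t, e0, he0, hE0, w, hw, hkw, ⟨ξ, rfl⟩, hbw⟩ :=
    hP (V_ δ) (vonNeumann_mem_vonNeumann_iff.2 hδ) ⟨δ, rfl⟩ hkt l.toZFSet hlU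
  have E : Emb (V_ δ) M0 (app e0) := ⟨hE0.2, htl, hM0t⟩
  have mδ : ∀ γ < δ, γ.toZFSet ∈ V_ δ := fun γ hγ => by
    rw [mem_vonNeumann, Ordinal.rank_toZFSet]; exact hγ
  have hκδ : κ < δ := (hκη'.trans hηθ').trans hθδ'
  have hηδ : ηo < δ := hηθ'.trans hθδ'
  have hκt : κ.toZFSet ∈ V_ δ := mδ κ hκδ
  have hηt : η ∈ V_ δ := by rw [← eη]; exact mδ _ hηδ
  have hθt : θ ∈ V_ δ := by rw [← eθ]; exact mδ _ hθδ'
  have ekw : app e0 (V_ κ) = V_ ξ := (app_iff hE0.1 hkt).1 hkw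
  -- the image of `κ` is `ξ`
  have eκ : app e0 κ.toZFSet = ξ.toZFSet := by
    have h1 := (E.jV hkt)
    have h3 := h1.1
    have h4 := (E.el.t2 E.bt E.nt (A := fun k κ => κ ⊆ k ∧ ∀ x ∈ k, x.IsOrdinal → x ∈ κ)
      (by repeat' first
            | exact dfn_ord subset_rfl _ | exact Dfn.mem _ _ | exact dfn_sub subset_rfl _ _
            | refine Dfn.and ?_ ?_ | refine Dfn.ball subset_rfl _ ?_
            | refine Dfn.imp ?_ ?_) hkt hκt).1 ⟨κ.toZFSet_subset_vonNeumann, by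
        intro x hx hxo
        rw [← hxo.toZFSet_rank_eq, Ordinal.toZFSet_mem_toZFSet_iff]
        exact mem_vonNeumann.1 hx⟩
    rw [ekw] at h4
    ext x
    constructor
    · intro hx
      have hxo := h3.mem hx
      have := mem_vonNeumann.1 (h4.1 hx)
      rw [← hxo.toZFSet_rank_eq, Ordinal.toZFSet_mem_toZFSet_iff]
      exact this
    · intro hx
      exact h4.2 x (ξ.toZFSet_subset_vonNeumann hx) ((isOrdinal_toZFSet ξ).mem hx)
  -- the images of `θ` and `η`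
  have hθ' : LimOrd (app e0 θ) := limOrd_image E hθt hθl
  have hη' : LimOrd (app e0 η) := limOrd_image E hηt hηl
  have hκ' : LimOrd (app e0 κ.toZFSet) := by
    refine limOrd_image E hκt ?_
    obtain ⟨κ', h1, h2, h3⟩ := hk.lvl
    rw [vonNeumann_inj] at h3
    subst h3
    refine limOrd_iff.2 ⟨isOrdinal_toZFSet _, ⟨(0 : Ordinal.{u}).toZFSet, ?_, rfl⟩, ?_⟩
    · rw [Ordinal.toZFSet_mem_toZFSet_iff]
      exact lt_of_le_of_lt zero_le h2
    · intro y hy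
      obtain ⟨a, ha, rfl⟩ := Ordinal.mem_toZFSet_iff.1 hy
      exact ⟨(Order.succ a).toZFSet, Ordinal.toZFSet_mem_toZFSet_iff.2 (h1.succ_lt ha),
        Ordinal.toZFSet_mem_toZFSet_iff.2 (Order.lt_succ a)⟩
  have hVθ : V_ θo ∈ V_ δ := vonNeumann_mem_vonNeumann_iff.2 hθδ'
  have hVθ1 : V_ (Order.succ θo) ∈ V_ δ := vonNeumann_mem_vonNeumann_iff.2 hθδ
  have jθ := (E.jV hVθ).2
  rw [eθ] at jθ
  set θ' := app e0 θ with hθ'def
  -- M
  set M := app e0 (V_ (Order.succ θo)) with hMdef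
  have hMM0 : M ∈ M0 := E.el.1 _ hVθ1
  have hMt : M.IsTransitive := (E.trans_iff hVθ1).1 (isTransitive_vonNeumann _)
  have hMU : M ∈ V_ α := (isTransitive_vonNeumann α).mem_trans hMM0 hM0
  have hIs : IsEl (V_ (Order.succ θo)) M (app e0) := E.restr hVθ1
  have hjθM : app e0 (V_ θo) = M ∩ V_ (rank θ') := by
    ext x
    rw [jθ, mem_inter]
    constructor
    · rintro ⟨h1, h2⟩
      refine ⟨?_, h1⟩
      have h3 : app e0 (V_ θo) ∈ M :=
        (E.mem_iff hVθ hVθ1).1 (vonNeumann_mem_vonNeumann_iff.2 (Order.lt_succ θo))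
      exact hMt.mem_trans ((jθ x).2 ⟨h1, h2⟩) h3
    · rintro ⟨h1, h2⟩
      exact ⟨h2, hM0t.mem_trans h1 hMM0⟩
  have hθlim : Order.IsSuccLimit θo := limOrd_toZFSet (by rw [eθ]; exact hθl)
  have hωκ : Ordinal.omega0 < κ := by
    obtain ⟨κ', h1, h2, h3⟩ := hk.lvl
    rw [vonNeumann_inj] at h3
    exact h3 ▸ h2
  have hVθl : V_ θo ∈ Lvl := ⟨θo, hθlim, hωκ.trans (hκη'.trans hηθ'), rfl⟩
  have eθ' := hθ'.1.toZFSet_rank_eq
  have hθ'lim : Order.IsSuccLimit (rank θ') := limOrd_toZFSet (by rw [eθ']; exact hθ')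
  have mκη : app e0 κ.toZFSet ∈ app e0 η := (E.mem_iff hκt hηt).1 hκη
  have mηθ : app e0 η ∈ θ' := (E.mem_iff hηt hθt).1 hηθ
  have hlξ : l < ξ := by
    have := mem_vonNeumann.1 hbw; rwa [Ordinal.rank_toZFSet] at this
  have mlκ : l.toZFSet ∈ app e0 κ.toZFSet := by
    rw [eκ]; exact Ordinal.toZFSet_mem_toZFSet_iff.2 hlξ
  have hξη : ξ < rank (app e0 η) := by
    have := rank_lt_of_mem mκη; rwa [eκ, Ordinal.rank_toZFSet] at this
  have hηθr : rank (app e0 η) < rank θ' := rank_lt_of_mem mηθ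
  have hθ'N : V_ (rank θ') ∈ Lvl := by
    refine ⟨_, hθ'lim, ?_, rfl⟩
    refine lt_trans ?_ (hlξ.trans (hξη.trans hηθr))
    exact lt_of_lt_of_le hωκ (hκη'.le.trans ((le_max_left _ _).trans hml.le))
  have hθ'M0 : θ' ∈ M0 := E.el.1 _ hθt
  -- ordinals of the two sets
  have ordN : ∀ x : ZFSet.{u}, x.IsOrdinal → (x ∈ V_ (rank θ') ↔ x ∈ θ') := by
    intro x hx
    rw [mem_vonNeumann, hx.rank_lt_iff_mem hθ'.1]
  have ordM : ∀ x : ZFSet.{u}, x.IsOrdinal → (x ∈ M ∩ V_ (rank θ') ↔ x ∈ θ') := by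
    intro x hx
    rw [← hjθM, jθ, ordN x hx]
    exact ⟨fun h => h.1, fun h => ⟨h, hM0t.mem_trans h hθ'M0⟩⟩
  have hll : LimOrd l.toZFSet := hllim
  have memM : ∀ x, x.IsOrdinal → x ∈ θ' → x ∈ M ∩ V_ (rank θ') := fun x hx h => (ordM x hx).2 h
  have hκθ : app e0 κ.toZFSet ∈ θ' := hθ'.1.mem_trans mκη mηθ
  have hlθ : l.toZFSet ∈ θ' := hθ'.1.mem_trans mlκ hκθ
  have hθsucc : θo + 1 = Order.succ θo := rfl
  refine ⟨l.toZFSet, hlU, hlcard _, ?_, ?_, M, hMU, hMt, gr (V_ (Order.succ θo)) (app e0), ?_,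
    ?_, app e0 κ.toZFSet, θ', app e0 η, ?_, ?_, ?_, mlκ, ?_, ?_⟩
  · rw [← eη, Ordinal.toZFSet_subset_toZFSet_iff]
    exact (le_max_left _ _).trans hml.le
  · rw [← hbo.toZFSet_rank_eq, Ordinal.toZFSet_mem_toZFSet_iff]
    exact (le_max_right _ _).trans_lt hml
  · exact Lvl_func hul (vonNeumann_mem_vonNeumann_iff.2 (hθδ.trans hδ)) hMU (isFunc_gr hIs.1)
  · exact elS_gr hIs
  · refine pair_mem_gr.2 ⟨?_, rfl⟩
    rw [mem_vonNeumann, Ordinal.rank_toZFSet]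
    exact (hκη'.trans hηθ').trans (Order.lt_succ θo)
  · refine pair_mem_gr.2 ⟨?_, rfl⟩
    rw [mem_vonNeumann]
    exact Order.lt_succ θo
  · refine pair_mem_gr.2 ⟨?_, rfl⟩
    rw [mem_vonNeumann]
    exact hηθ'.trans (Order.lt_succ θo)
  · exact
      { sub := fun x hx => (mem_inter.1 hx).2
        transM := hMt.inter (isTransitive_vonNeumann _)
        transN := isTransitive_vonNeumann _
        closedM := by
          rw [← hjθM]
          exact closed_image E hVθ (closed_lvl hVθl)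
        closedN := closed_lvl hθ'N
        ords := ⟨θ', hθ', fun x hx => ⟨ordM x hx, ordN x hx⟩⟩
        limμ := hll
        limν := hκ'
        limρ := hη'
        memM := ⟨memM _ hll.1 hlθ, memM _ hκ'.1 hκθ, memM _ hη'.1 mηθ⟩
        lt := ⟨mlκ, mκη⟩
        card := hlcard _ }
  · intro x hx
    obtain ⟨h1, h2⟩ := mem_inter.1 hx
    rw [eκ, Ordinal.rank_toZFSet] at h2
    rw [← hjθM, jθ]
    exact ⟨h1, hM0t.mem_trans h2 hw⟩

/-! ### The negative part -/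

theorem not_gss {α μ κ τ : Ordinal.{u}} (hU : Inac (V_ α)) (hμκ : μ ≤ κ) (hκτ : κ < τ)
    (hτα : τ < α) (hR : Rr (V_ τ)) (hmin : ∀ y ∈ V_ α, V_ τ ∈ y → ¬ Rr y) :
    ¬ GloballySuperstrongIn (V_ α) μ.toZFSet := by
  intro h
  obtain ⟨M, hMU, hMt, i, hi, hfix, hne, hlt, hV⟩ := h τ.toZFSet
    (by rw [mem_vonNeumann, Ordinal.rank_toZFSet]; exact hτα) (isOrdinal_toZFSet τ)
    (Ordinal.toZFSet_mem_toZFSet_iff.2 (hμκ.trans_lt hκτ))
  have E : Emb (V_ α) M i := ⟨hi, hU.lvl, hMt⟩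
  have hμα : μ < α := (hμκ.trans_lt hκτ).trans hτα
  have hμU : μ.toZFSet ∈ V_ α := by
    rw [mem_vonNeumann, Ordinal.rank_toZFSet]; exact hμα
  have hio : (i μ.toZFSet).IsOrdinal := E.ord hμU (isOrdinal_toZFSet μ)
  have hiα : rank (i μ.toZFSet) < α := mem_vonNeumann.1 (hMU (E.el.1 _ hμU))
  have C : Crit (V_ α) M i μ (rank (i μ.toZFSet)) :=
    { E := E
      mB := vonNeumann_mem_vonNeumann_iff.2 hμα
      fixo := fun a ha => hfix _ (Ordinal.toZFSet_mem_toZFSet_iff.2 ha)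
      jm := hio.toZFSet_rank_eq.symm
      ne := by
        intro he
        apply hne
        rw [← hio.toZFSet_rank_eq, ← he]
      vn := fun x hx => hV x (vonNeumann_subset_of_le hiα.le hx) hx }
  refine no_target C (hμκ.trans hκτ.le) ?_ (vonNeumann_subset_of_le hiα.le) hR hmin
  have := rank_lt_of_mem hlt
  rwa [Ordinal.rank_toZFSet] at this

/-! ### The hypothesis -/

theorem two_of {β : Ordinal.{u}} {N : ZFSet.{u}} {j : ZFSet.{u} → ZFSet.{u}} {μ : Ordinal.{u}}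
    (H : TwoSuperstrong β N j μ) : ∃ τ σ, Two (V_ β) N j μ τ σ := by
  have E : Emb (V_ β) N j := ⟨H.el, ⟨β, H.lim, H.om, rfl⟩, H.trans⟩
  have hμB : μ.toZFSet ∈ V_ β := by
    rw [mem_vonNeumann, Ordinal.rank_toZFSet]; exact H.memμ
  have ho1 : (j μ.toZFSet).IsOrdinal := E.ord hμB (isOrdinal_toZFSet μ)
  set τ := rank (j μ.toZFSet) with hτ
  have e1 : j μ.toZFSet = τ.toZFSet := ho1.toZFSet_rank_eq.symm
  have hτB : τ.toZFSet ∈ V_ β := by
    rw [mem_vonNeumann, Ordinal.rank_toZFSet]; exact H.mem1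
  have ho2 : (j τ.toZFSet).IsOrdinal := E.ord hτB (isOrdinal_toZFSet τ)
  set σ := rank (j τ.toZFSet) with hσ
  have e2 : j τ.toZFSet = σ.toZFSet := ho2.toZFSet_rank_eq.symm
  have hσβ : σ ≤ β := by have := H.mem2; rwa [e1] at this
  have hσN : V_ σ ⊆ N := by have := H.strong; rwa [e1] at this
  have hne : μ ≠ τ := by
    intro he
    apply H.moved
    rw [e1, ← he]
  have hle : μ ≤ τ := by
    rw [← Ordinal.toZFSet_subset_toZFSet_iff, ← e1]
    intro x hx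
    obtain ⟨a, ha, rfl⟩ := Ordinal.mem_toZFSet_iff.1 hx
    rw [← H.crit a ha]
    exact (E.mem_iff (E.bt.mem_trans hx hμB) hμB).1 hx
  have hlt : μ < τ := lt_of_le_of_ne hle hne
  have hlt2 : τ < σ := by
    have := (E.mem_iff hμB hτB).1 (Ordinal.toZFSet_mem_toZFSet_iff.2 hlt)
    rwa [e1, e2, Ordinal.toZFSet_mem_toZFSet_iff] at this
  have C : Crit (V_ β) N j μ τ :=
    { E := E
      mB := vonNeumann_mem_vonNeumann_iff.2 H.memμ
      fixo := H.crit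
      jm := e1
      ne := hne
      vn := fun x hx => hσN (vonNeumann_subset_of_le hlt2.le hx) }
  have hτV : V_ τ ∈ V_ β := vonNeumann_mem_vonNeumann_iff.2 H.mem1
  have js : j (V_ τ) = V_ σ := by
    have h := (E.jV hτV).2
    ext x
    rw [h, ← hσ]
    exact ⟨fun h => h.1, fun h => ⟨h, hσN h⟩⟩
  refine ⟨τ, σ, C, hτV, js, ?_, vonNeumann_subset_of_le hσβ⟩
  refine lvl_of_unb ((C.om_lt.trans hlt).trans hlt2) ?_
  have h1 : ∀ x ∈ V_ τ, ∃ y ∈ V_ τ, x ∈ y := by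
    intro x hx
    obtain ⟨τ', h1, _, h2⟩ := C.tlvl
    rw [vonNeumann_inj] at h2
    subst h2
    exact ⟨V_ (Order.succ (rank x)),
      vonNeumann_mem_vonNeumann_iff.2 (h1.succ_lt (mem_vonNeumann.1 hx)), mem_vonNeumann_succ x⟩
  have h2 := (E.el.t1 E.bt E.nt (A := fun a => ∀ x ∈ a, ∃ y ∈ a, x ∈ y)
    (by repeat' first
          | exact Dfn.mem _ _
          | refine Dfn.ball subset_rfl _ ?_ | refine Dfn.bex subset_rfl _ ?_) hτV).1 h1
  rwa [js] at h2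

/-- The final theorem. -/
theorem final (h : ∃ (β : Ordinal.{u}) (N : ZFSet.{u}) (j : ZFSet.{u} → ZFSet.{u})
    (μ : Ordinal.{u}), TwoSuperstrong β N j μ) :
    ∃ α : Ordinal.{u}, ModelsZFC (V_ α) ∧ ∃ κ ∈ V_ α, CardIn (V_ α) κ ∧
      PsiGssLargeIn (V_ α) κ ∧
      ∀ μ, μ.IsOrdinal → μ ⊆ κ → ¬ GloballySuperstrongIn (V_ α) μ := by
  obtain ⟨β, N, j, μ, H⟩ := h
  obtain ⟨τ, σ, T⟩ := two_of H
  obtain ⟨k, hk, U, hτU, hUi, hki, hP, hmin⟩ := T.main
  obtain ⟨α, rfl⟩ := hUi.1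
  obtain ⟨κ, rfl⟩ := hki.1
  have hκτ : κ < τ := vonNeumann_mem_vonNeumann_iff.1 hk
  have hτα : τ < α := vonNeumann_mem_vonNeumann_iff.1 hτU
  refine ⟨α, modelsZFC hUi, κ.toZFSet, ?_, cardIn_of_inac hki _,
    large_of_pr hUi hki (hκτ.trans hτα) hP, ?_⟩
  · rw [mem_vonNeumann, Ordinal.rank_toZFSet]; exact hκτ.trans hτα
  · intro ν hν hνκ
    rw [← hν.toZFSet_rank_eq] at hνκ ⊢
    rw [Ordinal.toZFSet_subset_toZFSet_iff] at hνκ
    exact not_gss hUi hνκ hκτ hτα T.rr_tau hmin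

end Gss969
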