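import Pool.Agent.Gss969.LevelEmb

/-!
Transitive collapse of the hull of a level `w` inside `j t`.
-/

namespace Gss969

open ZFSet

universe u

set_option linter.unusedVariables false

/-- Mostowski collapse relative to a set `H`. -/
noncomputable def coll (H x : ZFSet.{u}) : ZFSet.{u} :=
  ZFSet.range (fun y : {y // y ∈ x ∩ H} => coll H y.1)
termination_by x
decreasing_by exact (mem_inter.1 y.2).1

theorem mem_coll {H x z : ZFSet.{u}} : z ∈ coll H x ↔ ∃ y, y ∈ x ∧ y ∈ H ∧ coll H y = z := by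
  rw [coll, ZFSet.mem_range]
  constructor
  · rintro ⟨⟨y, hy⟩, h⟩
    exact ⟨y, (mem_inter.1 hy).1, (mem_inter.1 hy).2, h⟩
  · rintro ⟨y, h1, h2, h3⟩
    exact ⟨⟨y, mem_inter.2 ⟨h1, h2⟩⟩, h3⟩

theorem coll_inj {H : ZFSet.{u}}
    (hext : ∀ x ∈ H, ∀ y ∈ H, (∀ z ∈ H, z ∈ x ↔ z ∈ y) → x = y) :
    ∀ x, x ∈ H → ∀ y ∈ H, coll H x = coll H y → x = y := by
  intro x
  induction x using ZFSet.inductionOn with
  | _ x ih =>
  intro hx y hy h
  refine hext x hx y hy fun z hz => ⟨fun hzx => ?_, fun hzy => ?_⟩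
  · have : coll H z ∈ coll H y := h ▸ mem_coll.2 ⟨z, hzx, hz, rfl⟩
    obtain ⟨z', h1, h2, h3⟩ := mem_coll.1 this
    rw [ih z hzx hz z' h2 h3.symm]
    exact h1
  · have : coll H z ∈ coll H x := h ▸ mem_coll.2 ⟨z, hzy, hz, rfl⟩
    obtain ⟨z', h1, h2, h3⟩ := mem_coll.1 this
    rw [← ih z' h1 h2 z hz h3]
    exact h1

theorem coll_mem {H : ZFSet.{u}}
    (hext : ∀ x ∈ H, ∀ y ∈ H, (∀ z ∈ H, z ∈ x ↔ z ∈ y) → x = y) {x y : ZFSet.{u}}
    (hx : x ∈ H) (hy : y ∈ H) : x ∈ y ↔ coll H x ∈ coll H y := by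
  constructor
  · intro h
    exact mem_coll.2 ⟨x, h, hx, rfl⟩
  · intro h
    obtain ⟨z, h1, h2, h3⟩ := mem_coll.1 h
    rw [coll_inj hext z h2 x hx h3] at h1
    exact h1

theorem coll_sat {H : ZFSet.{u}}
    (hext : ∀ x ∈ H, ∀ y ∈ H, (∀ z ∈ H, z ∈ x ↔ z ∈ y) → x = y) (φ : Fml) :
    ∀ v : ℕ → ZFSet.{u}, (∀ i, v i ∈ H) →
      (Sat H v φ ↔ Sat (coll H H) (fun i => coll H (v i)) φ) := by
  induction φ with
  | mem i l => intro v hv; exact coll_mem hext (hv i) (hv l)
  | eq i l => intro v hv; exact ⟨fun h => congrArg _ h, coll_inj hext _ (hv i) _ (hv l)⟩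
  | neg φ ih => intro v hv; exact not_congr (ih v hv)
  | and φ ψ ih ih' => intro v hv; exact and_congr (ih v hv) (ih' v hv)
  | ex i φ ih =>
    intro v hv
    have key : ∀ a ∈ H, (Sat H (Function.update v i a) φ ↔
        Sat (coll H H) (Function.update (fun i => coll H (v i)) i (coll H a)) φ) := by
      intro a ha
      have hv' : ∀ l, Function.update v i a l ∈ H := by
        intro l
        by_cases hl : l = i
        · subst hl; simpa using ha
        · simpa [hl] using hv l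
      rw [ih _ hv']
      have : (fun l => coll H (Function.update v i a l)) =
          Function.update (fun i => coll H (v i)) i (coll H a) := by
        funext l
        by_cases hl : l = i
        · subst hl; simp
        · simp [hl]
      rw [this]
    simp only [Sat]
    constructor
    · rintro ⟨a, ha, h⟩
      exact ⟨coll H a, mem_coll.2 ⟨a, ha, ha, rfl⟩, (key a ha).1 h⟩
    · rintro ⟨b, hb, h⟩
      obtain ⟨a, ha, _, rfl⟩ := mem_coll.1 hb
      exact ⟨a, ha, (key a ha).2 h⟩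

theorem coll_id {H w : ZFSet.{u}} (hw : w.IsTransitive) (hs : w ⊆ H) :
    ∀ x, x ∈ w → coll H x = x := by
  intro x
  induction x using ZFSet.inductionOn with
  | _ x ih =>
  intro hx
  ext z
  rw [mem_coll]
  constructor
  · rintro ⟨y, h1, h2, h3⟩
    rw [ih y h1 (hw.mem_trans h1 hx)] at h3
    exact h3 ▸ h1
  · intro h
    exact ⟨z, h, hs (hw.mem_trans h hx), ih z h (hw.mem_trans h hx)⟩

/-- Replacement for arbitrary functions. -/
def Repl (U : ZFSet.{u}) : Prop :=
  ∀ a ∈ U, ∀ F : ZFSet.{u} → ZFSet.{u}, (∀ x ∈ a, F x ∈ U) → ∃ b ∈ U, ∀ y, y ∈ b ↔ ∃ x ∈ a, F x = y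

variable {B N : ZFSet.{u}} {j : ZFSet.{u} → ZFSet.{u}}

/-- The hull. -/
noncomputable def hull (j : ZFSet.{u} → ZFSet.{u}) (k t w : ZFSet.{u}) : ZFSet.{u} :=
  ZFSet.sep (fun x => ∃ f, IsFunc k t f ∧ ∃ a ∈ w, x = app (j f) a) (j t)

/-- The data for the hull construction. -/
structure HullData (B N : ZFSet.{u}) (j : ZFSet.{u} → ZFSet.{u}) (k t w : ZFSet.{u}) : Prop where
  E : Emb B N j
  ht : t ∈ B
  tt : t.IsTransitive
  hk : k ∈ t
  k0 : ∅ ∈ k
  wk : w ⊆ j k
  wt : w.IsTransitive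
  w0 : ∅ ∈ w
  wp : ∀ a ∈ w, ∀ b ∈ w, pair a b ∈ w
  cl : ∀ f, IsFunc k k f → ∀ a ∈ w, app (j f) a ∈ w

namespace HullData

variable {k t w : ZFSet.{u}}

theorem kB (D : HullData B N j k t w) : k ∈ B := D.E.bt.mem_trans D.hk D.ht

theorem kt (D : HullData B N j k t w) : k ⊆ t := D.tt.subset_of_mem D.hk

theorem mem_hull (D : HullData B N j k t w) {x : ZFSet.{u}} :
    x ∈ hull j k t w ↔ ∃ f, IsFunc k t f ∧ ∃ a ∈ w, x = app (j f) a := by
  unfold hull
  rw [mem_sep]
  constructor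
  · exact fun h => h.2
  · rintro ⟨f, hf, a, ha, rfl⟩
    exact ⟨app_mem (D.E.func D.kB D.ht hf) (D.wk ha), f, hf, a, ha, rfl⟩

theorem hull_sub (D : HullData B N j k t w) : hull j k t w ⊆ j t := sep_subset

/-- Composition with the first projection. -/
theorem comp_fst (D : HullData B N j k t w) {f : ZFSet.{u}} (hf : IsFunc k t f) :
    ∃ f', IsFunc k t f' ∧ ∀ a ∈ w, ∀ b ∈ w, app (j f') (pair a b) = app (j f) a := by
  classical
  let g : ZFSet.{u} → ZFSet.{u} := fun p =>
    if h : ∃ b, b ∈ k ∧ ∃ c, p = pair b c then app f h.choose else app f p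
  have hg : ∀ p ∈ k, g p ∈ t := by
    intro p hp
    simp only [g]
    split_ifs with h
    · exact app_mem hf h.choose_spec.1
    · exact app_mem hf hp
  have hF := isFunc_gr (d := k) (t := t) hg
  have h1 : ∀ p ∈ k, ∀ b ∈ k, ∀ c ∈ k, p = pair b c → ∀ z ∈ t, pair b z ∈ f →
      pair p z ∈ gr k g := by
    intro p hp b hb c hc hpe z hz hbz
    refine pair_mem_gr.2 ⟨hp, ?_⟩
    have h : ∃ b, b ∈ k ∧ ∃ c, p = pair b c := ⟨b, hb, c, hpe⟩
    simp only [g]
    rw [dif_pos h]
    obtain ⟨c', hc'⟩ := h.choose_spec.2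
    have : h.choose = b := by
      have := hc'.symm.trans hpe
      exact (pair_inj.1 this).1
    rw [this]
    exact (app_iff hf hb).1 hbz
  have h2 := (D.E.el.t4 D.E.bt D.E.nt (A := fun k t f F => ∀ p ∈ k, ∀ b ∈ k, ∀ c ∈ k,
      p = pair b c → ∀ z ∈ t, pair b z ∈ f → pair p z ∈ F)
      (by repeat' first
            | exact dfn_pm subset_rfl _ _ _ | exact dfn_pair subset_rfl _ _ _
            | refine Dfn.imp ?_ ?_ | refine Dfn.ball subset_rfl _ ?_)
      D.kB D.ht (Lvl_func D.E.lvl D.kB D.ht hf) (Lvl_func D.E.lvl D.kB D.ht hF)).1 h1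
  refine ⟨_, hF, fun a ha b hb => ?_⟩
  have jf := D.E.func D.kB D.ht hf
  have jF := D.E.func D.kB D.ht hF
  have hp := D.wk (D.wp a ha b hb)
  rw [← app_iff jF hp]
  exact h2 _ hp a (D.wk ha) b (D.wk hb) rfl _ (app_mem jf (D.wk ha)) (app_spec jf (D.wk ha))

/-- Composition with the second projection. -/
theorem comp_snd (D : HullData B N j k t w) {f : ZFSet.{u}} (hf : IsFunc k t f) :
    ∃ f', IsFunc k t f' ∧ ∀ a ∈ w, ∀ b ∈ w, app (j f') (pair a b) = app (j f) b := by
  classical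
  let g : ZFSet.{u} → ZFSet.{u} := fun p =>
    if h : ∃ b, b ∈ k ∧ ∃ c, p = pair c b then app f h.choose else app f p
  have hg : ∀ p ∈ k, g p ∈ t := by
    intro p hp
    simp only [g]
    split_ifs with h
    · exact app_mem hf h.choose_spec.1
    · exact app_mem hf hp
  have hF := isFunc_gr (d := k) (t := t) hg
  have h1 : ∀ p ∈ k, ∀ b ∈ k, ∀ c ∈ k, p = pair c b → ∀ z ∈ t, pair b z ∈ f →
      pair p z ∈ gr k g := by
    intro p hp b hb c hc hpe z hz hbz
    refine pair_mem_gr.2 ⟨hp, ?_⟩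
    have h : ∃ b, b ∈ k ∧ ∃ c, p = pair c b := ⟨b, hb, c, hpe⟩
    simp only [g]
    rw [dif_pos h]
    obtain ⟨c', hc'⟩ := h.choose_spec.2
    have : h.choose = b := by
      have := hc'.symm.trans hpe
      exact (pair_inj.1 this).2
    rw [this]
    exact (app_iff hf hb).1 hbz
  have h2 := (D.E.el.t4 D.E.bt D.E.nt (A := fun k t f F => ∀ p ∈ k, ∀ b ∈ k, ∀ c ∈ k,
      p = pair c b → ∀ z ∈ t, pair b z ∈ f → pair p z ∈ F)
      (by repeat' first
            | exact dfn_pm subset_rfl _ _ _ | exact dfn_pair subset_rfl _ _ _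
            | refine Dfn.imp ?_ ?_ | refine Dfn.ball subset_rfl _ ?_)
      D.kB D.ht (Lvl_func D.E.lvl D.kB D.ht hf) (Lvl_func D.E.lvl D.kB D.ht hF)).1 h1
  refine ⟨_, hF, fun a ha b hb => ?_⟩
  have jf := D.E.func D.kB D.ht hf
  have jF := D.E.func D.kB D.ht hF
  have hp := D.wk (D.wp a ha b hb)
  rw [← app_iff jF hp]
  exact h2 _ hp b (D.wk hb) a (D.wk ha) rfl _ (app_mem jf (D.wk hb)) (app_spec jf (D.wk hb))

/-- The hull is an elementary substructure (for assignments of uniform shape). -/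
theorem tv (D : HullData B N j k t w) (φ : Fml) : ∀ (f : ℕ → ZFSet.{u}) (a : ZFSet.{u}), a ∈ w →
    (∀ n, IsFunc k t (f n)) → (Sat (hull j k t w) (fun n => app (j (f n)) a) φ ↔
      Sat (j t) (fun n => app (j (f n)) a) φ) := by
  induction φ with
  | mem i l => intro f a ha hf; exact Iff.rfl
  | eq i l => intro f a ha hf; exact Iff.rfl
  | neg φ ih => intro f a ha hf; exact not_congr (ih f a ha hf)
  | and φ ψ ih ih' => intro f a ha hf; exact and_congr (ih f a ha hf) (ih' f a ha hf)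
  | ex i φ ih =>
    intro f a ha hf
    classical
    constructor
    · rintro ⟨x, hx, h⟩
      refine ⟨x, D.hull_sub hx, ?_⟩
      obtain ⟨g, hg, a', ha', rfl⟩ := D.mem_hull.1 hx
      choose f1 hf1 hf1' using fun n => D.comp_fst (hf n)
      obtain ⟨g1, hg1, hg1'⟩ := D.comp_snd hg
      let f2 : ℕ → ZFSet.{u} := Function.update f1 i g1
      have hf2 : ∀ n, IsFunc k t (f2 n) := by
        intro n
        by_cases hn : n = i
        · subst hn; simpa [f2] using hg1
        · simpa [f2, hn] using hf1 n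
      have e : (fun n => app (j (f2 n)) (pair a a')) =
          Function.update (fun n => app (j (f n)) a) i (app (j g) a') := by
        funext n
        by_cases hn : n = i
        · subst hn; simpa [f2] using hg1' a ha a' ha'
        · simpa [f2, hn] using hf1' n a ha a' ha'
      have := ih f2 (pair a a') (D.wp a ha a' ha') hf2
      rw [e] at this
      exact this.1 h
    · intro h
      have h1 := (D.E.los (.ex i φ) k t f D.kB D.ht hf a (D.wk ha)).2 h
      let g : ZFSet.{u} → ZFSet.{u} := fun b =>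
        if h : ∃ y, y ∈ t ∧ Sat t (Function.update (fun n => app (f n) b) i y) φ then h.choose
        else app (f i) b
      have hg : ∀ b ∈ k, g b ∈ t := by
        intro b hb
        simp only [g]
        split_ifs with h
        · exact h.choose_spec.1
        · exact app_mem (hf i) hb
      have hG := isFunc_gr (d := k) (t := t) hg
      let f2 : ℕ → ZFSet.{u} := Function.update f i (gr k g)
      have hf2 : ∀ n, IsFunc k t (f2 n) := by
        intro n
        by_cases hn : n = i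
        · subst hn; simpa [f2] using hG
        · simpa [f2, hn] using hf n
      have e2 : ∀ b ∈ k, (fun n => app (f2 n) b) =
          Function.update (fun n => app (f n) b) i (g b) := by
        intro b hb
        funext n
        by_cases hn : n = i
        · subst hn; simp [f2, app_gr hb]
        · simp [f2, hn]
      have e : ZFSet.sep (fun b => Sat t (fun n => app (f n) b) (.ex i φ)) k =
          ZFSet.sep (fun b => Sat t (fun n => app (f2 n) b) φ) k := by
        ext b
        simp only [mem_sep]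
        refine and_congr_right fun hb => ?_
        rw [e2 b hb]
        simp only [Sat]
        constructor
        · rintro ⟨y, hy, h⟩
          have hh : ∃ y, y ∈ t ∧ Sat t (Function.update (fun n => app (f n) b) i y) φ :=
            ⟨y, hy, h⟩
          have : g b = hh.choose := by simp only [g]; rw [dif_pos hh]
          rw [this]
          exact hh.choose_spec.2
        · intro h
          exact ⟨g b, hg b hb, h⟩
      rw [e, D.E.los φ k t f2 D.kB D.ht hf2 a (D.wk ha), ← ih f2 a ha hf2] at h1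
      refine ⟨app (j (gr k g)) a, D.mem_hull.2 ⟨_, hG, a, ha, rfl⟩, ?_⟩
      have e3 : (fun n => app (j (f2 n)) a) =
          Function.update (fun n => app (j (f n)) a) i (app (j (gr k g)) a) := by
        funext n
        by_cases hn : n = i
        · subst hn; simp [f2]
        · simp [f2, hn]
      rwa [e3] at h1

theorem w_hull (D : HullData B N j k t w) : w ⊆ hull j k t w := by
  intro a ha
  have hF := isFunc_gr (d := k) (t := t) (g := fun x => x) (fun x hx => D.kt hx)
  have h2 := (D.E.el.t2 D.E.bt D.E.nt (A := fun k F => ∀ p ∈ k, pair p p ∈ F)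
      (by repeat' first
            | exact dfn_pm subset_rfl _ _ _ | refine Dfn.ball subset_rfl _ ?_)
      D.kB (Lvl_func D.E.lvl D.kB D.ht hF)).1 (fun p hp => pair_mem_gr.2 ⟨hp, rfl⟩)
  refine D.mem_hull.2 ⟨_, hF, a, ha, ?_⟩
  exact ((app_iff (D.E.func D.kB D.ht hF) (D.wk ha)).1 (h2 a (D.wk ha))).symm

theorem const_fn (D : HullData B N j k t w) {x : ZFSet.{u}} (hx : x ∈ t) :
    IsFunc k t (gr k (fun _ => x)) ∧ ∀ a ∈ w, app (j (gr k (fun _ => x))) a = j x := by
  have hF := isFunc_gr (d := k) (t := t) (g := fun _ => x) (fun _ _ => hx)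
  have h2 := (D.E.el.t3 D.E.bt D.E.nt (A := fun k F x => ∀ p ∈ k, pair p x ∈ F)
      (by repeat' first
            | exact dfn_pm subset_rfl _ _ _ | refine Dfn.ball subset_rfl _ ?_)
      D.kB (Lvl_func D.E.lvl D.kB D.ht hF) (D.E.bt.mem_trans hx D.ht)).1
      (fun p hp => pair_mem_gr.2 ⟨hp, rfl⟩)
  exact ⟨hF, fun a ha => (app_iff (D.E.func D.kB D.ht hF) (D.wk ha)).1 (h2 a (D.wk ha))⟩

theorem j_hull (D : HullData B N j k t w) {x : ZFSet.{u}} (hx : x ∈ t) : j x ∈ hull j k t w :=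
  D.mem_hull.2 ⟨_, (D.const_fn hx).1, ∅, D.w0, ((D.const_fn hx).2 ∅ D.w0).symm⟩

theorem hull_inter (D : HullData B N j k t w) {x : ZFSet.{u}} :
    (x ∈ j k ∧ x ∈ hull j k t w) ↔ x ∈ w := by
  classical
  constructor
  · rintro ⟨h1, h2⟩
    obtain ⟨f, hf, a, ha, rfl⟩ := D.mem_hull.1 h2
    let g : ZFSet.{u} → ZFSet.{u} := fun b => if app f b ∈ k then app f b else ∅
    have hg : ∀ b ∈ k, g b ∈ k := by
      intro b hb
      simp only [g]
      split_ifs with h
      · exact h
      · exact D.k0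
    have hG := isFunc_gr (d := k) (t := k) hg
    have h3 : ∀ b ∈ k, ∀ z ∈ k, pair b z ∈ f → pair b z ∈ gr k g := by
      intro b hb z hz hbz
      refine pair_mem_gr.2 ⟨hb, ?_⟩
      have := (app_iff hf hb).1 hbz
      simp only [g]
      rw [this, if_pos hz]
    have h4 := (D.E.el.t3 D.E.bt D.E.nt (A := fun k f F => ∀ b ∈ k, ∀ z ∈ k, pair b z ∈ f →
        pair b z ∈ F)
      (by repeat' first
            | exact dfn_pm subset_rfl _ _ _ | refine Dfn.imp ?_ ?_
            | refine Dfn.ball subset_rfl _ ?_)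
      D.kB (Lvl_func D.E.lvl D.kB D.ht hf) (Lvl_func D.E.lvl D.kB D.kB hG)).1 h3
    have h5 := h4 a (D.wk ha) _ h1 (app_spec (D.E.func D.kB D.ht hf) (D.wk ha))
    have h6 := (app_iff (D.E.func D.kB D.kB hG) (D.wk ha)).1 h5
    rw [← h6]
    exact D.cl _ hG a ha
  · intro h
    exact ⟨D.wk h, D.w_hull h⟩

theorem hull_ext (D : HullData B N j k t w) : ∀ x ∈ hull j k t w, ∀ y ∈ hull j k t w,
    (∀ z ∈ hull j k t w, z ∈ x ↔ z ∈ y) → x = y := by
  intro x hx y hy h
  obtain ⟨f, hf, a, ha, rfl⟩ := D.mem_hull.1 hx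
  obtain ⟨g, hg, b, hb, rfl⟩ := D.mem_hull.1 hy
  obtain ⟨f', hf', hf1⟩ := D.comp_fst hf
  obtain ⟨g', hg', hg1⟩ := D.comp_snd hg
  let F : ℕ → ZFSet.{u} := fun n => Nat.casesOn n f' (fun _ => g')
  have hF : ∀ n, IsFunc k t (F n) := by
    intro n
    cases n with
    | zero => exact hf'
    | succ n => exact hg'
  let ψ : Fml := .neg (.ex 2 (.neg (.and (.neg (.and (.mem 2 0) (.neg (.mem 2 1))))
    (.neg (.and (.mem 2 1) (.neg (.mem 2 0)))))))
  have e : ∀ (U : ZFSet.{u}) (v : ℕ → ZFSet.{u}),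
      Sat U v ψ ↔ ∀ z ∈ U, (z ∈ v 0 ↔ z ∈ v 1) := by
    intro U v
    simp only [ψ, Sat]
    push Not
    refine forall₂_congr fun z hz => ?_
    simp only [Function.update_self, ne_eq, OfNat.zero_ne_ofNat, not_false_eq_true,
      Function.update_of_ne, OfNat.one_ne_ofNat]
    tauto
  have h1 := D.tv ψ F (pair a b) (D.wp a ha b hb) hF
  rw [e, e] at h1
  have e0 : app (j (F 0)) (pair a b) = app (j f) a := hf1 a ha b hb
  have e1 : app (j (F 1)) (pair a b) = app (j g) b := hg1 a ha b hb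
  simp only [e0, e1] at h1
  have h2 := h1.1 h
  have jt : (j t).IsTransitive := (D.E.trans_iff D.ht).1 D.tt
  ext z
  constructor
  · intro hz
    exact (h2 z (jt.mem_trans hz (D.hull_sub hx))).1 hz
  · intro hz
    exact (h2 z (jt.mem_trans hz (D.hull_sub hy))).2 hz

/-- The collapsed embedding. -/
theorem main (D : HullData B N j k t w) :
    (coll (hull j k t w) (hull j k t w)).IsTransitive ∧
    IsEl t (coll (hull j k t w) (hull j k t w)) (fun x => coll (hull j k t w) (j x)) ∧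
    coll (hull j k t w) (j k) = w := by
  set H := hull j k t w with hH
  have hext := D.hull_ext
  refine ⟨?_, ⟨fun x hx => mem_coll.2 ⟨j x, D.j_hull hx, D.j_hull hx, rfl⟩, fun φ v hv => ?_⟩, ?_⟩
  · intro y hy z hz
    obtain ⟨x, hx, _, rfl⟩ := mem_coll.1 hy
    obtain ⟨x', hx', hx'', rfl⟩ := mem_coll.1 hz
    exact mem_coll.2 ⟨x', hx'', hx'', rfl⟩
  · rw [(D.E.restr D.ht).2 φ v hv, ← coll_sat hext φ (fun i => j (v i)) (fun i => D.j_hull (hv i))]
    have h1 := D.tv φ (fun n => gr k (fun _ => v n)) ∅ D.w0 (fun n => (D.const_fn (hv n)).1)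
    have e : (fun n => app (j (gr k (fun _ => v n))) ∅) = fun n => j (v n) := by
      funext n
      exact (D.const_fn (hv n)).2 ∅ D.w0
    rw [e] at h1
    exact h1.symm
  · ext z
    rw [mem_coll]
    constructor
    · rintro ⟨y, h1, h2, h3⟩
      have hy : y ∈ w := D.hull_inter.1 ⟨h1, h2⟩
      rw [coll_id D.wt D.w_hull y hy] at h3
      exact h3 ▸ hy
    · intro hz
      exact ⟨z, D.wk hz, D.w_hull hz, coll_id D.wt D.w_hull z hz⟩

/-- The collapse belongs to every inaccessible level containing the data. -/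
theorem small (D : HullData B N j k t w) {U : ZFSet.{u}} (hU : U ∈ Lvl) (hR : Repl U)
    (htU : t ∈ U) (hwU : w ∈ U) :
    coll (hull j k t w) (hull j k t w) ∈ U := by
  classical
  set H := hull j k t w with hH
  have hkU : k ∈ U := (Lvl_sub_Trs hU).mem_trans D.hk htU
  have hA : prod (funs k t) w ∈ U := Lvl_prod hU (Lvl_funs hU hkU htU) hwU
  have c1 : ∀ p ∈ prod (funs k t) w, ∃ f, IsFunc k t f ∧ ∃ a ∈ w, p = pair f a := by
    intro p hp
    obtain ⟨f, hf, a, ha, rfl⟩ := mem_prod.1 hp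
    exact ⟨f, mem_funs.1 hf, a, ha, rfl⟩
  choose! p1 hp1 p2 hp2 hp using c1
  have e1 : ∀ f a, IsFunc k t f → a ∈ w → p1 (pair f a) = f ∧ p2 (pair f a) = a := by
    intro f a hf ha
    have := hp (pair f a) (pair_mem_prod.2 ⟨mem_funs.2 hf, ha⟩)
    rw [pair_inj] at this
    exact ⟨this.1.symm, this.2.symm⟩
  let val : ZFSet.{u} → ZFSet.{u} := fun p => app (j (p1 p)) (p2 p)
  have hval : ∀ x, x ∈ H ↔ ∃ p ∈ prod (funs k t) w, val p = x := by
    intro x
    rw [hH, D.mem_hull]
    constructor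
    · rintro ⟨f, hf, a, ha, rfl⟩
      refine ⟨pair f a, pair_mem_prod.2 ⟨mem_funs.2 hf, ha⟩, ?_⟩
      simp only [val, (e1 f a hf ha).1, (e1 f a hf ha).2]
    · rintro ⟨p, hpp, rfl⟩
      exact ⟨p1 p, hp1 p hpp, p2 p, hp2 p hpp, rfl⟩
  have step : ∀ x, (∀ y, y ∈ x → y ∈ H → coll H y ∈ U) → coll H x ∈ U := by
    intro x hx
    obtain ⟨b, hb, hb'⟩ := hR (ZFSet.sep (fun p => val p ∈ x) (prod (funs k t) w))
      (Lvl_sub hU hA sep_subset) (fun p => coll H (val p)) (by
        intro p hpp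
        rw [mem_sep] at hpp
        exact hx _ hpp.2 ((hval _).2 ⟨p, hpp.1, rfl⟩))
    have : coll H x = b := by
      ext y
      rw [mem_coll, hb']
      constructor
      · rintro ⟨z, h1, h2, h3⟩
        obtain ⟨p, hpp, rfl⟩ := (hval z).1 h2
        exact ⟨p, mem_sep.2 ⟨hpp, h1⟩, h3⟩
      · rintro ⟨p, hpp, h3⟩
        rw [mem_sep] at hpp
        exact ⟨val p, hpp.2, (hval _).2 ⟨p, hpp.1, rfl⟩, h3⟩
    rw [this]
    exact hb
  have all : ∀ x, coll H x ∈ U := by
    intro x
    induction x using ZFSet.inductionOn with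
    | _ x ih => exact step x fun y hy _ => ih y hy
  exact all H

end HullData

end Gss969
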