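import Pool.Agent.Gss969.Los

/-!
Levels of the cumulative hierarchy and elementary embeddings.
-/

namespace Gss969

open ZFSet

universe u

set_option linter.unusedVariables false

/-- Transfer of a statement with one unbounded universal quantifier. -/
theorem IsEl.all_transfer {𝒰 : Set ZFSet.{u}} {M N : ZFSet.{u}} {j : ZFSet.{u} → ZFSet.{u}}
    (h : IsEl M N j) {A : ZFSet.{u} → (ℕ → ZFSet.{u}) → Prop}
    (hA : Dfn 𝒰 (fun w => A (w 0) (fun n => w (n + 1)))) (hM : M ∈ 𝒰) (hN : N ∈ 𝒰)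
    (v : ℕ → ZFSet.{u}) (hv : ∀ i, v i ∈ M) :
    (∀ a ∈ M, A a v) ↔ (∀ a ∈ N, A a (fun i => j (v i))) := by
  let f' : ℕ → ℕ := fun n => Nat.casesOn n 1 (fun m => 2 * m)
  have hinf : (Set.range f')ᶜ.Infinite := by
    refine Set.infinite_of_injective_forall_mem (f := fun n : ℕ => 2 * n + 3) ?_ ?_
    · intro a b hab; simpa using hab
    · rintro n ⟨m, hm⟩
      cases m with
      | zero => have : (1 : ℕ) = 2 * n + 3 := hm; omega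
      | succ m => have : (2 * m : ℕ) = 2 * n + 3 := hm; omega
  obtain ⟨φ, hφ⟩ := hA _ hinf
  have e : ∀ i, (2 * i) / 2 = i := fun i => by omega
  have key : ∀ (M : ZFSet.{u}) (hM : M ∈ 𝒰) (v : ℕ → ZFSet.{u}) (hv : ∀ i, v i ∈ M),
      Sat M (fun n => v (n / 2)) (.neg (.ex 1 (.neg φ))) ↔ ∀ a ∈ M, A a v := by
    intro M hM v hv
    have k1 : ∀ a ∈ M, (Sat M (Function.update (fun n => v (n / 2)) 1 a) φ ↔ A a v) := by
      intro a ha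
      refine (hφ M hM _ ?_).trans ?_
      · intro i
        by_cases hi : i = 1
        · subst hi; simpa using ha
        · simpa [hi] using hv _
      · show A (Function.update (fun n => v (n / 2)) 1 a (f' 0))
          (fun n => Function.update (fun n => v (n / 2)) 1 a (f' (n + 1))) ↔ _
        have e1 : Function.update (fun n => v (n / 2)) 1 a (f' 0) = a := by simp [f']
        have e2 : (fun n => Function.update (fun n => v (n / 2)) 1 a (f' (n + 1))) = v := by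
          funext n
          have : 2 * n ≠ 1 := by omega
          simp [f', e]
        rw [e1, e2]
    simp only [Sat]
    push Not
    exact forall₂_congr k1
  rw [← key M hM v hv, ← key N hN _ (fun i => h.1 _ (hv i))]
  exact h.2 _ (fun n => v (n / 2)) (fun i => hv _)

/-- `u` is a level `V_γ` of the cumulative hierarchy. -/
def Lev (x : ZFSet.{u}) : Prop := ∃ γ : Ordinal.{u}, x = V_ γ

/-- `h` is an initial segment of the hierarchy relative to a class `K`, with union of powers `x`. -/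
structure Hist (K : ZFSet.{u} → Prop) (h x : ZFSet.{u}) : Prop where
  h1 : ∀ v ∈ h, ∀ y ∈ v, ∃ w ∈ h, w ∈ v ∧ y ⊆ w
  h2 : ∀ y, K y → ∀ v ∈ h, ∀ w ∈ h, w ∈ v → y ⊆ w → y ∈ v
  h3 : ∀ y ∈ x, ∃ v ∈ h, y ⊆ v
  h4 : ∀ y, K y → ∀ v ∈ h, y ⊆ v → y ∈ x

theorem Hist.mem_level {K : ZFSet.{u} → Prop} {h x : ZFSet.{u}} (H : Hist K h x)
    (hK : ∀ y z, y ∈ z → K z → K y) (hh : ∀ v ∈ h, K v) :
    ∀ v ∈ h, ∃ δ : Ordinal.{u}, ∀ y, y ∈ v ↔ y ∈ V_ δ ∧ K y := by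
  intro v
  induction v using ZFSet.inductionOn with
  | _ v ih =>
  intro hv
  choose! δ hδ using ih
  refine ⟨⨆ w : {w // w ∈ v ∩ h}, Order.succ (δ w.1), fun y => ⟨fun hy => ?_, fun hy => ?_⟩⟩
  · obtain ⟨w, hw, hwv, hyw⟩ := H.h1 v hv y hy
    refine ⟨?_, hK y v hy (hh v hv)⟩
    rw [mem_vonNeumann]
    have : Order.succ (δ w) ≤ ⨆ w : {w // w ∈ v ∩ h}, Order.succ (δ w.1) :=
      Ordinal.le_iSup (fun w : {w // w ∈ v ∩ h} => Order.succ (δ w.1)) ⟨w, mem_inter.2 ⟨hwv, hw⟩⟩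
    refine lt_of_lt_of_le ?_ this
    rw [Order.lt_succ_iff, ← subset_vonNeumann]
    intro z hz
    exact ((hδ w hwv hw z).1 (hyw hz)).1
  · obtain ⟨h1, h2⟩ := hy
    rw [mem_vonNeumann, Ordinal.lt_iSup_iff] at h1
    obtain ⟨⟨w, hww⟩, h1⟩ := h1
    obtain ⟨hwv, hw⟩ := mem_inter.1 hww
    refine H.h2 y h2 v hv w hw hwv ?_
    intro z hz
    refine (hδ w hwv hw z).2 ⟨?_, hK z y hz h2⟩
    rw [Order.lt_succ_iff, ← subset_vonNeumann] at h1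
    exact h1 hz

theorem Hist.level {K : ZFSet.{u} → Prop} {h x : ZFSet.{u}} (H : Hist K h x)
    (hK : ∀ y z, y ∈ z → K z → K y) (hh : ∀ v ∈ h, K v) (hx : ∀ y ∈ x, K y) :
    ∃ δ : Ordinal.{u}, ∀ y, y ∈ x ↔ y ∈ V_ δ ∧ K y := by
  have h0 := H.mem_level hK hh
  choose! δ hδ using h0
  refine ⟨⨆ w : {w // w ∈ h}, Order.succ (δ w.1), fun y => ⟨fun hy => ?_, fun hy => ?_⟩⟩
  · obtain ⟨w, hw, hyw⟩ := H.h3 y hy
    refine ⟨?_, hx y hy⟩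
    rw [mem_vonNeumann]
    have : Order.succ (δ w) ≤ ⨆ w : {w // w ∈ h}, Order.succ (δ w.1) :=
      Ordinal.le_iSup (fun w : {w // w ∈ h} => Order.succ (δ w.1)) ⟨w, hw⟩
    refine lt_of_lt_of_le ?_ this
    rw [Order.lt_succ_iff, ← subset_vonNeumann]
    intro z hz
    exact ((hδ w hw z).1 (hyw hz)).1
  · obtain ⟨h1, h2⟩ := hy
    rw [mem_vonNeumann, Ordinal.lt_iSup_iff] at h1
    obtain ⟨⟨w, hw⟩, h1⟩ := h1
    refine H.h4 y h2 w hw ?_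
    intro z hz
    refine (hδ w hw z).2 ⟨?_, hK z y hz h2⟩
    rw [Order.lt_succ_iff, ← subset_vonNeumann] at h1
    exact h1 hz

/-- The set of earlier levels. -/
noncomputable def hst (γ : Ordinal.{u}) : ZFSet.{u} :=
  ZFSet.sep (fun v => Lev v) (V_ γ)

theorem mem_hst {γ : Ordinal.{u}} {v : ZFSet.{u}} : v ∈ hst γ ↔ ∃ δ < γ, v = V_ δ := by
  unfold hst Lev
  rw [mem_sep]
  constructor
  · rintro ⟨h, δ, rfl⟩
    exact ⟨δ, vonNeumann_mem_vonNeumann_iff.1 h, rfl⟩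
  · rintro ⟨δ, h, rfl⟩
    exact ⟨vonNeumann_mem_vonNeumann_iff.2 h, δ, rfl⟩

theorem hist_hst (γ : Ordinal.{u}) : Hist (fun _ => True) (hst γ) (V_ γ) := by
  constructor
  · intro v hv y hy
    obtain ⟨δ, hδ, rfl⟩ := mem_hst.1 hv
    obtain ⟨a, ha, h⟩ := mem_vonNeumann'.1 hy
    exact ⟨V_ a, mem_hst.2 ⟨a, ha.trans hδ, rfl⟩, vonNeumann_mem_vonNeumann_iff.2 ha, h⟩
  · intro y _ v hv w hw hwv hyw
    obtain ⟨δ, hδ, rfl⟩ := mem_hst.1 hv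
    obtain ⟨ε, hε, rfl⟩ := mem_hst.1 hw
    exact mem_vonNeumann'.2 ⟨ε, vonNeumann_mem_vonNeumann_iff.1 hwv, hyw⟩
  · intro y hy
    obtain ⟨a, ha, h⟩ := mem_vonNeumann'.1 hy
    exact ⟨V_ a, mem_hst.2 ⟨a, ha, rfl⟩, h⟩
  · intro y _ v hv hyv
    obtain ⟨δ, hδ, rfl⟩ := mem_hst.1 hv
    exact mem_vonNeumann'.2 ⟨δ, hδ, hyv⟩

theorem lev_iff (x : ZFSet.{u}) : Lev x ↔ ∃ h, h ⊆ x ∧
    ((∀ v ∈ h, ∀ y ∈ v, ∃ w ∈ h, w ∈ v ∧ y ⊆ w) ∧
    (∀ v ∈ h, ∀ w ∈ h, w ∈ v → ∀ y, y ⊆ w → y ∈ v) ∧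
    (∀ y ∈ x, ∃ v ∈ h, y ⊆ v) ∧
    (∀ v ∈ h, ∀ y, y ⊆ v → y ∈ x)) := by
  constructor
  · rintro ⟨γ, rfl⟩
    have H := hist_hst γ
    refine ⟨hst γ, sep_subset, H.h1, fun v hv w hw hwv y hy => H.h2 y trivial v hv w hw hwv hy,
      H.h3, fun v hv y hy => H.h4 y trivial v hv hy⟩
  · rintro ⟨h, _, h1, h2, h3, h4⟩
    have H : Hist (fun _ => True) h x :=
      ⟨h1, fun y _ v hv w hw hwv hy => h2 v hv w hw hwv y hy, h3, fun y _ v hv hy => h4 v hv y hy⟩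
    obtain ⟨δ, hδ⟩ := H.level (fun _ _ _ _ => trivial) (fun _ _ => trivial) (fun _ _ => trivial)
    refine ⟨δ, ?_⟩
    ext y
    simpa using hδ y

theorem dfn_lev (i : ℕ) : Dfn Lvl.{u} (fun v => Lev (v i)) := by
  refine Dfn.congr (A := fun v => ∃ h, h ⊆ v i ∧
    ((∀ v ∈ h, ∀ y ∈ v, ∃ w ∈ h, w ∈ v ∧ y ⊆ w) ∧
    (∀ v ∈ h, ∀ w ∈ h, w ∈ v → ∀ y, y ⊆ w → y ∈ v) ∧
    (∀ y ∈ v i, ∃ v ∈ h, y ⊆ v) ∧
    (∀ w ∈ h, ∀ y, y ⊆ w → y ∈ v i))) ?_ fun v => (lev_iff _).symm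
  repeat' first
    | exact Dfn.mem _ _ | exact dfn_sub Lvl_sub_Trs _ _ | refine Dfn.exsub subset_rfl _ ?_
    | refine Dfn.allsub subset_rfl _ ?_ | refine Dfn.and ?_ ?_ | refine Dfn.imp ?_ ?_
    | refine Dfn.ball Lvl_sub_Trs _ ?_ | refine Dfn.bex Lvl_sub_Trs _ ?_

theorem dfn_ord {𝒰 : Set ZFSet.{u}} (ht : 𝒰 ⊆ Trs) (i : ℕ) :
    Dfn 𝒰 (fun v => (v i).IsOrdinal) := by
  refine Dfn.congr (A := fun v => (v i).IsTransitive ∧ ∀ y ∈ v i, y.IsTransitive) ?_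
    fun v => isOrdinal_iff_forall_mem_isTransitive.symm
  refine Dfn.and (dfn_trans ht _) (Dfn.ball ht _ (dfn_trans ht _))

end Gss969
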