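import Pool.Agent.Gss969.Level

/-!
The image of a level under an elementary embedding.
-/

namespace Gss969

open ZFSet

universe u

set_option linter.unusedVariables false

variable {B N : ZFSet.{u}} {j : ZFSet.{u} → ZFSet.{u}}

namespace Emb

theorem all2 (E : Emb B N j) {A : ZFSet.{u} → ZFSet.{u} → ZFSet.{u} → Prop}
    (hA : Dfn Trs.{u} (fun w => A (w 0) (w 1) (w 2))) {b c : ZFSet.{u}} (hb : b ∈ B) (hc : c ∈ B)
    (h : ∀ a ∈ B, A a b c) : ∀ a ∈ N, A a (j b) (j c) :=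
  (E.el.all_transfer (𝒰 := Trs) (A := fun a v => A a (v 0) (v 1)) hA E.bt E.nt
    (asg b c c c c c) (asg_mem hb hc hc hc hc hc)).1 h

theorem ord (E : Emb B N j) {x : ZFSet.{u}} (hx : x ∈ B) (h : x.IsOrdinal) : (j x).IsOrdinal :=
  (E.el.t1 E.bt E.nt (A := fun a => a.IsOrdinal) (dfn_ord subset_rfl 0) hx).1 h

theorem jV (E : Emb B N j) {γ : Ordinal.{u}} (hγ : V_ γ ∈ B) :
    (j γ.toZFSet).IsOrdinal ∧
      ∀ x, x ∈ j (V_ γ) ↔ x ∈ V_ (rank (j γ.toZFSet)) ∧ x ∈ N := by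
  have hh : hst γ ∈ B := Lvl_sub E.lvl hγ sep_subset
  have ho : γ.toZFSet ∈ B := Lvl_sub E.lvl hγ γ.toZFSet_subset_vonNeumann
  have H := hist_hst γ
  have hord := E.ord ho (isOrdinal_toZFSet γ)
  have hjN : ∀ x ∈ B, ∀ y, y ∈ j x → y ∈ N := fun x hx y hy => E.trs.mem_trans hy (E.el.1 x hx)
  have HN : Hist (fun y => y ∈ N) (j (hst γ)) (j (V_ γ)) := by
    constructor
    · exact (E.el.t1 E.bt E.nt (A := fun h => ∀ v ∈ h, ∀ y ∈ v, ∃ w ∈ h, w ∈ v ∧ y ⊆ w)
        (by repeat' first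
            | exact Dfn.mem _ _ | exact dfn_sub subset_rfl _ _ | refine Dfn.and ?_ ?_
            | refine Dfn.ball subset_rfl _ ?_ | refine Dfn.bex subset_rfl _ ?_) hh).1 H.h1
    · exact E.all2 (A := fun y h c => ∀ v ∈ h, ∀ w ∈ h, w ∈ v → y ⊆ w → y ∈ v)
        (by repeat' first
            | exact Dfn.mem _ _ | exact dfn_sub subset_rfl _ _ | refine Dfn.imp ?_ ?_
            | refine Dfn.ball subset_rfl _ ?_) hh hh (fun y _ => H.h2 y trivial)
    · exact (E.el.t2 E.bt E.nt (A := fun x h => ∀ y ∈ x, ∃ v ∈ h, y ⊆ v)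
        (by repeat' first
            | exact dfn_sub subset_rfl _ _
            | refine Dfn.ball subset_rfl _ ?_ | refine Dfn.bex subset_rfl _ ?_) hγ hh).1 H.h3
    · exact E.all2 (A := fun y h x => ∀ v ∈ h, y ⊆ v → y ∈ x)
        (by repeat' first
            | exact Dfn.mem _ _ | exact dfn_sub subset_rfl _ _ | refine Dfn.imp ?_ ?_
            | refine Dfn.ball subset_rfl _ ?_) hh hγ (fun y _ => H.h4 y trivial)
  have hKt : ∀ y z, y ∈ z → z ∈ N → y ∈ N := fun y z h1 h2 => E.trs.mem_trans h1 h2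
  have hml := HN.mem_level hKt (hjN _ hh)
  obtain ⟨δ, hδ⟩ := HN.level hKt (hjN _ hh) (hjN _ hγ)
  refine ⟨hord, ?_⟩
  have hrel := (E.el.t2 E.bt E.nt (A := fun h o => ∀ y ∈ h, ∃ α ∈ o, α ⊆ y ∧
      ∀ z ∈ y, z.IsOrdinal → z ∈ α)
      (by repeat' first
            | exact Dfn.mem _ _ | exact dfn_sub subset_rfl _ _ | exact dfn_ord subset_rfl _
            | refine Dfn.imp ?_ ?_ | refine Dfn.and ?_ ?_
            | refine Dfn.ball subset_rfl _ ?_ | refine Dfn.bex subset_rfl _ ?_) hh ho).1 (by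
        intro y hy
        obtain ⟨ε, hε, rfl⟩ := mem_hst.1 hy
        refine ⟨ε.toZFSet, Ordinal.toZFSet_mem_toZFSet_iff.2 hε, ε.toZFSet_subset_vonNeumann, ?_⟩
        intro z hz hzo
        rw [← hzo.toZFSet_rank_eq]
        exact Ordinal.toZFSet_mem_toZFSet_iff.2 (mem_vonNeumann.1 hz))
  have hle : rank (j γ.toZFSet) ≤ δ := by
    rw [← subset_vonNeumann]
    intro x hx
    exact ((hδ x).1 ((E.sub_iff ho hγ).1 γ.toZFSet_subset_vonNeumann hx)).1
  intro x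
  constructor
  · intro hx
    refine ⟨?_, hjN _ hγ x hx⟩
    obtain ⟨y, hy, hxy⟩ := HN.h3 x hx
    obtain ⟨α, hα, _, hz⟩ := hrel y hy
    obtain ⟨ε, hε⟩ := hml y hy
    have hαo : α.IsOrdinal := hord.mem hα
    have hαN : α ∈ N := hjN _ ho α hα
    have h1 : ε ≤ rank α := by
      by_contra hlt
      push Not at hlt
      have : α ∈ y := (hε α).2 ⟨mem_vonNeumann.2 hlt, hαN⟩
      exact mem_irrefl _ (hz α this hαo)
    rw [mem_vonNeumann]
    refine lt_of_le_of_lt ?_ (lt_of_le_of_lt h1 (rank_lt_of_mem hα))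
    rw [← subset_vonNeumann]
    intro z hzx
    exact ((hε z).1 (hxy hzx)).1
  · rintro ⟨h1, h2⟩
    exact (hδ x).2 ⟨vonNeumann_subset_of_le hle h1, h2⟩

/-- If all ordinals below `μ` are fixed, then all elements of `V_μ` are fixed. -/
theorem fix (E : Emb B N j) {μ : Ordinal.{u}} (hμ : V_ μ ∈ B)
    (hfix : ∀ α < μ, j α.toZFSet = α.toZFSet) :
    ∀ γ ≤ μ, ∀ x ∈ V_ γ, j x = x := by
  intro γ
  induction γ using Ordinal.induction with
  | _ γ ih =>
  intro hγ x hx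
  obtain ⟨δ, hδ, hxδ⟩ := mem_vonNeumann'.1 hx
  have ihδ := ih δ hδ (hδ.le.trans hγ)
  have hδB : V_ δ ∈ B := E.bt.mem_trans (vonNeumann_mem_of_lt (hδ.trans_le hγ)) hμ
  have hxB : x ∈ B := Lvl_sub E.lvl hδB hxδ
  have hj := (E.jV hδB).2
  rw [hfix δ (hδ.trans_le hγ), Ordinal.rank_toZFSet] at hj
  ext y
  constructor
  · intro hy
    have h1 : y ∈ j (V_ δ) := (E.sub_iff hxB hδB).1 hxδ hy
    have h2 : y ∈ V_ δ := ((hj y).1 h1).1
    have h3 := ihδ y h2
    rw [← h3] at hy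
    exact (E.mem_iff (E.bt.mem_trans h2 hδB) hxB).2 hy
  · intro hy
    have h2 : y ∈ V_ δ := hxδ hy
    have h3 := ihδ y h2
    have := (E.mem_iff (E.bt.mem_trans h2 hδB) hxB).1 hy
    rwa [h3] at this

/-- Restriction of the embedding to an element of its domain. -/
theorem restr (E : Emb B N j) {t : ZFSet.{u}} (ht : t ∈ B) : IsEl t (j t) j := by
  refine ⟨fun x hx => (E.mem_iff (E.bt.mem_trans hx ht) ht).1 hx, fun φ v hv => ?_⟩
  have hne : (∅ : ZFSet.{u}) ∈ B := Lvl_sub E.lvl ht (by simp)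
  have hd : ({∅} : ZFSet.{u}) ∈ B := by
    refine Lvl_sub E.lvl (Lvl_powerset E.lvl hne) ?_
    intro x hx
    simp at hx
    simp [hx]
  have h0 : (∅ : ZFSet.{u}) ∈ ({∅} : ZFSet.{u}) := by simp
  have hf : ∀ n, IsFunc {∅} t (gr {∅} (fun _ => v n)) := fun n => isFunc_gr fun _ _ => hv n
  have h1 := E.los φ {∅} t (fun n => gr {∅} (fun _ => v n)) hd ht hf (j ∅)
    ((E.mem_iff hne hd).1 h0)
  have e1 : (fun n => app (j (gr {∅} (fun _ => v n))) (j ∅)) = fun n => j (v n) := by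
    funext n
    rw [E.app_eq hd ht (hf n) h0, app_gr h0]
  have e2 : (fun n => app (gr {∅} (fun _ => v n)) ∅) = v := by
    funext n
    rw [app_gr h0]
  rw [e1, ← E.mem_iff hne (Lvl_sub E.lvl hd sep_subset), mem_sep, e2] at h1
  simpa using h1

end Emb

end Gss969
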