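import Pool.Agent.Gss969.Rel

/-!
Elementary embeddings of a `V_δ` commute with the satisfaction relation of sets (a form of the
theorem of Łoś).
-/

namespace Gss969

open ZFSet

universe u

set_option linter.unusedVariables false

/-- An elementary embedding of some `V_δ` (`δ > ω` limit) into a transitive set. -/
structure Emb (B N : ZFSet.{u}) (j : ZFSet.{u} → ZFSet.{u}) : Prop where
  el : IsEl B N j
  lvl : B ∈ Lvl
  trs : N.IsTransitive

variable {B N : ZFSet.{u}} {j : ZFSet.{u} → ZFSet.{u}}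

namespace Emb

theorem bt (E : Emb B N j) : B ∈ Trs.{u} := Lvl_sub_Trs E.lvl

theorem nt (E : Emb B N j) : N ∈ Trs.{u} := E.trs

theorem mem_iff (E : Emb B N j) {x y : ZFSet.{u}} (hx : x ∈ B) (hy : y ∈ B) :
    x ∈ y ↔ j x ∈ j y :=
  E.el.t2 E.bt E.nt (A := fun a b => a ∈ b) (Dfn.mem 0 1) hx hy

theorem inj (E : Emb B N j) {x y : ZFSet.{u}} (hx : x ∈ B) (hy : y ∈ B) :
    x = y ↔ j x = j y :=
  E.el.t2 E.bt E.nt (A := fun a b => a = b) (Dfn.eq 0 1) hx hy

theorem sub_iff (E : Emb B N j) {x y : ZFSet.{u}} (hx : x ∈ B) (hy : y ∈ B) :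
    x ⊆ y ↔ j x ⊆ j y :=
  E.el.t2 E.bt E.nt (A := fun a b => a ⊆ b) (dfn_sub subset_rfl 0 1) hx hy

theorem trans_iff (E : Emb B N j) {x : ZFSet.{u}} (hx : x ∈ B) :
    x.IsTransitive ↔ (j x).IsTransitive :=
  E.el.t1 E.bt E.nt (A := fun a => a.IsTransitive) (dfn_trans subset_rfl 0) hx

theorem pair_eq (E : Emb B N j) {x y : ZFSet.{u}} (hx : x ∈ B) (hy : y ∈ B) :
    j (pair x y) = pair (j x) (j y) :=
  (E.el.t3 E.bt E.nt (A := fun a b c => a = pair b c) (dfn_pair subset_rfl 0 1 2)
    (Lvl_pair E.lvl hx hy) hx hy).1 rfl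

theorem func (E : Emb B N j) {d t f : ZFSet.{u}} (hd : d ∈ B) (ht : t ∈ B)
    (hf : IsFunc d t f) : IsFunc (j d) (j t) (j f) :=
  (E.el.t3 E.bt E.nt (A := fun a b c => IsFunc a b c) (dfn_isFunc subset_rfl 0 1 2)
    hd ht (Lvl_func E.lvl hd ht hf)).1 hf

theorem app_eq (E : Emb B N j) {d t f x : ZFSet.{u}} (hd : d ∈ B) (ht : t ∈ B)
    (hf : IsFunc d t f) (hx : x ∈ d) : app (j f) (j x) = j (app f x) := by
  have hxB : x ∈ B := (E.bt).mem_trans hx hd
  have h1 : j x ∈ j d := (E.mem_iff hxB hd).1 hx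
  rw [← app_iff (E.func hd ht hf) h1, ← E.pair_eq hxB ((E.bt).mem_trans (app_mem hf hx) ht)]
  refine (E.mem_iff ?_ (Lvl_func E.lvl hd ht hf)).1 (app_spec hf hx)
  exact Lvl_pair E.lvl hxB ((E.bt).mem_trans (app_mem hf hx) ht)

/-- `j` commutes with products. -/
theorem prod_mem (E : Emb B N j) {d t a y : ZFSet.{u}} (hd : d ∈ B) (ht : t ∈ B)
    (ha : a ∈ j d) (hy : y ∈ j t) : pair a y ∈ j (prod d t) := by
  have h := (E.el.t3 E.bt E.nt (A := fun P d t => ∀ a ∈ d, ∀ y ∈ t, pair a y ∈ P)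
    (by repeat' first | exact dfn_pm subset_rfl _ _ _ | refine Dfn.ball subset_rfl _ ?_)
    (Lvl_prod E.lvl hd ht) hd ht).1 (fun a ha y hy => pair_mem_prod.2 ⟨ha, hy⟩)
  exact h a ha y hy

theorem los (E : Emb B N j) (φ : Fml) : ∀ (d t : ZFSet.{u}) (f : ℕ → ZFSet.{u}), d ∈ B → t ∈ B →
    (∀ n, IsFunc d t (f n)) → ∀ a ∈ j d,
    (a ∈ j (ZFSet.sep (fun b => Sat t (fun n => app (f n) b) φ) d) ↔
      Sat (j t) (fun n => app (j (f n)) a) φ) := by
  induction φ with
  | mem i l =>
    intro d t f hd ht hf a ha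
    have hF : ∀ n, f n ∈ B := fun n => Lvl_func E.lvl hd ht (hf n)
    have hX : ZFSet.sep (fun b => Sat t (fun n => app (f n) b) (.mem i l)) d ∈ B :=
      Lvl_sub E.lvl hd sep_subset
    have h := (E.el.t5 E.bt E.nt (A := fun X d t fi fl => ∀ b ∈ d, (b ∈ X ↔
      ∃ y ∈ t, ∃ z ∈ t, pair b y ∈ fi ∧ pair b z ∈ fl ∧ y ∈ z))
      (by repeat' first
            | exact Dfn.mem _ _ | exact dfn_pm subset_rfl _ _ _ | refine Dfn.and ?_ ?_
            | refine Dfn.iff ?_ ?_ | refine Dfn.ball subset_rfl _ ?_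
            | refine Dfn.bex subset_rfl _ ?_)
      hX hd ht (hF i) (hF l)).1 (by
        intro b hb
        simp only [mem_sep, hb, true_and, Sat]
        constructor
        · intro h
          exact ⟨_, app_mem (hf i) hb, _, app_mem (hf l) hb, app_spec (hf i) hb,
            app_spec (hf l) hb, h⟩
        · rintro ⟨y, _, z, _, h1, h2, h3⟩
          rw [app_iff (hf i) hb] at h1
          rw [app_iff (hf l) hb] at h2
          rw [h1, h2]; exact h3)
    rw [h a ha]
    have g := fun n => E.func hd ht (hf n)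
    simp only [Sat]
    constructor
    · rintro ⟨y, _, z, _, h1, h2, h3⟩
      rw [app_iff (g i) ha] at h1
      rw [app_iff (g l) ha] at h2
      rw [h1, h2]; exact h3
    · intro h
      exact ⟨_, app_mem (g i) ha, _, app_mem (g l) ha, app_spec (g i) ha,
            app_spec (g l) ha, h⟩
  | eq i l =>
    intro d t f hd ht hf a ha
    have hF : ∀ n, f n ∈ B := fun n => Lvl_func E.lvl hd ht (hf n)
    have hX : ZFSet.sep (fun b => Sat t (fun n => app (f n) b) (.eq i l)) d ∈ B :=
      Lvl_sub E.lvl hd sep_subset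
    have h := (E.el.t5 E.bt E.nt (A := fun X d t fi fl => ∀ b ∈ d, (b ∈ X ↔
      ∃ y ∈ t, ∃ z ∈ t, pair b y ∈ fi ∧ pair b z ∈ fl ∧ y = z))
      (by repeat' first
            | exact Dfn.mem _ _ | exact Dfn.eq _ _ | exact dfn_pm subset_rfl _ _ _
            | refine Dfn.and ?_ ?_
            | refine Dfn.iff ?_ ?_ | refine Dfn.ball subset_rfl _ ?_
            | refine Dfn.bex subset_rfl _ ?_)
      hX hd ht (hF i) (hF l)).1 (by
        intro b hb
        simp only [mem_sep, hb, true_and, Sat]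
        constructor
        · intro h
          exact ⟨_, app_mem (hf i) hb, _, app_mem (hf l) hb, app_spec (hf i) hb,
            app_spec (hf l) hb, h⟩
        · rintro ⟨y, _, z, _, h1, h2, h3⟩
          rw [app_iff (hf i) hb] at h1
          rw [app_iff (hf l) hb] at h2
          rw [h1, h2]; exact h3)
    rw [h a ha]
    have g := fun n => E.func hd ht (hf n)
    simp only [Sat]
    constructor
    · rintro ⟨y, _, z, _, h1, h2, h3⟩
      rw [app_iff (g i) ha] at h1
      rw [app_iff (g l) ha] at h2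
      rw [h1, h2]; exact h3
    · intro h
      exact ⟨_, app_mem (g i) ha, _, app_mem (g l) ha, app_spec (g i) ha,
            app_spec (g l) ha, h⟩
  | neg φ ih =>
    intro d t f hd ht hf a ha
    have hX : ZFSet.sep (fun b => Sat t (fun n => app (f n) b) (.neg φ)) d ∈ B :=
      Lvl_sub E.lvl hd sep_subset
    have hX' : ZFSet.sep (fun b => Sat t (fun n => app (f n) b) φ) d ∈ B :=
      Lvl_sub E.lvl hd sep_subset
    have h := (E.el.t3 E.bt E.nt (A := fun X X' d => ∀ b ∈ d, (b ∈ X ↔ ¬ b ∈ X'))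
      (by repeat' first
            | exact Dfn.mem _ _ | refine Dfn.not ?_
            | refine Dfn.iff ?_ ?_ | refine Dfn.ball subset_rfl _ ?_)
      hX hX' hd).1 (by
        intro b hb
        simp only [mem_sep, hb, true_and, Sat])
    rw [h a ha, ih d t f hd ht hf a ha]
    exact Iff.rfl
  | and φ ψ ih ih' =>
    intro d t f hd ht hf a ha
    have hX : ZFSet.sep (fun b => Sat t (fun n => app (f n) b) (.and φ ψ)) d ∈ B :=
      Lvl_sub E.lvl hd sep_subset
    have hX' : ZFSet.sep (fun b => Sat t (fun n => app (f n) b) φ) d ∈ B :=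
      Lvl_sub E.lvl hd sep_subset
    have hX'' : ZFSet.sep (fun b => Sat t (fun n => app (f n) b) ψ) d ∈ B :=
      Lvl_sub E.lvl hd sep_subset
    have h := (E.el.t4 E.bt E.nt (A := fun X X' X'' d => ∀ b ∈ d, (b ∈ X ↔ b ∈ X' ∧ b ∈ X''))
      (by repeat' first
            | exact Dfn.mem _ _ | refine Dfn.and ?_ ?_
            | refine Dfn.iff ?_ ?_ | refine Dfn.ball subset_rfl _ ?_)
      hX hX' hX'' hd).1 (by
        intro b hb
        simp only [mem_sep, hb, true_and, Sat])
    rw [h a ha, ih d t f hd ht hf a ha, ih' d t f hd ht hf a ha]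
    exact Iff.rfl
  | ex i φ ih =>
    intro d t f hd ht hf a ha
    classical
    let d' := prod d t
    have hd' : d' ∈ B := Lvl_prod E.lvl hd ht
    -- first and second coordinates
    have c1 : ∀ p ∈ d', ∃ b ∈ d, ∃ y ∈ t, p = pair b y := fun p hp => mem_prod.1 hp
    choose! p1 hp1 p2 hp2 hp using c1
    have e1 : ∀ b ∈ d, ∀ y ∈ t, p1 (pair b y) = b := fun b hb y hy =>
      (pair_inj.1 (hp (pair b y) (pair_mem_prod.2 ⟨hb, hy⟩))).1.symm
    have e2 : ∀ b ∈ d, ∀ y ∈ t, p2 (pair b y) = y := fun b hb y hy =>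
      (pair_inj.1 (hp (pair b y) (pair_mem_prod.2 ⟨hb, hy⟩))).2.symm
    let f' : ℕ → ZFSet.{u} := fun n =>
      if n = i then gr d' p2 else gr d' (fun p => app (f n) (p1 p))
    have hf' : ∀ n, IsFunc d' t (f' n) := by
      intro n
      by_cases hn : n = i
      · simp only [f', hn, if_true]
        exact isFunc_gr hp2
      · simp only [f', hn, if_false]
        exact isFunc_gr fun p hpp => app_mem (hf n) (hp1 p hpp)
    have hfi : ∀ b ∈ d, ∀ y ∈ t, pair (pair b y) y ∈ f' i := by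
      intro b hb y hy
      simp only [f', if_true]
      exact pair_mem_gr.2 ⟨pair_mem_prod.2 ⟨hb, hy⟩, e2 b hb y hy⟩
    have hfn : ∀ n, n ≠ i → ∀ b ∈ d, ∀ y ∈ t, ∀ z ∈ t, pair b z ∈ f n →
        pair (pair b y) z ∈ f' n := by
      intro n hn b hb y hy z hz h
      simp only [f', hn, if_false]
      refine pair_mem_gr.2 ⟨pair_mem_prod.2 ⟨hb, hy⟩, ?_⟩
      rw [e1 b hb y hy]
      exact (app_iff (hf n) hb).1 h
    have hfB : ∀ n, f n ∈ B := fun n => Lvl_func E.lvl hd ht (hf n)
    have hfB' : ∀ n, f' n ∈ B := fun n => Lvl_func E.lvl hd' ht (hf' n)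
    -- transfer of the two facts
    have jfi : ∀ b ∈ j d, ∀ y ∈ j t, pair (pair b y) y ∈ j (f' i) := by
      have := (E.el.t4 E.bt E.nt (A := fun F d t P => ∀ b ∈ d, ∀ y ∈ t, ∀ p ∈ P, p = pair b y →
          pair p y ∈ F)
        (by repeat' first
              | exact dfn_pm subset_rfl _ _ _ | exact dfn_pair subset_rfl _ _ _
              | refine Dfn.imp ?_ ?_ | refine Dfn.ball subset_rfl _ ?_)
        (hfB' i) hd ht hd').1 (fun b hb y hy p _ hp' => hp' ▸ hfi b hb y hy)
      intro b hb y hy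
      exact this b hb y hy _ (E.prod_mem hd ht hb hy) rfl
    have jfn : ∀ n, n ≠ i → ∀ b ∈ j d, ∀ y ∈ j t, ∀ z ∈ j t, pair b z ∈ j (f n) →
        pair (pair b y) z ∈ j (f' n) := by
      intro n hn
      have := (E.el.t5 E.bt E.nt (A := fun F F' d t P => ∀ b ∈ d, ∀ y ∈ t, ∀ z ∈ t, pair b z ∈ F →
          ∀ p ∈ P, p = pair b y → pair p z ∈ F')
        (by repeat' first
              | exact dfn_pm subset_rfl _ _ _ | exact dfn_pair subset_rfl _ _ _
              | refine Dfn.imp ?_ ?_ | refine Dfn.ball subset_rfl _ ?_)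
        (hfB n) (hfB' n) hd ht hd').1
          (fun b hb y hy z hz hh p _ hp' => hp' ▸ hfn n hn b hb y hy z hz hh)
      intro b hb y hy z hz hh
      exact this b hb y hy z hz hh _ (E.prod_mem hd ht hb hy) rfl
    have hX : ZFSet.sep (fun b => Sat t (fun n => app (f n) b) (.ex i φ)) d ∈ B :=
      Lvl_sub E.lvl hd sep_subset
    have hX' : ZFSet.sep (fun b => Sat t (fun n => app (f' n) b) φ) d' ∈ B :=
      Lvl_sub E.lvl hd' sep_subset
    have upd : ∀ b ∈ d, ∀ y ∈ t, (fun n => app (f' n) (pair b y)) =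
        Function.update (fun n => app (f n) b) i y := by
      intro b hb y hy
      funext n
      by_cases hn : n = i
      · subst hn
        rw [Function.update_self]
        exact (app_iff (hf' n) (pair_mem_prod.2 ⟨hb, hy⟩)).1 (hfi b hb y hy)
      · rw [Function.update_of_ne hn]
        exact (app_iff (hf' n) (pair_mem_prod.2 ⟨hb, hy⟩)).1
          (hfn n hn b hb y hy _ (app_mem (hf n) hb) (app_spec (hf n) hb))
    have jupd : ∀ b ∈ j d, ∀ y ∈ j t, (fun n => app (j (f' n)) (pair b y)) =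
        Function.update (fun n => app (j (f n)) b) i y := by
      intro b hb y hy
      funext n
      by_cases hn : n = i
      · subst hn
        rw [Function.update_self]
        exact (app_iff (E.func hd' ht (hf' n)) (E.prod_mem hd ht hb hy)).1 (jfi b hb y hy)
      · rw [Function.update_of_ne hn]
        exact (app_iff (E.func hd' ht (hf' n)) (E.prod_mem hd ht hb hy)).1
          (jfn n hn b hb y hy _ (app_mem (E.func hd ht (hf n)) hb)
            (app_spec (E.func hd ht (hf n)) hb))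
    have h := (E.el.t4 E.bt E.nt (A := fun X X' d t => ∀ b ∈ d, (b ∈ X ↔
        ∃ y ∈ t, pair b y ∈ X'))
      (by repeat' first
            | exact Dfn.mem _ _ | exact dfn_pm subset_rfl _ _ _ | refine Dfn.bex subset_rfl _ ?_
            | refine Dfn.iff ?_ ?_ | refine Dfn.ball subset_rfl _ ?_)
      hX hX' hd ht).1 (by
        intro b hb
        simp only [mem_sep, hb, true_and, Sat]
        constructor
        · rintro ⟨y, hy, h⟩
          refine ⟨y, hy, pair_mem_prod.2 ⟨hb, hy⟩, ?_⟩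
          rw [upd b hb y hy]; exact h
        · rintro ⟨y, hy, _, h⟩
          rw [upd b hb y hy] at h
          exact ⟨y, hy, h⟩)
    rw [h a ha]
    simp only [Sat]
    constructor
    · rintro ⟨y, hy, h1⟩
      refine ⟨y, hy, ?_⟩
      rw [ih d' t f' hd' ht hf' _ (E.prod_mem hd ht ha hy), jupd a ha y hy] at h1
      exact h1
    · rintro ⟨y, hy, h1⟩
      refine ⟨y, hy, ?_⟩
      rw [ih d' t f' hd' ht hf' _ (E.prod_mem hd ht ha hy), jupd a ha y hy]
      exact h1

end Emb

end Gss969
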