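import Pool.Agent.Gss969.Crit

/-!
The main argument.
-/

namespace Gss969

open ZFSet

universe u

set_option linter.unusedVariables false

variable {B N : ZFSet.{u}} {j : ZFSet.{u} → ZFSet.{u}}

/-- Transfer of a `∀∃` statement. -/
theorem IsEl.all_ex_transfer {𝒰 : Set ZFSet.{u}} {M N : ZFSet.{u}} {j : ZFSet.{u} → ZFSet.{u}}
    (h : IsEl M N j) {A : ZFSet.{u} → ZFSet.{u} → Prop}
    (hA : Dfn 𝒰 (fun w => A (w 0) (w 1))) (hM : M ∈ 𝒰) (hN : N ∈ 𝒰) (hne : ∅ ∈ M) :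
    (∀ a ∈ M, ∃ x ∈ M, A a x) ↔ (∀ a ∈ N, ∃ x ∈ N, A a x) := by
  let f : ℕ → ℕ := fun n => if n = 0 then 0 else 1
  have hinf : (Set.range f)ᶜ.Infinite := by
    refine Set.infinite_of_injective_forall_mem (f := fun n : ℕ => n + 2) ?_ ?_
    · intro a b hab; simpa using hab
    · rintro n ⟨m, hm⟩
      simp only [f] at hm
      split_ifs at hm
      omega
  obtain ⟨φ, hφ⟩ := hA f hinf
  have key : ∀ (M : ZFSet.{u}) (hM : M ∈ 𝒰) (v : ℕ → ZFSet.{u}) (hv : ∀ i, v i ∈ M),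
      Sat M v (.neg (.ex 0 (.neg (.ex 1 φ)))) ↔ ∀ a ∈ M, ∃ x ∈ M, A a x := by
    intro M hM v hv
    have k1 : ∀ a ∈ M, ∀ x ∈ M,
        (Sat M (Function.update (Function.update v 0 a) 1 x) φ ↔ A a x) := by
      intro a ha x hx
      refine (hφ M hM _ ?_).trans ?_
      · intro i
        by_cases hi : i = 1
        · subst hi; simpa using hx
        · by_cases hi' : i = 0
          · subst hi'; simpa using ha
          · simpa [hi, hi'] using hv _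
      · show A (Function.update (Function.update v 0 a) 1 x (f 0))
          (Function.update (Function.update v 0 a) 1 x (f 1)) ↔ _
        have e1 : Function.update (Function.update v 0 a) 1 x (f 0) = a := by simp [f]
        have e2 : Function.update (Function.update v 0 a) 1 x (f 1) = x := by simp [f]
        rw [e1, e2]
    simp only [Sat]
    push Not
    refine forall₂_congr fun a ha => ?_
    constructor
    · rintro ⟨x, hx, h⟩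
      exact ⟨x, hx, (k1 a ha x hx).1 h⟩
    · rintro ⟨x, hx, h⟩
      exact ⟨x, hx, (k1 a ha x hx).2 h⟩
  rw [← key M hM (fun _ => ∅) (fun _ => hne), ← key N hN _ (fun i => h.1 _ hne)]
  exact h.2 _ (fun _ => ∅) (fun _ => hne)

theorem reflect {μ τ : Ordinal.{u}} (C : Crit B N j μ τ) {y0 : ZFSet.{u}} (hy : y0 ∈ V_ τ)
    (hR : Rr y0) (hs : V_ μ ⊆ y0) : ∀ a ∈ V_ τ, ∃ x ∈ V_ τ, a ∈ x ∧ Rr x := by
  have hd : Dfn Lvl.{u} (fun w => w 0 ∈ w 1 ∧ Rr (w 1)) := (Dfn.mem _ _).and (dfn_Rr _)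
  refine (C.el.all_ex_transfer (A := fun a x => a ∈ x ∧ Rr x) hd C.mlvl C.tlvl
    (lvl_nonempty C.mlvl)).1 ?_
  intro a ha
  by_contra hcon
  push Not at hcon
  have hd2 : Dfn Lvl.{u} (fun w => ¬ (w 1 ∈ w 0 ∧ Rr (w 0))) :=
    ((Dfn.mem 1 0).and (dfn_Rr 0)).not
  have h1 := (C.el.all_transfer (A := fun x v => ¬ (v 0 ∈ x ∧ Rr x)) hd2 C.mlvl C.tlvl
    (fun _ => a) (fun _ => ha)).1 (fun x hx h => hcon x hx h.1 h.2)
  refine h1 y0 hy ⟨?_, hR⟩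
  show j a ∈ y0
  rw [C.fix ha]
  exact hs ha

/-- No elementary embedding with small critical point can have a target just above `V_τ`. -/
theorem no_target {U M' : ZFSet.{u}} {i : ZFSet.{u} → ZFSet.{u}} {μ' ξ τ : Ordinal.{u}}
    (C : Crit U M' i μ' ξ) (h1 : μ' ≤ τ) (h2 : τ < ξ) (hξ : V_ ξ ⊆ U) (hR : Rr (V_ τ))
    (hmin : ∀ y ∈ U, V_ τ ∈ y → ¬ Rr y) : False := by
  have hτ : V_ τ ∈ V_ ξ := vonNeumann_mem_vonNeumann_iff.2 h2
  obtain ⟨x, hx, h3, h4⟩ := reflect C hτ hR (vonNeumann_subset_of_le h1) _ hτ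
  exact hmin x (hξ hx) h3 h4

/-- Composing embeddings. -/
theorem pr_of_embed {k r U : ZFSet.{u}} (hU : Inac U) (hrU : r ∈ U) (hr : Pr r U)
    (h : ∀ t ∈ U, Lev t → k ∈ t → ∃ M ∈ U, M.IsTransitive ∧ ∃ e ∈ U, ElS t M e ∧ pair k r ∈ e) :
    Pr k U := by
  intro t ht hlt hkt b hb
  obtain ⟨M1, hM1, hM1t, e1, he1, hE1, hkr⟩ := h t ht hlt hkt
  obtain ⟨α, hα, hω, rfl⟩ := hU.lvl
  have hul := hU.lvl
  obtain ⟨δ, hδ, hγδ, hlim, _⟩ := hU.clos (fun _ _ => True) (fun γ hγ => ⟨γ, hγ, trivial⟩)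
    (γ0 := max (max (rank M1) (rank r)) Ordinal.omega0)
    (max_lt (max_lt (mem_vonNeumann.1 hM1) (mem_vonNeumann.1 hrU)) hω)
  have h1 := (le_max_left _ _).trans_lt hγδ
  have htl : V_ δ ∈ Lvl := ⟨δ, hlim, (le_max_right _ _).trans_lt hγδ, rfl⟩
  have hM1' : M1 ∈ V_ δ := mem_vonNeumann.2 ((le_max_left _ _).trans_lt h1)
  have hr' : r ∈ V_ δ := mem_vonNeumann.2 ((le_max_right _ _).trans_lt h1)
  obtain ⟨M2, hM2, hM2t, e2, he2, hE2, w, hw, hrw, hlw, hbw⟩ :=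
    hr (V_ δ) (vonNeumann_mem_vonNeumann_iff.2 hδ) ⟨δ, rfl⟩ hr' b hb
  have E' : Emb (V_ δ) M2 (app e2) := ⟨hE2.2, htl, hM2t⟩
  have hMM : app e2 M1 ∈ M2 := E'.el.1 _ hM1'
  have hMU : app e2 M1 ∈ V_ α := (isTransitive_vonNeumann α).mem_trans hMM hM2
  have hIs : IsEl t (app e2 M1) (fun x => app e2 (app e1 x)) := hE1.2.comp (E'.restr hM1')
  have ekr : app e1 k = r := (app_iff hE1.1 hkt).1 hkr
  have erw : app e2 r = w := (app_iff hE2.1 hr').1 hrw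
  refine ⟨app e2 M1, hMU, (E'.trans_iff hM1').1 hM1t, gr t (fun x => app e2 (app e1 x)),
    Lvl_func hul ht hMU (isFunc_gr hIs.1), elS_gr hIs, w, ?_, ?_, hlw, hbw⟩
  · rw [← erw]
    refine (E'.mem_iff hr' hM1').1 ?_
    rw [← ekr]
    exact app_mem hE1.1 hkt
  · refine pair_mem_gr.2 ⟨hkt, ?_⟩
    rw [ekr, erw]

/-- The situation given by a 2-superstrong cardinal. -/
structure Two (B N : ZFSet.{u}) (j : ZFSet.{u} → ZFSet.{u}) (μ τ σ : Ordinal.{u}) : Prop where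
  C : Crit B N j μ τ
  tB : V_ τ ∈ B
  js : j (V_ τ) = V_ σ
  sl : V_ σ ∈ Lvl
  sB : V_ σ ⊆ B

namespace Two

variable {μ τ σ : Ordinal.{u}}

theorem elt (T : Two B N j μ τ σ) : IsEl (V_ τ) (V_ σ) j := by
  have := T.C.E.restr T.tB
  rwa [T.js] at this

theorem inac_tau (T : Two B N j μ τ σ) : Inac (V_ τ) := by
  have := (T.elt.t1 T.C.tlvl T.sl (A := Inac) (dfn_Inac 0) T.C.mt).1 T.C.inac
  rwa [T.C.jV] at this

/-- `V_μ` belongs to the image of every club. -/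
theorem mem_image_club (T : Two B N j μ τ σ) {D : ZFSet.{u}} (hD : D ⊆ V_ μ)
    (hc : Club D (V_ μ)) : V_ μ ∈ j D := by
  have hDt : D ∈ V_ τ := by
    rw [mem_vonNeumann]
    exact (subset_vonNeumann.1 hD).trans_lt T.C.lt
  have h1 := (T.elt.t2 T.C.tlvl T.sl (A := Club) (dfn_Club 0 1) hDt T.C.mt).1 hc
  rw [T.C.jV] at h1
  have hjd := T.C.jid hD
  refine h1.2.2 _ T.C.mt ⟨μ, rfl⟩ ?_ ?_
  · obtain ⟨d, hd, _⟩ := hc.2.1 ∅ (lvl_nonempty T.C.mlvl)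
    exact ⟨d, hjd hd, hD hd⟩
  · intro a ha
    obtain ⟨d, hd, had⟩ := hc.2.1 a ha
    exact ⟨d, hjd hd, had, hD hd⟩

theorem mah (T : Two B N j μ τ σ) : Mah (V_ μ) := by
  intro D hD hc
  have hDt : D ∈ V_ τ := by
    rw [mem_vonNeumann]
    exact (subset_vonNeumann.1 hD).trans_lt T.C.lt
  refine (T.elt.t1 T.C.tlvl T.sl (A := Hin) (dfn_Hin 0) hDt).2 ?_
  exact ⟨_, T.mem_image_club hD hc, T.C.inac⟩

theorem mah_tau (T : Two B N j μ τ σ) : Mah (V_ τ) := by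
  have := (T.elt.t1 T.C.tlvl T.sl (A := Mah) (dfn_Mah 0) T.C.mt).1 T.mah
  rwa [T.C.jV] at this

/-- A level `U` between `V_μ` and `V_τ` in which `V_μ` is large. -/
theorem exists_U (T : Two B N j μ τ σ) : ∃ U ∈ V_ τ, V_ μ ∈ U ∧ Inac U ∧ Pr (V_ μ) U := by
  have hjm := T.C.jV
  have hcl := club_Cl (T := V_ μ) T.C.E T.C.mB (by rw [hjm]; exact T.inac_tau)
    (by rw [hjm]; exact T.C.mt) (by rw [hjm]; exact T.C.mt)
  rw [hjm] at hcl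
  obtain ⟨U, hU, hUi⟩ := T.mah_tau _ sep_subset hcl
  obtain ⟨hUt, hcp⟩ := mem_sep.1 hU
  refine ⟨U, hUt, hcp.2.1, hUi, ?_⟩
  intro t ht hlt hmt b hb
  obtain ⟨w, hw, hbw, hcpw⟩ := unb hUi hcp.2.1 hcp.2.1 hcp.2.2 hb
  obtain ⟨M, hM, hMt, e, he, hE, hp⟩ := hull_set (K := V_ τ) T.C.E hjm
    (isTransitive_vonNeumann τ)
    (T.C.E.bt.mem_trans ((isTransitive_vonNeumann τ).mem_trans ht hUt) T.tB) hlt hmt
    (lvl_nonempty T.C.mlvl)
    ((isTransitive_vonNeumann τ).mem_trans hw hUt) hcpw hUi ht hw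
  refine ⟨M, hM, hMt, e, he, hE, w, ?_, hp, lvl_lev hcpw.1, hbw⟩
  exact (pair_mem_prod.1 (hE.1.1 hp)).2

theorem rr (T : Two B N j μ τ σ) : Rr (V_ μ) := by
  refine ⟨T.C.inac, fun D hD hc => ?_⟩
  have hDt : D ∈ V_ τ := by
    rw [mem_vonNeumann]
    exact (subset_vonNeumann.1 hD).trans_lt T.C.lt
  refine (T.elt.t2 T.C.tlvl T.sl (A := Hit) (dfn_Hit 0 1) hDt T.C.mt).2 ?_
  rw [T.C.jV]
  obtain ⟨U, hU, h1, h2, h3⟩ := T.exists_U
  exact ⟨_, T.mem_image_club hD hc, U, hU, h1, h2, h3⟩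

theorem rr_tau (T : Two B N j μ τ σ) : Rr (V_ τ) := by
  have := (T.elt.t1 T.C.tlvl T.sl (A := Rr) (dfn_Rr 0) T.C.mt).1 T.rr
  rwa [T.C.jV] at this

/-- The main theorem in the language of levels. -/
theorem main (T : Two B N j μ τ σ) : ∃ k ∈ V_ τ, ∃ U, V_ τ ∈ U ∧ Inac U ∧ Inac k ∧
    Pr k U ∧ ∀ y ∈ U, V_ τ ∈ y → ¬ Rr y := by
  obtain ⟨x, hx, hmx, hRx⟩ := reflect T.C T.C.mt T.rr subset_rfl _ T.C.mt
  -- a minimal such `k`
  have hmin : ∃ k ∈ V_ τ, (Rr k ∧ V_ μ ∈ k) ∧ ∀ y ∈ k, ¬ (V_ μ ∈ y ∧ Rr y) := by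
    obtain ⟨k, ⟨hk, hk1, hk2⟩, hk3⟩ := mem_wf.has_min
      {k | k ∈ V_ τ ∧ V_ μ ∈ k ∧ Rr k} ⟨x, hx, hmx, hRx⟩
    refine ⟨k, hk, ⟨hk2, hk1⟩, fun y hy h => hk3 y ⟨?_, h.1, h.2⟩ hy⟩
    exact (isTransitive_vonNeumann τ).mem_trans hy hk
  obtain ⟨k, hk, hk1, hk2⟩ := hmin
  have htr := (T.elt.t2 T.C.tlvl T.sl (A := fun k m => (Rr k ∧ m ∈ k) ∧
      ∀ y ∈ k, ¬ (m ∈ y ∧ Rr y))
      (by repeat' first
            | exact Dfn.mem _ _ | exact dfn_Rr _ | refine Dfn.and ?_ ?_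
            | refine Dfn.ball Lvl_sub_Trs _ ?_ | refine Dfn.not ?_) hk T.C.mt).1 ⟨hk1, hk2⟩
  rw [T.C.jV] at htr
  obtain ⟨⟨hRK, htK⟩, hK2⟩ := htr
  have hKs : j k ∈ V_ σ := T.elt.1 k hk
  have hkB : k ∈ B := T.C.E.bt.mem_trans hk T.tB
  have hKt : (j k).IsTransitive := hRK.1.1.trans
  have hkK : k ∈ j k := hKt.mem_trans hk htK
  have hcl := club_Cl T.C.E hkB hRK.1 hkK htK
  obtain ⟨r, hr, U, hU, hrU, hUi, hPr⟩ := hRK.2 _ sep_subset hcl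
  obtain ⟨hrK, hcp⟩ := mem_sep.1 hr
  have hUt := hUi.1.trans
  have htU : V_ τ ∈ U := hUt.mem_trans hcp.2.1 hrU
  refine ⟨k, hk, U, htU, hUi, hk1.1.1, ?_, ?_⟩
  · refine pr_of_embed hUi hrU hPr ?_
    intro t ht hlt hkt
    have htB : t ∈ B := T.sB ((isTransitive_vonNeumann σ).mem_trans (hKt.mem_trans ht hU) hKs)
    exact hull_set T.C.E rfl hKt htB hlt hkt (lvl_nonempty hk1.1.1.lvl) hrK hcp hUi ht hrU
  · intro y hy h1 h2
    exact hK2 y (hKt.mem_trans hy hU) ⟨h1, h2⟩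

end Two

end Gss969
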