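import Pool.Agent.Gss969.Elem2
import Pool.Agent.Gss969.Hull

/-!
The auxiliary large cardinal notions used in the argument, and their definability.
-/

namespace Gss969

open ZFSet

universe u

set_option linter.unusedVariables false

/-- Every level `t ∋ r` in `U` has, for each `b ∈ U`, an elementary embedding in `U` into a
transitive set sending `r` to a true level that contains `b`. -/
def Pr (r U : ZFSet.{u}) : Prop :=
  ∀ t ∈ U, Lev t → r ∈ t → ∀ b ∈ U, ∃ M ∈ U, M.IsTransitive ∧ ∃ e ∈ U, ElS t M e ∧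
    ∃ w ∈ M, pair r w ∈ e ∧ Lev w ∧ b ∈ w

/-- Inaccessible levels. -/
def Inac (U : ZFSet.{u}) : Prop :=
  Lev U ∧ (∃ W ∈ U, Inf W) ∧ ∀ a ∈ U, ∀ g, IsFunc a U g → g ∈ U

/-- Closed unbounded sets of levels. -/
def Club (D x : ZFSet.{u}) : Prop :=
  (∀ d ∈ D, d ∈ x ∧ Lev d) ∧ (∀ a ∈ x, ∃ d ∈ D, a ∈ d) ∧
    ∀ c ∈ x, Lev c → (∃ d ∈ D, d ∈ c) → (∀ a ∈ c, ∃ d ∈ D, a ∈ d ∧ d ∈ c) → c ∈ D

def Hit (D x : ZFSet.{u}) : Prop := ∃ r ∈ D, ∃ U ∈ x, r ∈ U ∧ Inac U ∧ Pr r U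

def Rr (x : ZFSet.{u}) : Prop := Inac x ∧ ∀ D, D ⊆ x → Club D x → Hit D x

def Hin (D : ZFSet.{u}) : Prop := ∃ U ∈ D, Inac U

def Mah (x : ZFSet.{u}) : Prop := ∀ D, D ⊆ x → Club D x → Hin D

theorem dfn_Pr (i l : ℕ) : Dfn Lvl.{u} (fun v => Pr (v i) (v l)) := by
  unfold Pr
  repeat' first
    | exact Dfn.mem _ _ | exact dfn_lev _ | exact dfn_trans Lvl_sub_Trs _
    | exact dfn_ElS _ _ _ | exact dfn_pm Lvl_sub_Trs _ _ _
    | refine Dfn.and ?_ ?_ | refine Dfn.ball Lvl_sub_Trs _ ?_ | refine Dfn.bex Lvl_sub_Trs _ ?_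
    | refine Dfn.imp ?_ ?_

theorem dfn_Inac (i : ℕ) : Dfn Lvl.{u} (fun v => Inac (v i)) := by
  unfold Inac
  refine Dfn.and (dfn_lev _) (Dfn.and (Dfn.bex Lvl_sub_Trs _ (dfn_inf _)) ?_)
  refine Dfn.ball Lvl_sub_Trs _ ?_
  refine Dfn.allfun _ _ ?_
  exact Dfn.mem _ _

theorem dfn_Club (i l : ℕ) : Dfn Lvl.{u} (fun v => Club (v i) (v l)) := by
  unfold Club
  repeat' first
    | exact Dfn.mem _ _ | exact dfn_lev _
    | refine Dfn.and ?_ ?_ | refine Dfn.ball Lvl_sub_Trs _ ?_ | refine Dfn.bex Lvl_sub_Trs _ ?_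
    | refine Dfn.imp ?_ ?_

theorem dfn_Hit (i l : ℕ) : Dfn Lvl.{u} (fun v => Hit (v i) (v l)) := by
  unfold Hit
  repeat' first
    | exact Dfn.mem _ _ | exact dfn_Inac _ | exact dfn_Pr _ _
    | refine Dfn.and ?_ ?_ | refine Dfn.bex Lvl_sub_Trs _ ?_

theorem dfn_Rr (i : ℕ) : Dfn Lvl.{u} (fun v => Rr (v i)) := by
  unfold Rr
  refine Dfn.and (dfn_Inac _) ?_
  refine Dfn.allsub subset_rfl _ ?_
  exact Dfn.imp (dfn_Club _ _) (dfn_Hit _ _)

theorem dfn_Hin (i : ℕ) : Dfn Lvl.{u} (fun v => Hin (v i)) := by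
  unfold Hin
  exact Dfn.bex Lvl_sub_Trs _ (dfn_Inac _)

theorem dfn_Mah (i : ℕ) : Dfn Lvl.{u} (fun v => Mah (v i)) := by
  unfold Mah
  refine Dfn.allsub subset_rfl _ ?_
  exact Dfn.imp (dfn_Club _ _) (dfn_Hin _)

/-! ### Levels and inaccessible levels -/

theorem Lev.trans {x : ZFSet.{u}} (h : Lev x) : x.IsTransitive := by
  obtain ⟨γ, rfl⟩ := h
  exact isTransitive_vonNeumann γ

theorem lvl_of_unb {γ : Ordinal.{u}} (hγ : Ordinal.omega0 < γ)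
    (h : ∀ x ∈ V_ γ, ∃ y ∈ V_ γ, x ∈ y) : V_ γ ∈ Lvl := by
  refine ⟨γ, ?_, hγ, rfl⟩
  rw [Order.isSuccLimit_iff, Order.isSuccPrelimit_iff_succ_lt]
  refine ⟨?_, ?_⟩
  · intro hm
    rw [isMin_iff_eq_bot] at hm
    rw [hm] at hγ
    exact absurd hγ (by simp)
  · intro δ hδ
    obtain ⟨y, hy, hxy⟩ := h (V_ δ) (vonNeumann_mem_vonNeumann_iff.2 hδ)
    have h1 := rank_lt_of_mem hxy
    rw [rank_vonNeumann] at h1
    exact (Order.succ_le_of_lt h1).trans_lt (mem_vonNeumann.1 hy)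

theorem omega_le_rank_of_inf {W : ZFSet.{u}} (hW : Inf W) : Ordinal.omega0 ≤ rank W := by
  obtain ⟨⟨x0, hx0, _⟩, hnext⟩ := hW
  rw [Ordinal.omega0_le]
  intro n
  have : ∃ x ∈ W, (n : Ordinal) ≤ rank x := by
    induction n with
    | zero => exact ⟨x0, hx0, by simp⟩
    | succ n ih =>
      obtain ⟨x, hx, hn⟩ := ih
      obtain ⟨y, hy, hxy⟩ := hnext x hx
      refine ⟨y, hy, ?_⟩
      have := rank_lt_of_mem hxy
      push_cast
      exact (Order.add_one_le_of_lt (hn.trans_lt this))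
  obtain ⟨x, hx, hn⟩ := this
  exact (hn.trans_lt (rank_lt_of_mem hx)).le

theorem Inac.lvl {U : ZFSet.{u}} (h : Inac U) : U ∈ Lvl := by
  obtain ⟨⟨γ, rfl⟩, ⟨W, hWU, hW⟩, hg⟩ := h
  have hω : Ordinal.omega0 < γ := (omega_le_rank_of_inf hW).trans_lt (mem_vonNeumann.1 hWU)
  refine lvl_of_unb hω fun x hx => ?_
  have h0 : ({∅} : ZFSet.{u}) ∈ V_ γ := by
    rw [mem_vonNeumann, rank_singleton, rank_empty]
    refine lt_trans ?_ hω
    simp
  have hF : IsFunc {∅} (V_ γ) (gr {∅} (fun _ => x)) := isFunc_gr fun _ _ => hx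
  have h1 := hg _ h0 _ hF
  have h2 : pair ∅ x ∈ gr ({∅} : ZFSet.{u}) (fun _ => x) := pair_mem_gr.2 ⟨by simp, rfl⟩
  have h3 : pair ∅ x ∈ V_ γ := (isTransitive_vonNeumann γ).mem_trans h2 h1
  have h4 : ({∅, x} : ZFSet.{u}) ∈ V_ γ :=
    (isTransitive_vonNeumann γ).mem_trans (by simp [pair]) h3
  exact ⟨_, h4, by simp⟩

theorem Inac.repl {U : ZFSet.{u}} (h : Inac U) : Repl U := by
  intro a ha F hF
  have hl := h.lvl
  have hG : gr a F ∈ U := h.2.2 a ha _ (isFunc_gr hF)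
  refine ⟨ZFSet.range (fun x : {x // x ∈ a} => F x.1), ?_, fun y => ?_⟩
  · obtain ⟨δ, hδ, _, rfl⟩ := hl
    rw [mem_vonNeumann] at *
    refine lt_of_le_of_lt ?_ hG
    refine le_trans (rank_mono ?_) ((rank_sUnion_le _).trans (rank_sUnion_le (gr a F)))
    intro y hy
    rw [ZFSet.mem_range] at hy
    obtain ⟨⟨x, hx⟩, rfl⟩ := hy
    refine mem_sUnion.2 ⟨{x, F x}, mem_sUnion.2 ⟨pair x (F x), pair_mem_gr.2 ⟨hx, rfl⟩, ?_⟩, ?_⟩
    · simp [pair]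
    · simp
  · rw [ZFSet.mem_range]
    constructor
    · rintro ⟨⟨x, hx⟩, rfl⟩
      exact ⟨x, hx, rfl⟩
    · rintro ⟨x, hx, rfl⟩
      exact ⟨⟨x, hx⟩, rfl⟩

/-- Closure points in an inaccessible level. -/
theorem Inac.clos {α : Ordinal.{u}} (h : Inac (V_ α)) (Q : Ordinal.{u} → Ordinal.{u} → Prop)
    (hQ : ∀ γ < α, ∃ γ' < α, Q γ γ') {γ0 : Ordinal.{u}} (h0 : γ0 < α) :
    ∃ δ < α, γ0 < δ ∧ Order.IsSuccLimit δ ∧
      ∀ ε < δ, ∃ ε' < δ, ε ≤ ε' ∧ ∃ ε'' < δ, Q ε' ε'' := by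
  classical
  obtain ⟨δ', hlim, hω, hδ'⟩ := h.lvl
  rw [vonNeumann_inj] at hδ'
  subst hδ'
  choose! g hg hg' using hQ
  let nx : Ordinal.{u} → Ordinal.{u} := fun γ => Order.succ (max γ (g γ))
  have hnx : ∀ γ < α, nx γ < α := fun γ hγ => hlim.succ_lt (max_lt hγ (hg γ hγ))
  let s : ℕ → Ordinal.{u} := fun n => nx^[n] (Order.succ γ0)
  have hs : ∀ n, s n < α := by
    intro n
    induction n with
    | zero => exact hlim.succ_lt h0
    | succ n ih =>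
      show nx^[n + 1] _ < α
      rw [Function.iterate_succ_apply']
      exact hnx _ ih
  have hss : ∀ n, s (n + 1) = nx (s n) := fun n => Function.iterate_succ_apply' _ _ _
  have hlt : ∀ n, s n < s (n + 1) := fun n => by
    rw [hss]; exact Order.lt_succ_of_le (le_max_left _ _)
  have hlt' : ∀ n, g (s n) < s (n + 1) := fun n => by
    rw [hss]; exact Order.lt_succ_of_le (le_max_right _ _)
  -- the sequence is bounded
  have hbd : ∃ β < α, ∀ n, s n < β := by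
    have key : ∃ F : ZFSet.{u} → ZFSet.{u}, ∀ n, F (nt n) = V_ (s n) := by
      refine ⟨fun x => if hx : ∃ n, x = nt n then V_ (s hx.choose) else ∅, fun n => ?_⟩
      have hx : ∃ m, nt.{u} n = nt m := ⟨n, rfl⟩
      simp only
      rw [dif_pos hx]
      have := nt_inj.1 hx.choose_spec
      rw [← this]
    obtain ⟨F, hF⟩ := key
    obtain ⟨b, hb, hb'⟩ := h.repl om (om_mem_Lvl h.lvl) F (by
      intro x hx
      obtain ⟨n, rfl⟩ := mem_om.1 hx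
      rw [hF]
      exact vonNeumann_mem_vonNeumann_iff.2 (hs n))
    refine ⟨rank b, mem_vonNeumann.1 hb, fun n => ?_⟩
    have : V_ (s n) ∈ b := (hb' _).2 ⟨nt n, nt_mem n, hF n⟩
    have := rank_lt_of_mem this
    rwa [rank_vonNeumann] at this
  obtain ⟨β, hβ, hsβ⟩ := hbd
  refine ⟨⨆ n, s n, lt_of_le_of_lt (Ordinal.iSup_le fun n => (hsβ n).le) hβ, ?_, ?_, ?_⟩
  · refine lt_of_lt_of_le (Order.lt_succ γ0) (Ordinal.le_iSup s 0)
  · rw [Order.isSuccLimit_iff, Order.isSuccPrelimit_iff_succ_lt]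
    refine ⟨?_, ?_⟩
    · intro hm
      rw [isMin_iff_eq_bot] at hm
      have : s 0 < ⨆ n, s n := (hlt 0).trans_le (Ordinal.le_iSup s 1)
      rw [hm] at this
      exact absurd this (by simp)
    · intro ε hε
      rw [Ordinal.lt_iSup_iff] at hε ⊢
      obtain ⟨n, hn⟩ := hε
      exact ⟨n + 1, (Order.succ_le_of_lt hn).trans_lt (hlt n)⟩
  · intro ε hε
    rw [Ordinal.lt_iSup_iff] at hε
    obtain ⟨n, hn⟩ := hε
    exact ⟨s n, (hlt n).trans_le (Ordinal.le_iSup s (n + 1)), hn.le, g (s n),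
      (hlt' n).trans_le (Ordinal.le_iSup s (n + 1)), hg' _ (hs n)⟩

end Gss969
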