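import Pool.Agent.Gss969.Base

/-!
Definability of basic set-theoretic relations.
-/

namespace Gss969

open ZFSet

universe u

set_option linter.unusedVariables false

variable {𝒰 : Set ZFSet.{u}}

theorem up_iff (c a b : ZFSet.{u}) :
    c = ({a, b} : ZFSet.{u}) ↔ a ∈ c ∧ b ∈ c ∧ ∀ d ∈ c, d = a ∨ d = b := by
  constructor
  · rintro rfl
    simp
  · rintro ⟨h1, h2, h3⟩
    ext z
    simp only [mem_pair]
    constructor
    · exact h3 z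
    · rintro (rfl | rfl) <;> assumption

theorem dfn_up (ht : 𝒰 ⊆ Trs) (i j k : ℕ) :
    Dfn 𝒰 (fun v => v i = ({v j, v k} : ZFSet.{u})) := by
  refine Dfn.congr (A := fun v => v j ∈ v i ∧ v k ∈ v i ∧ ∀ d ∈ v i, d = v j ∨ d = v k) ?_
    fun v => (up_iff _ _ _).symm
  repeat' first
    | exact Dfn.mem _ _ | exact Dfn.eq _ _ | refine Dfn.and ?_ ?_ | refine Dfn.or ?_ ?_
    | refine Dfn.ball ht _ ?_

theorem pair_iff (x a b : ZFSet.{u}) :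
    x = pair a b ↔ (∃ c ∈ x, c = ({a, a} : ZFSet.{u})) ∧ (∃ c ∈ x, c = ({a, b} : ZFSet.{u})) ∧
      ∀ c ∈ x, c = ({a, a} : ZFSet.{u}) ∨ c = ({a, b} : ZFSet.{u}) := by
  have e : ({a, a} : ZFSet.{u}) = {a} := by ext z; simp
  rw [e]
  unfold pair
  rw [up_iff x {a} {a, b}]
  constructor
  · rintro ⟨h1, h2, h3⟩
    exact ⟨⟨_, h1, rfl⟩, ⟨_, h2, rfl⟩, h3⟩
  · rintro ⟨⟨_, h1, rfl⟩, ⟨_, h2, rfl⟩, h3⟩
    exact ⟨h1, h2, h3⟩

theorem dfn_pair (ht : 𝒰 ⊆ Trs) (i j k : ℕ) :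
    Dfn 𝒰 (fun v => v i = pair (v j) (v k)) := by
  refine Dfn.congr (A := fun v => (∃ c ∈ v i, c = ({v j, v j} : ZFSet.{u})) ∧
    (∃ c ∈ v i, c = ({v j, v k} : ZFSet.{u})) ∧
      ∀ c ∈ v i, c = ({v j, v j} : ZFSet.{u}) ∨ c = ({v j, v k} : ZFSet.{u})) ?_
    fun v => (pair_iff _ _ _).symm
  repeat' first
    | exact dfn_up ht _ _ _ | refine Dfn.and ?_ ?_ | refine Dfn.or ?_ ?_
    | refine Dfn.ball ht _ ?_ | refine Dfn.bex ht _ ?_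

theorem dfn_pm (ht : 𝒰 ⊆ Trs) (i j k : ℕ) :
    Dfn 𝒰 (fun v => pair (v i) (v j) ∈ v k) := by
  refine Dfn.congr (A := fun v => ∃ p ∈ v k, p = pair (v i) (v j)) ?_
    fun v => by simp
  refine Dfn.bex ht _ ?_
  exact dfn_pair ht 0 (i + 1) (j + 1)

theorem dfn_sub (ht : 𝒰 ⊆ Trs) (i j : ℕ) : Dfn 𝒰 (fun v => v i ⊆ v j) := by
  refine Dfn.congr (A := fun v => ∀ y ∈ v i, y ∈ v j) ?_ fun v => Iff.rfl
  refine Dfn.ball ht _ ?_
  exact Dfn.mem 0 (j + 1)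

theorem dfn_trans (ht : 𝒰 ⊆ Trs) (i : ℕ) : Dfn 𝒰 (fun v => (v i).IsTransitive) := by
  refine Dfn.congr (A := fun v => ∀ y ∈ v i, y ⊆ v i) ?_ fun v => Iff.rfl
  refine Dfn.ball ht _ ?_
  exact dfn_sub ht 0 (i + 1)

theorem isFunc_iff (d t f : ZFSet.{u}) : IsFunc d t f ↔
    (∀ p ∈ f, ∃ a ∈ d, ∃ b ∈ t, p = pair a b) ∧
      ∀ z ∈ d, ∃ w ∈ t, pair z w ∈ f ∧ ∀ w' ∈ t, pair z w' ∈ f → w' = w := by
  unfold IsFunc
  constructor
  · rintro ⟨h1, h2⟩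
    refine ⟨fun p hp => by simpa using h1 hp, fun z hz => ?_⟩
    obtain ⟨w, hw, hw'⟩ := h2 z hz
    refine ⟨w, (pair_mem_prod.1 (h1 hw)).2, hw, fun w' _ h => hw' w' h⟩
  · rintro ⟨h1, h2⟩
    refine ⟨fun p hp => by simpa using h1 p hp, fun z hz => ?_⟩
    obtain ⟨w, hw, hw', h3⟩ := h2 z hz
    refine ⟨w, hw', fun w' h => h3 w' ?_ h⟩
    obtain ⟨a, ha, b, hb, e⟩ := h1 _ h
    rw [pair_inj] at e
    exact e.2 ▸ hb

theorem dfn_isFunc (ht : 𝒰 ⊆ Trs) (i j k : ℕ) :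
    Dfn 𝒰 (fun v => IsFunc (v i) (v j) (v k)) := by
  refine Dfn.congr (A := fun v => (∀ p ∈ v k, ∃ a ∈ v i, ∃ b ∈ v j, p = pair a b) ∧
      ∀ z ∈ v i, ∃ w ∈ v j, pair z w ∈ v k ∧ ∀ w' ∈ v j, pair z w' ∈ v k → w' = w) ?_
    fun v => (isFunc_iff _ _ _).symm
  repeat' first
    | exact Dfn.mem _ _ | exact Dfn.eq _ _ | exact dfn_pair ht _ _ _ | exact dfn_pm ht _ _ _
    | refine Dfn.and ?_ ?_ | refine Dfn.or ?_ ?_
    | refine Dfn.ball ht _ ?_ | refine Dfn.bex ht _ ?_ | refine Dfn.imp ?_ ?_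

/-- Value of a function given by its graph. -/
noncomputable def app (f x : ZFSet.{u}) : ZFSet.{u} :=
  by classical exact if h : ∃ w, pair x w ∈ f then h.choose else ∅

theorem app_spec {d t f x : ZFSet.{u}} (hf : IsFunc d t f) (hx : x ∈ d) :
    pair x (app f x) ∈ f := by
  have h : ∃ w, pair x w ∈ f := (hf.2 x hx).exists
  unfold app
  rw [dif_pos h]
  exact h.choose_spec

theorem app_mem {d t f x : ZFSet.{u}} (hf : IsFunc d t f) (hx : x ∈ d) : app f x ∈ t :=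
  (pair_mem_prod.1 (hf.1 (app_spec hf hx))).2

theorem app_iff {d t f x w : ZFSet.{u}} (hf : IsFunc d t f) (hx : x ∈ d) :
    pair x w ∈ f ↔ app f x = w :=
  ⟨fun h => (hf.2 x hx).unique (app_spec hf hx) h, fun h => h ▸ app_spec hf hx⟩

/-- The graph of a Lean function on a set. -/
noncomputable def gr (d : ZFSet.{u}) (g : ZFSet.{u} → ZFSet.{u}) : ZFSet.{u} :=
  ZFSet.range (fun x : {x // x ∈ d} => pair x.1 (g x.1))

theorem mem_gr {d p : ZFSet.{u}} {g : ZFSet.{u} → ZFSet.{u}} :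
    p ∈ gr d g ↔ ∃ x ∈ d, pair x (g x) = p := by
  simp [gr]

theorem pair_mem_gr {d x y : ZFSet.{u}} {g : ZFSet.{u} → ZFSet.{u}} :
    pair x y ∈ gr d g ↔ x ∈ d ∧ g x = y := by
  rw [mem_gr]
  constructor
  · rintro ⟨z, hz, e⟩
    rw [pair_inj] at e
    obtain ⟨rfl, rfl⟩ := e
    exact ⟨hz, rfl⟩
  · rintro ⟨h, rfl⟩
    exact ⟨x, h, rfl⟩

theorem isFunc_gr {d t : ZFSet.{u}} {g : ZFSet.{u} → ZFSet.{u}} (h : ∀ x ∈ d, g x ∈ t) :
    IsFunc d t (gr d g) := by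
  constructor
  · intro p hp
    obtain ⟨x, hx, rfl⟩ := mem_gr.1 hp
    exact pair_mem_prod.2 ⟨hx, h x hx⟩
  · intro z hz
    exact ⟨g z, pair_mem_gr.2 ⟨hz, rfl⟩, fun w hw => (pair_mem_gr.1 hw).2.symm⟩

theorem app_gr {d x : ZFSet.{u}} {g : ZFSet.{u} → ZFSet.{u}} (hx : x ∈ d) :
    app (gr d g) x = g x := by
  have h : IsFunc d (ZFSet.range (fun x : {x // x ∈ d} => g x.1)) (gr d g) :=
    isFunc_gr fun x hx => by simpa using ⟨x, hx, rfl⟩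
  exact (app_iff h hx).1 (pair_mem_gr.2 ⟨hx, rfl⟩)

theorem func_ext {d t t' f g : ZFSet.{u}} (hf : IsFunc d t f) (hg : IsFunc d t' g)
    (h : ∀ x ∈ d, app f x = app g x) : f = g := by
  have aux : ∀ {t t' f g : ZFSet.{u}}, IsFunc d t f → IsFunc d t' g →
      (∀ x ∈ d, app f x = app g x) → f ⊆ g := by
    intro t t' f g hf hg h p hp
    obtain ⟨a, ha, b, hb, rfl⟩ := mem_prod.1 (hf.1 hp)
    rw [app_iff hf ha] at hp
    rw [app_iff hg ha, ← h a ha, hp]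
  exact _root_.subset_antisymm (aux hf hg h) (aux hg hf fun x hx => (h x hx).symm)

end Gss969
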