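import Pool.Agent.Gss969.Final

/-!
The least `Ψ_gss`-large cardinal of the model: preparations.
-/

namespace Gss969

open ZFSet

universe u

set_option linter.unusedVariables false

/-- Relations definable over every level `V_δ` by one formula whose quantifiers may range over
the whole level. -/
def DfU (A : ZFSet.{u} → (ℕ → ZFSet.{u}) → Prop) : Prop :=
  ∀ f : ℕ → ℕ, (Set.range f)ᶜ.Infinite → ∃ φ : Fml, ∀ U ∈ Lvl.{u}, ∀ s : ℕ → ZFSet.{u},
    (∀ i, s i ∈ U) → (Sat U s φ ↔ A U (fun i => s (f i)))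

theorem DfU.of {A : (ℕ → ZFSet.{u}) → Prop} (h : Dfn Lvl A) : DfU (fun _ v => A v) :=
  fun f hf => h f hf

theorem DfU.not {A : ZFSet.{u} → (ℕ → ZFSet.{u}) → Prop} (h : DfU A) :
    DfU (fun U v => ¬ A U v) := by
  intro f hf
  obtain ⟨φ, hφ⟩ := h f hf
  exact ⟨.neg φ, fun U hU s hs => not_congr (hφ U hU s hs)⟩

theorem DfU.and {A B : ZFSet.{u} → (ℕ → ZFSet.{u}) → Prop} (h : DfU A) (h' : DfU B) :
    DfU (fun U v => A U v ∧ B U v) := by
  intro f hf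
  obtain ⟨φ, hφ⟩ := h f hf
  obtain ⟨ψ, hψ⟩ := h' f hf
  exact ⟨.and φ ψ, fun U hU s hs => and_congr (hφ U hU s hs) (hψ U hU s hs)⟩

theorem DfU.congr {A B : ZFSet.{u} → (ℕ → ZFSet.{u}) → Prop} (h : DfU A)
    (e : ∀ U v, A U v ↔ B U v) : DfU B := by
  have : A = B := by ext U v; exact e U v
  exact this ▸ h

theorem DfU.imp {A B : ZFSet.{u} → (ℕ → ZFSet.{u}) → Prop} (h : DfU A) (h' : DfU B) :
    DfU (fun U v => A U v → B U v) :=
  ((h.and h'.not).not).congr fun U v => by tauto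

theorem DfU.ex {A : ZFSet.{u} → ZFSet.{u} → (ℕ → ZFSet.{u}) → Prop}
    (h : DfU (fun U w => A U (w 0) (fun n => w (n + 1)))) :
    DfU (fun U v => ∃ a ∈ U, A U a v) := by
  intro f hf
  obtain ⟨k, hk⟩ := hf.nonempty
  have hk' : ∀ n, f n ≠ k := fun n hn => hk ⟨n, hn⟩
  let f' : ℕ → ℕ := fun n => Nat.casesOn n k f
  have hf' : (Set.range f')ᶜ.Infinite := by
    have : (Set.range f)ᶜ \ {k} ⊆ (Set.range f')ᶜ := by
      rintro x ⟨hx, hx'⟩ ⟨n, rfl⟩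
      cases n with
      | zero => exact hx' rfl
      | succ n => exact hx ⟨n, rfl⟩
    exact (hf.sdiff (Set.finite_singleton k)).mono this
  obtain ⟨φ, hφ⟩ := h f' hf'
  refine ⟨.ex k φ, fun U hU s hs => ?_⟩
  have key : ∀ a ∈ U, (Sat U (Function.update s k a) φ ↔ A U a (fun i => s (f i))) := by
    intro a ha
    have hs' : ∀ i, Function.update s k a i ∈ U := by
      intro i
      by_cases hi : i = k
      · subst hi; simpa using ha
      · simpa [hi] using hs i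
    refine (hφ U hU _ hs').trans ?_
    have e1 : Function.update s k a (f' 0) = a := by simp [f']
    have e2 : (fun n => Function.update s k a (f' (n + 1))) = fun i => s (f i) := by
      funext n
      simp [f', Function.update_of_ne (hk' n)]
    show A U (Function.update s k a (f' 0)) (fun n => Function.update s k a (f' (n + 1))) ↔ _
    rw [e1, e2]
  constructor
  · rintro ⟨a, ha, h1⟩
    exact ⟨a, ha, (key a ha).1 h1⟩
  · rintro ⟨a, ha, h1⟩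
    exact ⟨a, ha, (key a ha).2 h1⟩

theorem DfU.all {A : ZFSet.{u} → ZFSet.{u} → (ℕ → ZFSet.{u}) → Prop}
    (h : DfU (fun U w => A U (w 0) (fun n => w (n + 1)))) :
    DfU (fun U v => ∀ a ∈ U, A U a v) :=
  ((DfU.ex (A := fun U a v => ¬ A U a v) h.not).not).congr fun U v => by
    push Not; exact Iff.rfl

/-- Quantifiers bounded by an element, inside a relation with unbounded quantifiers. -/
theorem DfU.ball (i : ℕ) {A : ZFSet.{u} → ZFSet.{u} → (ℕ → ZFSet.{u}) → Prop}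
    (h : DfU (fun U w => A U (w 0) (fun n => w (n + 1)))) :
    DfU (fun U v => ∀ a ∈ U, a ∈ v i → A U a v) :=
  DfU.all (A := fun U a v => a ∈ v i → A U a v)
    (DfU.imp (DfU.of (Dfn.mem 0 (i + 1))) h)

theorem IsEl.transferU {M N : ZFSet.{u}} {j : ZFSet.{u} → ZFSet.{u}}
    (h : IsEl M N j) {A : ZFSet.{u} → (ℕ → ZFSet.{u}) → Prop} (hA : DfU A) (hM : M ∈ Lvl)
    (hN : N ∈ Lvl) (v : ℕ → ZFSet.{u}) (hv : ∀ i, v i ∈ M) : A M v ↔ A N (fun i => j (v i)) := by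
  have hinf : (Set.range (fun n : ℕ => 2 * n))ᶜ.Infinite := by
    refine Set.infinite_of_injective_forall_mem (f := fun n : ℕ => 2 * n + 1) ?_ ?_
    · intro a b hab; simpa using hab
    · rintro n ⟨m, hm⟩
      simp only at hm
      omega
  obtain ⟨φ, hφ⟩ := hA _ hinf
  have e : ∀ i, (2 * i) / 2 = i := fun i => by omega
  have h1 := hφ M hM (fun n => v (n / 2)) (fun i => hv _)
  have h2 := hφ N hN (fun n => j (v (n / 2))) (fun i => h.1 _ (hv _))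
  simp only [e] at h1 h2
  rw [← h1, ← h2]
  exact h.2 φ _ (fun i => hv _)

theorem IsEl.u0 {M N : ZFSet.{u}} {j : ZFSet.{u} → ZFSet.{u}} (h : IsEl M N j)
    {A : ZFSet.{u} → Prop} (hA : DfU (fun U _ => A U)) (hM : M ∈ Lvl) (hN : N ∈ Lvl) :
    A M ↔ A N :=
  h.transferU hA hM hN (fun _ => ∅) (fun _ => lvl_nonempty hM)

theorem IsEl.u1 {M N : ZFSet.{u}} {j : ZFSet.{u} → ZFSet.{u}} (h : IsEl M N j)
    {A : ZFSet.{u} → ZFSet.{u} → Prop} (hA : DfU (fun U v => A U (v 0))) (hM : M ∈ Lvl)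
    (hN : N ∈ Lvl) {a : ZFSet.{u}} (ha : a ∈ M) : A M a ↔ A N (j a) :=
  h.transferU hA hM hN (fun _ => a) (fun _ => ha)

theorem dfu_Pr (i : ℕ) : DfU.{u} (fun U v => Pr (v i) U) := by
  unfold Pr
  refine DfU.all ?_
  refine DfU.imp (DfU.of (dfn_lev _)) (DfU.imp (DfU.of (Dfn.mem _ _)) ?_)
  refine DfU.all ?_
  refine DfU.ex ?_
  refine DfU.and (DfU.of (dfn_trans Lvl_sub_Trs _)) ?_
  refine DfU.ex ?_
  refine DfU.of ?_
  repeat' first
    | exact Dfn.mem _ _ | exact dfn_lev _ | exact dfn_trans Lvl_sub_Trs _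
    | exact dfn_ElS _ _ _ | exact dfn_pm Lvl_sub_Trs _ _ _
    | refine Dfn.and ?_ ?_ | refine Dfn.bex Lvl_sub_Trs _ ?_

/-- `y` is the least level that is large in `U`. -/
def Lst (y U : ZFSet.{u}) : Prop := Lev y ∧ Pr y U ∧ ∀ z ∈ y, Lev z → ¬ Pr z U

theorem dfn_Lst (i l : ℕ) : Dfn Lvl.{u} (fun v => Lst (v i) (v l)) := by
  unfold Lst
  repeat' first
    | exact dfn_lev _ | exact dfn_Pr _ _ | refine Dfn.not ?_
    | refine Dfn.and ?_ ?_ | refine Dfn.imp ?_ ?_ | refine Dfn.ball Lvl_sub_Trs _ ?_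

theorem DfU.congr' {A B : ZFSet.{u} → (ℕ → ZFSet.{u}) → Prop} (h : DfU A)
    (e : ∀ U ∈ Lvl.{u}, ∀ v : ℕ → ZFSet.{u}, (∀ i, v i ∈ U) → (A U v ↔ B U v)) : DfU B := by
  intro f hf
  obtain ⟨φ, hφ⟩ := h f hf
  refine ⟨φ, fun U hU s hs => ?_⟩
  rw [hφ U hU s hs, e U hU _ (fun i => hs _)]

theorem dfu_Lst (i : ℕ) : DfU.{u} (fun U v => Lst (v i) U) := by
  refine DfU.congr' (A := fun U v => Lev (v i) ∧ Pr (v i) U ∧
    ∀ z ∈ U, z ∈ v i → Lev z → ¬ Pr z U) ?_ ?_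
  · refine DfU.and (DfU.of (dfn_lev _)) (DfU.and (dfu_Pr _) ?_)
    refine DfU.ball i (A := fun U z v => Lev z → ¬ Pr z U) ?_
    exact DfU.imp (DfU.of (dfn_lev 0)) (dfu_Pr 0).not
  · intro U hU v hv
    unfold Lst
    refine and_congr_right fun _ => and_congr_right fun _ => ?_
    exact ⟨fun h z hz => h z ((Lvl_sub_Trs hU).mem_trans hz (hv i)) hz, fun h z _ hz => h z hz⟩

/-- `m` is the largest `R`-level in `U`. -/
def LgR (m U : ZFSet.{u}) : Prop := Rr m ∧ ∀ y ∈ U, m ∈ y → ¬ Rr y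

theorem dfu_LgR (i : ℕ) : DfU.{u} (fun U v => LgR (v i) U) := by
  unfold LgR
  refine DfU.and (DfU.of (dfn_Rr _)) ?_
  refine DfU.all (A := fun U y v => v i ∈ y → ¬ Rr y) ?_
  exact DfU.imp (DfU.of (Dfn.mem _ _)) (DfU.of (dfn_Rr 0)).not

/-! ### Good embeddings -/

/-- `e ∈ U` is an elementary embedding of the level `t` into the transitive set `M`, sending `K`
to the true level `w`. -/
structure Gd (U K t M e w : ZFSet.{u}) : Prop where
  tU : t ∈ U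
  tl : t ∈ Lvl
  Kt : K ∈ t
  MU : M ∈ U
  Mt : M.IsTransitive
  eU : e ∈ U
  el : ElS t M e
  wM : w ∈ M
  pw : pair K w ∈ e
  lw : Lev w

namespace Gd

variable {U K t M e w : ZFSet.{u}}

theorem E (G : Gd U K t M e w) : Emb t M (app e) := ⟨G.el.2, G.tl, G.Mt⟩

theorem eK (G : Gd U K t M e w) : app e K = w := (app_iff G.el.1 G.Kt).1 G.pw

theorem elK (G : Gd U K t M e w) : IsEl K w (app e) := by
  have := G.E.restr G.Kt
  rwa [G.eK] at this

theorem wsub (G : Gd U K t M e w) : w ⊆ M := G.Mt.subset_of_mem G.wM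

theorem img {κ γ : Ordinal.{u}} (G : Gd U (V_ κ) t M e w) (hγ : γ < κ) :
    ∃ ρ : Ordinal.{u}, app e (V_ γ) = V_ ρ ∧ V_ ρ ∈ w := by
  have hγK : V_ γ ∈ V_ κ := vonNeumann_mem_vonNeumann_iff.2 hγ
  have hγt : V_ γ ∈ t := G.E.bt.mem_trans hγK G.Kt
  have hoK : γ.toZFSet ∈ V_ κ := by
    rw [mem_vonNeumann, Ordinal.rank_toZFSet]; exact hγ
  have h := (G.E.jV hγt).2
  have how : app e γ.toZFSet ∈ w := G.elK.1 _ hoK
  obtain ⟨η, hη⟩ := G.lw
  refine ⟨rank (app e γ.toZFSet), ?_, ?_⟩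
  · ext x
    rw [h]
    refine ⟨fun h => h.1, fun h' => ⟨h', G.wsub ?_⟩⟩
    rw [hη] at how ⊢
    exact vonNeumann_subset_of_le (mem_vonNeumann.1 how).le h'
  · rw [hη] at how ⊢
    exact vonNeumann_mem_vonNeumann_iff.2 (mem_vonNeumann.1 how)

end Gd

theorem inac_lim {α : Ordinal.{u}} (h : Inac (V_ α)) :
    Order.IsSuccLimit α ∧ Ordinal.omega0 < α := by
  obtain ⟨α', h1, h2, h3⟩ := h.lvl
  rw [vonNeumann_inj] at h3
  exact h3 ▸ ⟨h1, h2⟩

/-- Arbitrarily high limit levels in an inaccessible level. -/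
theorem Inac.lvl_above {α : Ordinal.{u}} (h : Inac (V_ α)) {a : ZFSet.{u}} (ha : a ∈ V_ α) :
    ∃ t ∈ V_ α, t ∈ Lvl ∧ a ∈ t := by
  obtain ⟨hl, hω⟩ := inac_lim h
  obtain ⟨δ, hδ, hγδ, hlim, _⟩ := h.clos (fun _ _ => True) (fun γ hγ => ⟨γ, hγ, trivial⟩)
    (γ0 := max (rank a) Ordinal.omega0) (max_lt (mem_vonNeumann.1 ha) hω)
  refine ⟨V_ δ, vonNeumann_mem_vonNeumann_iff.2 hδ, ⟨δ, hlim, (le_max_right _ _).trans_lt hγδ, rfl⟩,
    mem_vonNeumann.2 ((le_max_left _ _).trans_lt hγδ)⟩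

/-- The situation: `K = V_κ` is the least large level in the inaccessible level `U = V_α`. -/
structure Sit (α κ : Ordinal.{u}) : Prop where
  hU : Inac (V_ α)
  hκ : κ < α
  hP : Pr (V_ κ) (V_ α)
  hmin : ∀ γ < κ, ¬ Pr (V_ γ) (V_ α)

namespace Sit

variable {α κ : Ordinal.{u}}

theorem KU (S : Sit α κ) : V_ κ ∈ V_ α := vonNeumann_mem_vonNeumann_iff.2 S.hκ

theorem Ut (S : Sit α κ) : (V_ α).IsTransitive := isTransitive_vonNeumann α

theorem get (S : Sit α κ) {a b : ZFSet.{u}} (ha : a ∈ V_ α) (hb : b ∈ V_ α) :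
    ∃ t M e w, Gd (V_ α) (V_ κ) t M e w ∧ a ∈ t ∧ b ∈ w := by
  obtain ⟨t, ht, htl, hat⟩ := S.hU.lvl_above (Lvl_pair S.hU.lvl ha S.KU)
  have htt := Lvl_sub_Trs htl
  have hup : ({a, V_ κ} : ZFSet.{u}) ∈ t := htt.mem_trans (by simp [pair]) hat
  have hKt : V_ κ ∈ t := htt.mem_trans (by simp) hup
  have hat' : a ∈ t := htt.mem_trans (by simp) hup
  obtain ⟨M, hM, hMt, e, he, hE, w, hw, hpw, hlw, hbw⟩ := S.hP t ht (lvl_lev htl) hKt b hb
  exact ⟨t, M, e, w, ⟨ht, htl, hKt, hM, hMt, he, hE, hw, hpw, hlw⟩, hat', hbw⟩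

/-- A bound for the images of the smaller levels. -/
theorem bound (S : Sit α κ) : ∃ c ∈ V_ α, c ∈ Lvl ∧ V_ κ ∈ c ∧
    ∀ t M e w, Gd (V_ α) (V_ κ) t M e w → c ∈ t → ∀ γ < κ, app e (V_ γ) ∈ c := by
  classical
  have h1 : ∀ γ < κ, ∃ t ∈ V_ α, Lev t ∧ V_ γ ∈ t ∧ ∃ b ∈ V_ α, ∀ M ∈ V_ α, M.IsTransitive →
      ∀ e ∈ V_ α, ElS t M e → ∀ w ∈ M, pair (V_ γ) w ∈ e → Lev w → b ∉ w := by
    intro γ hγ
    have := S.hmin γ hγ
    unfold Pr at this
    push Not at this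
    obtain ⟨t, h1, h2, h3, b, h4, h5⟩ := this
    exact ⟨t, h1, h2, h3, b, h4, h5⟩
  choose! T hTU hTl hγT b hbU hb using h1
  obtain ⟨B, hB, hB'⟩ := S.hU.repl (V_ κ) S.KU (fun x => pair (T (rank x)) (b (rank x)))
    (fun x hx => Lvl_pair S.hU.lvl (hTU _ (mem_vonNeumann.1 hx)) (hbU _ (mem_vonNeumann.1 hx)))
  obtain ⟨c, hc, hcl, hBc⟩ := S.hU.lvl_above (Lvl_pair S.hU.lvl hB S.KU)
  have hct := Lvl_sub_Trs hcl
  have hup : ({B, V_ κ} : ZFSet.{u}) ∈ c := hct.mem_trans (by simp [pair]) hBc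
  have hKc : V_ κ ∈ c := hct.mem_trans (by simp) hup
  have hBc' : B ∈ c := hct.mem_trans (by simp) hup
  have hTb : ∀ γ < κ, T γ ∈ c ∧ b γ ∈ c := by
    intro γ hγ
    have h2 : pair (T γ) (b γ) ∈ B :=
      (hB' _).2 ⟨V_ γ, vonNeumann_mem_vonNeumann_iff.2 hγ, by rw [rank_vonNeumann]⟩
    have h3 : ({T γ, b γ} : ZFSet.{u}) ∈ c :=
      hct.mem_trans (by simp [pair]) (hct.mem_trans h2 hBc')
    exact ⟨hct.mem_trans (by simp) h3, hct.mem_trans (by simp) h3⟩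
  refine ⟨c, hc, hcl, hKc, fun t M e w G hct' γ hγ => ?_⟩
  obtain ⟨ρ, hρ, hρw⟩ := G.img hγ
  have hTt : T γ ∈ t := G.E.bt.mem_trans (hTb γ hγ).1 hct'
  have hMM : app e (T γ) ∈ M := G.E.el.1 _ hTt
  have hMU : app e (T γ) ∈ V_ α := S.Ut.mem_trans hMM G.MU
  have hIs : IsEl (T γ) (app e (T γ)) (app e) := G.E.restr hTt
  have hγt : V_ γ ∈ t := G.E.bt.mem_trans (hγT γ hγ) hTt
  have key := hb γ hγ (app e (T γ)) hMU ((G.E.trans_iff hTt).1 (hTl γ hγ).trans)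
    (gr (T γ) (app e)) (Lvl_func S.hU.lvl (hTU γ hγ) hMU (isFunc_gr hIs.1)) (elS_gr hIs)
    (V_ ρ) (by rw [← hρ]; exact (G.E.mem_iff hγt hTt).1 (hγT γ hγ))
    (pair_mem_gr.2 ⟨hγT γ hγ, hρ⟩) ⟨ρ, rfl⟩
  rw [hρ]
  have h4 : ρ ≤ rank (b γ) := by
    by_contra hcon
    push Not at hcon
    exact key (mem_vonNeumann.2 hcon)
  obtain ⟨δ, _, _, rfl⟩ := hcl
  exact vonNeumann_mem_vonNeumann_iff.2 (h4.trans_lt (mem_vonNeumann.1 (hTb γ hγ).2))

theorem om_lt (S : Sit α κ) : Ordinal.omega0 < κ := by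
  obtain ⟨t, M, e, w, G, _, how⟩ := S.get S.KU (om_mem_Lvl S.hU.lvl)
  have h := (G.E.el.t1 G.E.bt G.E.nt (A := fun K => ∃ W ∈ K, (∃ x ∈ W, x = x) ∧
      ∀ x ∈ W, ∃ y ∈ W, x ∈ y)
      (by repeat' first
            | exact Dfn.mem _ _ | exact Dfn.eq _ _ | refine Dfn.and ?_ ?_
            | refine Dfn.ball subset_rfl _ ?_ | refine Dfn.bex subset_rfl _ ?_) G.Kt).2
      (by rw [G.eK]; exact ⟨om, how, inf_om⟩)
  obtain ⟨W, hW, hW'⟩ := h
  exact (omega_le_rank_of_inf hW').trans_lt (mem_vonNeumann.1 hW)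

theorem lim (S : Sit α κ) : Order.IsSuccLimit κ := by
  obtain ⟨c, hc, hcl, hKc, hb⟩ := S.bound
  rw [Order.isSuccLimit_iff, Order.isSuccPrelimit_iff_succ_ne]
  refine ⟨?_, fun γ hγ => ?_⟩
  · intro hm
    rw [isMin_iff_eq_bot] at hm
    have := S.om_lt
    rw [hm] at this
    exact absurd this (by simp)
  · obtain ⟨t, M, e, w, G, hct, hcw⟩ := S.get hc hc
    have hlt : γ < κ := hγ ▸ Order.lt_succ γ
    have hγt : V_ γ ∈ t := G.E.bt.mem_trans (vonNeumann_mem_vonNeumann_iff.2 hlt) G.Kt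
    have h := (G.E.el.t2 G.E.bt G.E.nt (A := fun K v => ∀ y ∈ K, y ⊆ v)
      (by repeat' first
            | exact dfn_sub subset_rfl _ _ | refine Dfn.ball subset_rfl _ ?_) G.Kt hγt).1
      (by
        intro y hy
        rw [mem_vonNeumann, ← hγ, Order.lt_succ_iff] at hy
        exact subset_vonNeumann.2 hy)
    rw [G.eK] at h
    exact mem_irrefl _ (h c hcw (hb t M e w G hct γ hlt))

theorem Kl (S : Sit α κ) : V_ κ ∈ Lvl := ⟨κ, S.lim, S.om_lt, rfl⟩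

theorem wl (S : Sit α κ) {t M e w : ZFSet.{u}} (G : Gd (V_ α) (V_ κ) t M e w) (how : om ∈ w) :
    w ∈ Lvl := by
  have h := (G.E.el.t1 G.E.bt G.E.nt (A := fun a => ∀ x ∈ a, ∃ y ∈ a, x ∈ y)
    (by repeat' first
          | exact Dfn.mem _ _
          | refine Dfn.ball subset_rfl _ ?_ | refine Dfn.bex subset_rfl _ ?_) G.Kt).1 (by
      intro x hx
      exact ⟨V_ (Order.succ (rank x)),
        vonNeumann_mem_vonNeumann_iff.2 (S.lim.succ_lt (mem_vonNeumann.1 hx)),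
        mem_vonNeumann_succ x⟩)
  rw [G.eK] at h
  obtain ⟨η, rfl⟩ := G.lw
  refine lvl_of_unb ?_ h
  have := mem_vonNeumann.1 how
  unfold om at this
  rwa [Ordinal.rank_toZFSet] at this

end Sit

end Gss969
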