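import Pool.Agent.Gss969.SingA

/-!
The least large level of the model is not inaccessible.
-/

namespace Gss969

open ZFSet

universe u

set_option linter.unusedVariables false

/-- The situation together with a bound `c` and a map `k` on `V_κ` which is the restriction of
arbitrarily good embeddings. -/
structure Sit2 (α κ : Ordinal.{u}) (c k : ZFSet.{u}) : Prop where
  S : Sit α κ
  cU : c ∈ V_ α
  cl : c ∈ Lvl
  Kc : V_ κ ∈ c
  bd : ∀ t M e w, Gd (V_ α) (V_ κ) t M e w → c ∈ t → ∀ γ < κ, app e (V_ γ) ∈ c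
  pig : ∀ a ∈ V_ α, ∃ t M e w, Gd (V_ α) (V_ κ) t M e w ∧ c ∈ t ∧ c ∈ w ∧ a ∈ t ∧ a ∈ w ∧
    ∀ x ∈ V_ κ, app e x = app k x

theorem Sit.two {α κ : Ordinal.{u}} (S : Sit α κ) : ∃ c k, Sit2 α κ c k := by
  classical
  obtain ⟨c, hc, hcl, hKc, hb⟩ := S.bound
  refine ⟨c, ?_⟩
  by_contra hcon
  push Not at hcon
  have h1 : ∀ k, ∃ a ∈ V_ α, ∀ t M e w, Gd (V_ α) (V_ κ) t M e w → c ∈ t → c ∈ w → a ∈ t →
      a ∈ w → ∃ x ∈ V_ κ, app e x ≠ app k x := by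
    intro k
    by_contra h
    push Not at h
    refine hcon k ⟨S, hc, hcl, hKc, hb, fun a ha => ?_⟩
    obtain ⟨t, M, e, w, h1, h2, h3, h4, h5, h6⟩ := h a ha
    exact ⟨t, M, e, w, h1, h2, h3, h4, h5, h6⟩
  choose a haU ha using h1
  obtain ⟨B, hB, hB'⟩ := S.hU.repl (funs (V_ κ) c) (Lvl_funs S.hU.lvl S.KU hc) a
    (fun x _ => haU x)
  obtain ⟨d, hd, hdl, hBd⟩ := S.hU.lvl_above (Lvl_pair S.hU.lvl hB hc)
  have hdt := Lvl_sub_Trs hdl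
  have hup : ({B, c} : ZFSet.{u}) ∈ d := hdt.mem_trans (by simp [pair]) hBd
  have hcd : c ∈ d := hdt.mem_trans (by simp) hup
  have hBd' : B ∈ d := hdt.mem_trans (by simp) hup
  obtain ⟨t, M, e, w, G, hdt', hdw⟩ := S.get hd hd
  have hwt : w.IsTransitive := G.lw.trans
  have hct : c ∈ t := G.E.bt.mem_trans hcd hdt'
  have hin : ∀ x ∈ V_ κ, app e x ∈ c := by
    intro x hx
    have hr : Order.succ (rank x) < κ := S.lim.succ_lt (mem_vonNeumann.1 hx)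
    have h2 := hb t M e w G hct _ hr
    have hγt : V_ (Order.succ (rank x)) ∈ t :=
      G.E.bt.mem_trans (vonNeumann_mem_vonNeumann_iff.2 hr) G.Kt
    have h3 := (G.E.mem_iff (G.E.bt.mem_trans hx G.Kt) hγt).1 (mem_vonNeumann_succ x)
    exact (Lvl_sub_Trs hcl).mem_trans h3 h2
  have hk : gr (V_ κ) (app e) ∈ funs (V_ κ) c := mem_funs.2 (isFunc_gr hin)
  have haB : a (gr (V_ κ) (app e)) ∈ B := (hB' _).2 ⟨_, hk, rfl⟩
  have had : a (gr (V_ κ) (app e)) ∈ d := hdt.mem_trans haB hBd'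
  obtain ⟨x, hx, hne⟩ := ha (gr (V_ κ) (app e)) t M e w G hct (hwt.mem_trans hcd hdw)
    (G.E.bt.mem_trans had hdt') (hwt.mem_trans had hdw)
  exact hne (app_gr hx).symm

namespace Sit2

variable {α κ : Ordinal.{u}} {c k : ZFSet.{u}}

/-- The union of the values of `k`. -/
noncomputable def W (κ : Ordinal.{u}) (c k : ZFSet.{u}) : ZFSet.{u} :=
  ZFSet.sep (fun z => ∃ x ∈ V_ κ, z ∈ app k x) c

theorem vmem (Q : Sit2 α κ c k) {γ : Ordinal.{u}} (hγ : γ < κ) : V_ γ ∈ V_ κ :=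
  vonNeumann_mem_vonNeumann_iff.2 hγ

theorem img (Q : Sit2 α κ c k) {γ : Ordinal.{u}} (hγ : γ < κ) :
    ∃ ρ : Ordinal.{u}, app k (V_ γ) = V_ ρ := by
  obtain ⟨t, M, e, w, G, _, _, _, _, h⟩ := Q.pig _ Q.cU
  obtain ⟨ρ, h1, _⟩ := G.img hγ
  exact ⟨ρ, by rw [← h _ (Q.vmem hγ), h1]⟩

theorem img_c (Q : Sit2 α κ c k) {γ : Ordinal.{u}} (hγ : γ < κ) : app k (V_ γ) ∈ c := by
  obtain ⟨t, M, e, w, G, h1, _, _, _, h⟩ := Q.pig _ Q.cU
  rw [← h _ (Q.vmem hγ)]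
  exact Q.bd t M e w G h1 γ hγ

theorem kmem (Q : Sit2 α κ c k) {x y : ZFSet.{u}} (hx : x ∈ V_ κ) (hy : y ∈ V_ κ) :
    x ∈ y ↔ app k x ∈ app k y := by
  obtain ⟨t, M, e, w, G, h1, _, _, _, h⟩ := Q.pig _ Q.cU
  rw [← h _ hx, ← h _ hy]
  exact G.E.mem_iff (G.E.bt.mem_trans hx G.Kt) (G.E.bt.mem_trans hy G.Kt)

theorem ksub (Q : Sit2 α κ c k) {x y : ZFSet.{u}} (hx : x ∈ V_ κ) (hy : y ∈ V_ κ) :
    x ⊆ y ↔ app k x ⊆ app k y := by
  obtain ⟨t, M, e, w, G, h1, _, _, _, h⟩ := Q.pig _ Q.cU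
  rw [← h _ hx, ← h _ hy]
  exact G.E.sub_iff (G.E.bt.mem_trans hx G.Kt) (G.E.bt.mem_trans hy G.Kt)

theorem mem_W (Q : Sit2 α κ c k) {z : ZFSet.{u}} :
    z ∈ W κ c k ↔ ∃ γ < κ, z ∈ app k (V_ γ) := by
  unfold W
  rw [mem_sep]
  constructor
  · rintro ⟨_, x, hx, hz⟩
    have hr := mem_vonNeumann.1 hx
    refine ⟨rank x, hr, (Q.ksub hx (Q.vmem hr)).1 ?_ hz⟩
    exact subset_vonNeumann.2 le_rfl
  · rintro ⟨γ, hγ, hz⟩
    exact ⟨(Lvl_sub_Trs Q.cl).mem_trans hz (Q.img_c hγ), _, Q.vmem hγ, hz⟩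

theorem k_mem_W (Q : Sit2 α κ c k) {x : ZFSet.{u}} (hx : x ∈ V_ κ) : app k x ∈ W κ c k := by
  have hr : Order.succ (rank x) < κ := Q.S.lim.succ_lt (mem_vonNeumann.1 hx)
  exact Q.mem_W.2 ⟨_, hr, (Q.kmem hx (Q.vmem hr)).1 (mem_vonNeumann_succ x)⟩

theorem W_eq (Q : Sit2 α κ c k) : W κ c k = V_ (rank (W κ c k)) := by
  ext z
  rw [mem_vonNeumann]
  constructor
  · exact rank_lt_of_mem
  · intro h
    rw [lt_rank_iff] at h
    obtain ⟨y, hy, hzy⟩ := h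
    obtain ⟨γ, hγ, hy'⟩ := Q.mem_W.1 hy
    obtain ⟨ρ, hρ⟩ := Q.img hγ
    refine Q.mem_W.2 ⟨γ, hγ, ?_⟩
    rw [hρ] at hy' ⊢
    exact mem_vonNeumann.2 (hzy.trans_lt (mem_vonNeumann.1 hy'))

theorem Wlev (Q : Sit2 α κ c k) : Lev (W κ c k) := ⟨_, Q.W_eq⟩

theorem Wl (Q : Sit2 α κ c k) (hK : V_ κ ∈ W κ c k) : W κ c k ∈ Lvl := by
  have he := Q.W_eq
  rw [he]
  refine lvl_of_unb ?_ ?_
  · have := rank_lt_of_mem hK
    rw [rank_vonNeumann] at this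
    exact Q.S.om_lt.trans this
  · rw [← he]
    intro x hx
    obtain ⟨γ, hγ, hx'⟩ := Q.mem_W.1 hx
    exact ⟨_, Q.k_mem_W (Q.vmem hγ), hx'⟩

theorem WU (Q : Sit2 α κ c k) : W κ c k ∈ V_ α :=
  Lvl_sub Q.S.hU.lvl Q.cU sep_subset

theorem Wsub (Q : Sit2 α κ c k) {t M e w : ZFSet.{u}} (G : Gd (V_ α) (V_ κ) t M e w)
    (h : ∀ x ∈ V_ κ, app e x = app k x) : W κ c k ⊆ w := by
  intro z hz
  obtain ⟨γ, hγ, hz'⟩ := Q.mem_W.1 hz
  rw [← h _ (Q.vmem hγ)] at hz'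
  exact G.lw.trans.mem_trans hz' (G.elK.1 _ (Q.vmem hγ))

/-- If `V_κ` is inaccessible then `k` is elementary into `W`. -/
theorem elW (Q : Sit2 α κ c k) (hK : V_ κ ∈ W κ c k) (hi : Inac (V_ κ)) :
    IsEl (V_ κ) (W κ c k) (app k) := by
  classical
  obtain ⟨t1, ht1, ht1l, hKt1⟩ := Q.S.hU.lvl_above Q.S.KU
  obtain ⟨t, M, e, w, G, hct, hcw, ht1t, _, h⟩ := Q.pig _ ht1
  have hWl := Q.Wl hK
  have D : HullData t M (app e) (V_ κ) t1 (W κ c k) :=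
    { E := G.E
      ht := ht1t
      tt := (lvl_lev ht1l).trans
      hk := hKt1
      k0 := lvl_nonempty Q.S.Kl
      wk := by rw [G.eK]; exact Q.Wsub G h
      wt := Q.Wlev.trans
      w0 := lvl_nonempty hWl
      wp := fun a ha b hb => Lvl_pair hWl ha hb
      cl := by
        intro f hf a ha
        obtain ⟨γ, hγ, ha'⟩ := Q.mem_W.1 ha
        have hγK := Q.vmem hγ
        have hft : f ∈ t := Lvl_func G.tl G.Kt G.Kt hf
        obtain ⟨y, hy, hy'⟩ := hi.repl (V_ γ) hγK (app f) (fun x hx =>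
          app_mem hf ((isTransitive_vonNeumann κ).mem_trans hx hγK))
        have hyt : y ∈ t := G.E.bt.mem_trans hy G.Kt
        have hγt : V_ γ ∈ t := G.E.bt.mem_trans hγK G.Kt
        have h1 := (G.E.el.t4 G.E.bt G.E.nt (A := fun x K f y => ∀ z ∈ x, ∀ u ∈ K,
          pair z u ∈ f → u ∈ y)
          (by repeat' first
                | exact Dfn.mem _ _ | exact dfn_pm subset_rfl _ _ _
                | refine Dfn.ball subset_rfl _ ?_ | refine Dfn.imp ?_ ?_) hγt G.Kt hft hyt).1 (by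
            intro z hz u hu hzu
            have hzK := (isTransitive_vonNeumann κ).mem_trans hz hγK
            exact (hy' u).2 ⟨z, hz, (app_iff hf hzK).1 hzu⟩)
        have hF := G.E.func G.Kt G.Kt hf
        have ha2 : a ∈ app e (V_ γ) := by rw [h _ hγK]; exact ha'
        have haw : a ∈ app e (V_ κ) := by
          rw [G.eK]; exact Q.Wsub G h ha
        have h2 := h1 a ha2 _ (app_mem hF haw) (app_spec hF haw)
        refine Q.mem_W.2 ⟨rank y, mem_vonNeumann.1 hy, ?_⟩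
        rw [← h _ (Q.vmem (mem_vonNeumann.1 hy))]
        exact (G.E.sub_iff hyt (G.E.bt.mem_trans (Q.vmem (mem_vonNeumann.1 hy)) G.Kt)).1
          (subset_vonNeumann.2 le_rfl) h2 }
  obtain ⟨h1, h2, h3⟩ := D.main
  have E' : Emb t1 (coll (hull (app e) (V_ κ) t1 (W κ c k)) (hull (app e) (V_ κ) t1 (W κ c k)))
      (fun x => coll (hull (app e) (V_ κ) t1 (W κ c k)) (app e x)) := ⟨h2, ht1l, h1⟩
  have h4 := E'.restr hKt1
  simp only [h3] at h4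
  refine h4.congr fun x hx => ?_
  rw [h x hx]
  exact coll_id D.wt D.w_hull _ (Q.k_mem_W hx)

/-- The relation used for reflecting largeness. -/
def Rel (a t b r : ZFSet.{u}) : Prop :=
  ∃ M ∈ a, M.IsTransitive ∧ ∃ e ∈ a, ElS t M e ∧ ∃ w ∈ M, pair r w ∈ e ∧ Lev w ∧ b ∈ w

theorem dfn_Rel (i j l m : ℕ) : Dfn Lvl.{u} (fun v => Rel (v i) (v j) (v l) (v m)) := by
  unfold Rel
  repeat' first
    | exact Dfn.mem _ _ | exact dfn_lev _ | exact dfn_trans Lvl_sub_Trs _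
    | exact dfn_ElS _ _ _ | exact dfn_pm Lvl_sub_Trs _ _ _
    | refine Dfn.and ?_ ?_ | refine Dfn.bex Lvl_sub_Trs _ ?_

/-- If `V_κ` is inaccessible, it is large in `W`. -/
theorem prW (Q : Sit2 α κ c k) (hK : V_ κ ∈ W κ c k) (hi : Inac (V_ κ)) :
    Pr (V_ κ) (W κ c k) := by
  classical
  intro t0 ht0 hlt0 hKt0 b hb
  obtain ⟨M', hM', hMt', e', he', hE', w', hw', hpw', hlw', hbw'⟩ :=
    Q.S.hP t0 ((isTransitive_vonNeumann α).mem_trans ht0 Q.WU) hlt0 hKt0 b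
      ((isTransitive_vonNeumann α).mem_trans hb Q.WU)
  obtain ⟨a, haU, hal, ha⟩ := Q.S.hU.lvl_above (Lvl_pair Q.S.hU.lvl hM' he')
  have hat := Lvl_sub_Trs hal
  have hup : ({M', e'} : ZFSet.{u}) ∈ a := hat.mem_trans (by simp [pair]) ha
  have hR : Rel a t0 b (V_ κ) :=
    ⟨M', hat.mem_trans (by simp) hup, hMt', e', hat.mem_trans (by simp) hup, hE', w', hw', hpw',
      hlw', hbw'⟩
  obtain ⟨t, M, e, w, G, hct, hcw, _, haw, h⟩ := Q.pig _ haU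
  have hwl : w ∈ Lvl := Q.S.wl G (G.lw.trans.mem_trans (om_mem_Lvl Q.cl) hcw)
  -- a common level
  obtain ⟨γ1, h1, g1⟩ := Q.mem_W.1 ht0
  obtain ⟨γ2, h2, g2⟩ := Q.mem_W.1 hb
  obtain ⟨γ3, h3, g3⟩ := Q.mem_W.1 hK
  set γ := max γ1 (max γ2 γ3) with hγdef
  have hγ : γ < κ := max_lt h1 (max_lt h2 h3)
  have hγK := Q.vmem hγ
  have mono : ∀ γ' ≤ γ, app k (V_ γ') ⊆ app e (V_ γ) := by
    intro γ' hle
    rw [h _ hγK]
    exact (Q.ksub (Q.vmem (hle.trans_lt hγ)) hγK).1 (vonNeumann_subset_of_le hle)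
  have m1 := mono γ1 (le_max_left _ _) g1
  have m2 := mono γ2 ((le_max_left _ _).trans (le_max_right _ _)) g2
  have m3 := mono γ3 ((le_max_right _ _).trans (le_max_right _ _)) g3
  -- the bounding set inside `V_κ`
  have hS : ZFSet.prod (V_ γ) (ZFSet.prod (V_ γ) (V_ γ)) ∈ V_ κ :=
    Lvl_prod Q.S.Kl hγK (Lvl_prod Q.S.Kl hγK hγK)
  let F : ZFSet.{u} → ZFSet.{u} := fun p =>
    if hh : ∃ a, a ∈ V_ κ ∧ ∃ s0 s1 s2, p = pair s0 (pair s1 s2) ∧ Rel a s0 s1 s2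
    then hh.choose else ∅
  obtain ⟨y, hy, hy'⟩ := hi.repl _ hS F (by
    intro p hp
    simp only [F]
    split_ifs with hh
    · exact hh.choose_spec.1
    · exact lvl_nonempty Q.S.Kl)
  have key := (G.elK.all_transfer (𝒰 := Lvl) (A := fun a v => ∀ s0 ∈ v 0, ∀ s1 ∈ v 0,
      ∀ s2 ∈ v 0, Rel a s0 s1 s2 → ∃ a' ∈ v 1, Rel a' s0 s1 s2)
    (by repeat' first
          | exact dfn_Rel _ _ _ _ | refine Dfn.imp ?_ ?_
          | refine Dfn.ball Lvl_sub_Trs _ ?_ | refine Dfn.bex Lvl_sub_Trs _ ?_)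
    Q.S.Kl hwl (asg (V_ γ) y y y y y) (asg_mem hγK hy hy hy hy hy)).1 (by
      intro a ha s0 hs0 s1 hs1 s2 hs2 hr
      have hp : pair s0 (pair s1 s2) ∈ ZFSet.prod (V_ γ) (ZFSet.prod (V_ γ) (V_ γ)) :=
        pair_mem_prod.2 ⟨hs0, pair_mem_prod.2 ⟨hs1, hs2⟩⟩
      refine ⟨F (pair s0 (pair s1 s2)), (hy' _).2 ⟨_, hp, rfl⟩, ?_⟩
      have hh : ∃ a, a ∈ V_ κ ∧ ∃ s0' s1' s2', pair s0 (pair s1 s2) = pair s0' (pair s1' s2') ∧
          Rel a s0' s1' s2' := ⟨a, ha, s0, s1, s2, rfl, hr⟩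
      simp only [F]
      rw [dif_pos hh]
      obtain ⟨s0', s1', s2', he, hr'⟩ := hh.choose_spec.2
      rw [pair_inj, pair_inj] at he
      obtain ⟨rfl, rfl, rfl⟩ := he
      exact hr')
  obtain ⟨a', ha', hr'⟩ := key a haw t0 m1 b m2 (V_ κ) m3 hR
  have ha'W : a' ∈ W κ c k := by
    refine Q.mem_W.2 ⟨rank y, mem_vonNeumann.1 hy, ?_⟩
    have hyr := Q.vmem (mem_vonNeumann.1 hy)
    refine (Q.ksub hy hyr).1 (subset_vonNeumann.2 le_rfl) ?_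
    rw [← h _ hy]
    exact ha'
  obtain ⟨M2, hM2, hMt2, e2, he2, hE2, w2, hw2, hpw2, hlw2, hbw2⟩ := hr'
  have hWt := Q.Wlev.trans
  exact ⟨M2, hWt.mem_trans hM2 ha'W, hMt2, e2, hWt.mem_trans he2 ha'W, hE2, w2, hw2, hpw2, hlw2,
    hbw2⟩

theorem lev_tri {x y : ZFSet.{u}} (hx : Lev x) (hy : Lev y) : x = y ∨ x ∈ y ∨ y ∈ x := by
  obtain ⟨a, rfl⟩ := hx
  obtain ⟨b, rfl⟩ := hy
  rcases lt_trichotomy a b with h | h | h
  · exact Or.inr (Or.inl (vonNeumann_mem_vonNeumann_iff.2 h))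
  · exact Or.inl (by rw [h])
  · exact Or.inr (Or.inr (vonNeumann_mem_vonNeumann_iff.2 h))

/-- The main contradiction. -/
theorem not_inac (Q : Sit2 α κ c k) (hK : V_ κ ∈ W κ c k) : ¬ Inac (V_ κ) := by
  intro hi
  have hel := Q.elW hK hi
  have hpr := Q.prW hK hi
  have hWl := Q.Wl hK
  have hKl := Q.S.Kl
  -- there is a large level inside `V_κ`
  have h1 : ∃ y ∈ V_ κ, Lev y ∧ Pr y (V_ κ) := by
    refine (hel.u0 (A := fun U => ∃ y ∈ U, Lev y ∧ Pr y U) ?_ hKl hWl).2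
      ⟨V_ κ, hK, ⟨κ, rfl⟩, hpr⟩
    refine DfU.ex (A := fun U y v => Lev y ∧ Pr y U) ?_
    exact DfU.and (DfU.of (dfn_lev 0)) (dfu_Pr 0)
  obtain ⟨y0, ⟨hy0, hy0l, hy0p⟩, hy0m⟩ := mem_wf.has_min
    {y | y ∈ V_ κ ∧ Lev y ∧ Pr y (V_ κ)} h1
  have hL : Lst y0 (V_ κ) := by
    refine ⟨hy0l, hy0p, fun z hz hzl hzp => hy0m z ⟨?_, hzl, hzp⟩ hz⟩
    exact (isTransitive_vonNeumann κ).mem_trans hz hy0
  -- its image is `V_κ`
  have hLW : Lst (app k y0) (W κ c k) :=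
    (hel.u1 (A := fun U y => Lst y U) (dfu_Lst 0) hKl hWl hy0).1 hL
  have hPU : Pr (app k y0) (V_ α) := by
    intro t ht hlt hkt b hb
    obtain ⟨a, haU, hal, ha⟩ := Q.S.hU.lvl_above (Lvl_pair Q.S.hU.lvl ht hb)
    have hat := Lvl_sub_Trs hal
    have hup : ({t, b} : ZFSet.{u}) ∈ a := hat.mem_trans (by simp [pair]) ha
    obtain ⟨t', M, e, w, G, hct, hcw, _, haw, h⟩ := Q.pig _ haU
    have hwl : w ∈ Lvl := Q.S.wl G (G.lw.trans.mem_trans (om_mem_Lvl Q.cl) hcw)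
    have hLw := (G.elK.u1 (A := fun U y => Lst y U) (dfu_Lst 0) hKl hwl hy0).1 hL
    rw [h _ hy0] at hLw
    have hwU : w ⊆ V_ α := (isTransitive_vonNeumann α).subset_of_mem
      ((isTransitive_vonNeumann α).mem_trans G.wM G.MU)
    have haw' := G.lw.trans
    obtain ⟨M', hM', hMt', e', he', hr⟩ := hLw.2.1 t
      (haw'.mem_trans (hat.mem_trans (by simp) hup) haw) hlt hkt b
      (haw'.mem_trans (hat.mem_trans (by simp) hup) haw)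
    exact ⟨M', hwU hM', hMt', e', hwU he', hr⟩
  have hky : app k y0 = V_ κ := by
    rcases lev_tri hLW.1 ⟨κ, rfl⟩ with h | h | h
    · exact h
    · exfalso
      obtain ⟨γ, hγ⟩ := hLW.1
      rw [hγ] at h hPU
      exact Q.S.hmin γ (vonNeumann_mem_vonNeumann_iff.1 h) hPU
    · exact absurd hpr (hLW.2.2 _ h ⟨κ, rfl⟩)
  -- the descent
  obtain ⟨t, M, e, w, G, hct, hcw, _, _, h⟩ := Q.pig _ Q.cU
  have hwl : w ∈ Lvl := Q.S.wl G (G.lw.trans.mem_trans (om_mem_Lvl Q.cl) hcw)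
  obtain ⟨y, ⟨hy, z, hz, hzK, hLz, hze⟩, hmin⟩ := mem_wf.has_min
    {y | (y ∈ V_ κ ∨ y = V_ κ) ∧ ∃ z ∈ y, z ∈ V_ κ ∧ Lst z y ∧ app e z = y}
    ⟨V_ κ, Or.inr rfl, y0, hy0, hy0, hL, by rw [h _ hy0, hky]⟩
  have hex : ∃ x ∈ z, Lst x z := by
    refine (G.elK.t1 hKl hwl (A := fun z => ∃ x ∈ z, Lst x z) ?_ hzK).2 ?_
    · exact Dfn.bex Lvl_sub_Trs _ (dfn_Lst _ _)
    · rw [hze]; exact ⟨z, hz, hLz⟩
  obtain ⟨x, hx, hLx⟩ := hex
  have hxK : x ∈ V_ κ := (isTransitive_vonNeumann κ).mem_trans hx hzK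
  have hLx' := (G.elK.t2 hKl hwl (A := fun x z => Lst x z) (dfn_Lst 0 1) hxK hzK).1 hLx
  rw [hze] at hLx'
  have hxz : app e x = z := by
    rcases lev_tri hLx'.1 hLz.1 with h | h | h
    · exact h
    · exact absurd hLx'.2.1 (hLz.2.2 _ h hLx'.1)
    · exact absurd hLz.2.1 (hLx'.2.2 _ h hLz.1)
  exact hmin z ⟨Or.inl hzK, x, hx, hxK, hLx, hxz⟩ hz

end Sit2

end Gss969
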