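import Pool.Agent.Gss969.SingB
import Pool.Agent.Gss969.Defs2

/-!
The least large cardinal of the model is a singular cardinal.
-/

namespace Gss969

open ZFSet

universe u

set_option linter.unusedVariables false

theorem large_of_pr' {α κ : Ordinal.{u}} (hU : Inac (V_ α)) (hk : V_ κ ∈ Lvl) (hκ : κ < α)
    (hP : Pr (V_ κ) (V_ α)) : PsiGssLargeIn (V_ α) κ.toZFSet := by
  intro η hη θ hθ hηl hθl hκη hηθ b hb hbo
  have hul := hU.lvl
  have hαlim : Order.IsSuccLimit α := by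
    obtain ⟨α', h1, _, h2⟩ := hul
    rw [vonNeumann_inj] at h2
    exact h2 ▸ h1
  -- ordinals
  have eη := hηl.1.toZFSet_rank_eq
  have eθ := hθl.1.toZFSet_rank_eq
  set ηo := rank η with hηo
  set θo := rank θ with hθo
  have hηα : ηo < α := mem_vonNeumann.1 hη
  have hθα : θo < α := mem_vonNeumann.1 hθ
  have hκη' : κ < ηo := by
    have := rank_lt_of_mem hκη; rwa [Ordinal.rank_toZFSet] at this
  have hηθ' : ηo < θo := rank_lt_of_mem hηθ
  obtain ⟨l, hlα, hml, hllim, hlcard⟩ := exists_card hU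
    (γ := max ηo (rank b)) (max_lt hηα (mem_vonNeumann.1 hb))
  have hlU : l.toZFSet ∈ V_ α := by
    rw [mem_vonNeumann, Ordinal.rank_toZFSet]; exact hlα
  -- a limit level containing everything
  obtain ⟨δ, hδ, hγδ, hδlim, _⟩ := hU.clos (fun _ _ => True) (fun γ hγ => ⟨γ, hγ, trivial⟩)
    (γ0 := max (Order.succ θo) Ordinal.omega0)
    (max_lt (hαlim.succ_lt hθα) (by
      obtain ⟨α', _, h1, h2⟩ := hul
      rw [vonNeumann_inj] at h2
      exact h2 ▸ h1))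
  have hθδ : Order.succ θo < δ := (le_max_left _ _).trans_lt hγδ
  have hθδ' : θo < δ := (Order.lt_succ θo).trans hθδ
  have htl : V_ δ ∈ Lvl := ⟨δ, hδlim, (le_max_right _ _).trans_lt hγδ, rfl⟩
  have hkt : V_ κ ∈ V_ δ := vonNeumann_mem_vonNeumann_iff.2 ((hκη'.trans hηθ').trans hθδ')
  obtain ⟨M0, hM0, hM0t, e0, he0, hE0, w, hw, hkw, ⟨ξ, rfl⟩, hbw⟩ :=
    hP (V_ δ) (vonNeumann_mem_vonNeumann_iff.2 hδ) ⟨δ, rfl⟩ hkt l.toZFSet hlU
  have E : Emb (V_ δ) M0 (app e0) := ⟨hE0.2, htl, hM0t⟩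
  have mδ : ∀ γ < δ, γ.toZFSet ∈ V_ δ := fun γ hγ => by
    rw [mem_vonNeumann, Ordinal.rank_toZFSet]; exact hγ
  have hκδ : κ < δ := (hκη'.trans hηθ').trans hθδ'
  have hηδ : ηo < δ := hηθ'.trans hθδ'
  have hκt : κ.toZFSet ∈ V_ δ := mδ κ hκδ
  have hηt : η ∈ V_ δ := by rw [← eη]; exact mδ _ hηδ
  have hθt : θ ∈ V_ δ := by rw [← eθ]; exact mδ _ hθδ'
  have ekw : app e0 (V_ κ) = V_ ξ := (app_iff hE0.1 hkt).1 hkw
  -- the image of `κ` is `ξ`
  have eκ : app e0 κ.toZFSet = ξ.toZFSet := by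
    have h1 := (E.jV hkt)
    have h3 := h1.1
    have h4 := (E.el.t2 E.bt E.nt (A := fun k κ => κ ⊆ k ∧ ∀ x ∈ k, x.IsOrdinal → x ∈ κ)
      (by repeat' first
            | exact dfn_ord subset_rfl _ | exact Dfn.mem _ _ | exact dfn_sub subset_rfl _ _
            | refine Dfn.and ?_ ?_ | refine Dfn.ball subset_rfl _ ?_
            | refine Dfn.imp ?_ ?_) hkt hκt).1 ⟨κ.toZFSet_subset_vonNeumann, by
        intro x hx hxo
        rw [← hxo.toZFSet_rank_eq, Ordinal.toZFSet_mem_toZFSet_iff]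
        exact mem_vonNeumann.1 hx⟩
    rw [ekw] at h4
    ext x
    constructor
    · intro hx
      have hxo := h3.mem hx
      have := mem_vonNeumann.1 (h4.1 hx)
      rw [← hxo.toZFSet_rank_eq, Ordinal.toZFSet_mem_toZFSet_iff]
      exact this
    · intro hx
      exact h4.2 x (ξ.toZFSet_subset_vonNeumann hx) ((isOrdinal_toZFSet ξ).mem hx)
  -- the images of `θ` and `η`
  have hθ' : LimOrd (app e0 θ) := limOrd_image E hθt hθl
  have hη' : LimOrd (app e0 η) := limOrd_image E hηt hηl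
  have hκ' : LimOrd (app e0 κ.toZFSet) := by
    refine limOrd_image E hκt ?_
    obtain ⟨κ', h1, h2, h3⟩ := hk
    rw [vonNeumann_inj] at h3
    subst h3
    refine limOrd_iff.2 ⟨isOrdinal_toZFSet _, ⟨(0 : Ordinal.{u}).toZFSet, ?_, rfl⟩, ?_⟩
    · rw [Ordinal.toZFSet_mem_toZFSet_iff]
      exact lt_of_le_of_lt zero_le h2
    · intro y hy
      obtain ⟨a, ha, rfl⟩ := Ordinal.mem_toZFSet_iff.1 hy
      exact ⟨(Order.succ a).toZFSet, Ordinal.toZFSet_mem_toZFSet_iff.2 (h1.succ_lt ha),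
        Ordinal.toZFSet_mem_toZFSet_iff.2 (Order.lt_succ a)⟩
  have hVθ : V_ θo ∈ V_ δ := vonNeumann_mem_vonNeumann_iff.2 hθδ'
  have hVθ1 : V_ (Order.succ θo) ∈ V_ δ := vonNeumann_mem_vonNeumann_iff.2 hθδ
  have jθ := (E.jV hVθ).2
  rw [eθ] at jθ
  set θ' := app e0 θ with hθ'def
  -- M
  set M := app e0 (V_ (Order.succ θo)) with hMdef
  have hMM0 : M ∈ M0 := E.el.1 _ hVθ1
  have hMt : M.IsTransitive := (E.trans_iff hVθ1).1 (isTransitive_vonNeumann _)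
  have hMU : M ∈ V_ α := (isTransitive_vonNeumann α).mem_trans hMM0 hM0
  have hIs : IsEl (V_ (Order.succ θo)) M (app e0) := E.restr hVθ1
  have hjθM : app e0 (V_ θo) = M ∩ V_ (rank θ') := by
    ext x
    rw [jθ, mem_inter]
    constructor
    · rintro ⟨h1, h2⟩
      refine ⟨?_, h1⟩
      have h3 : app e0 (V_ θo) ∈ M :=
        (E.mem_iff hVθ hVθ1).1 (vonNeumann_mem_vonNeumann_iff.2 (Order.lt_succ θo))
      exact hMt.mem_trans ((jθ x).2 ⟨h1, h2⟩) h3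
    · rintro ⟨h1, h2⟩
      exact ⟨h2, hM0t.mem_trans h1 hMM0⟩
  have hθlim : Order.IsSuccLimit θo := limOrd_toZFSet (by rw [eθ]; exact hθl)
  have hωκ : Ordinal.omega0 < κ := by
    obtain ⟨κ', h1, h2, h3⟩ := hk
    rw [vonNeumann_inj] at h3
    exact h3 ▸ h2
  have hVθl : V_ θo ∈ Lvl := ⟨θo, hθlim, hωκ.trans (hκη'.trans hηθ'), rfl⟩
  have eθ' := hθ'.1.toZFSet_rank_eq
  have hθ'lim : Order.IsSuccLimit (rank θ') := limOrd_toZFSet (by rw [eθ']; exact hθ')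
  have mκη : app e0 κ.toZFSet ∈ app e0 η := (E.mem_iff hκt hηt).1 hκη
  have mηθ : app e0 η ∈ θ' := (E.mem_iff hηt hθt).1 hηθ
  have hlξ : l < ξ := by
    have := mem_vonNeumann.1 hbw; rwa [Ordinal.rank_toZFSet] at this
  have mlκ : l.toZFSet ∈ app e0 κ.toZFSet := by
    rw [eκ]; exact Ordinal.toZFSet_mem_toZFSet_iff.2 hlξ
  have hξη : ξ < rank (app e0 η) := by
    have := rank_lt_of_mem mκη; rwa [eκ, Ordinal.rank_toZFSet] at this
  have hηθr : rank (app e0 η) < rank θ' := rank_lt_of_mem mηθ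
  have hθ'N : V_ (rank θ') ∈ Lvl := by
    refine ⟨_, hθ'lim, ?_, rfl⟩
    refine lt_trans ?_ (hlξ.trans (hξη.trans hηθr))
    exact lt_of_lt_of_le hωκ (hκη'.le.trans ((le_max_left _ _).trans hml.le))
  have hθ'M0 : θ' ∈ M0 := E.el.1 _ hθt
  -- ordinals of the two sets
  have ordN : ∀ x : ZFSet.{u}, x.IsOrdinal → (x ∈ V_ (rank θ') ↔ x ∈ θ') := by
    intro x hx
    rw [mem_vonNeumann, hx.rank_lt_iff_mem hθ'.1]
  have ordM : ∀ x : ZFSet.{u}, x.IsOrdinal → (x ∈ M ∩ V_ (rank θ') ↔ x ∈ θ') := by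
    intro x hx
    rw [← hjθM, jθ, ordN x hx]
    exact ⟨fun h => h.1, fun h => ⟨h, hM0t.mem_trans h hθ'M0⟩⟩
  have hll : LimOrd l.toZFSet := hllim
  have memM : ∀ x, x.IsOrdinal → x ∈ θ' → x ∈ M ∩ V_ (rank θ') := fun x hx h => (ordM x hx).2 h
  have hκθ : app e0 κ.toZFSet ∈ θ' := hθ'.1.mem_trans mκη mηθ
  have hlθ : l.toZFSet ∈ θ' := hθ'.1.mem_trans mlκ hκθ
  have hθsucc : θo + 1 = Order.succ θo := rfl
  refine ⟨l.toZFSet, hlU, hlcard _, ?_, ?_, M, hMU, hMt, gr (V_ (Order.succ θo)) (app e0), ?_,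
    ?_, app e0 κ.toZFSet, θ', app e0 η, ?_, ?_, ?_, mlκ, ?_, ?_⟩
  · rw [← eη, Ordinal.toZFSet_subset_toZFSet_iff]
    exact (le_max_left _ _).trans hml.le
  · rw [← hbo.toZFSet_rank_eq, Ordinal.toZFSet_mem_toZFSet_iff]
    exact (le_max_right _ _).trans_lt hml
  · exact Lvl_func hul (vonNeumann_mem_vonNeumann_iff.2 (hθδ.trans hδ)) hMU (isFunc_gr hIs.1)
  · exact elS_gr hIs
  · refine pair_mem_gr.2 ⟨?_, rfl⟩
    rw [mem_vonNeumann, Ordinal.rank_toZFSet]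
    exact (hκη'.trans hηθ').trans (Order.lt_succ θo)
  · refine pair_mem_gr.2 ⟨?_, rfl⟩
    rw [mem_vonNeumann]
    exact Order.lt_succ θo
  · refine pair_mem_gr.2 ⟨?_, rfl⟩
    rw [mem_vonNeumann]
    exact hηθ'.trans (Order.lt_succ θo)
  · exact
      { sub := fun x hx => (mem_inter.1 hx).2
        transM := hMt.inter (isTransitive_vonNeumann _)
        transN := isTransitive_vonNeumann _
        closedM := by
          rw [← hjθM]
          exact closed_image E hVθ (closed_lvl hVθl)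
        closedN := closed_lvl hθ'N
        ords := ⟨θ', hθ', fun x hx => ⟨ordM x hx, ordN x hx⟩⟩
        limμ := hll
        limν := hκ'
        limρ := hη'
        memM := ⟨memM _ hll.1 hlθ, memM _ hκ'.1 hκθ, memM _ hη'.1 mηθ⟩
        lt := ⟨mlκ, mκη⟩
        card := hlcard _ }
  · intro x hx
    obtain ⟨h1, h2⟩ := mem_inter.1 hx
    rw [eκ, Ordinal.rank_toZFSet] at h2
    rw [← hjθM, jθ]
    exact ⟨h1, hM0t.mem_trans h2 hw⟩


/-! ### Cardinality -/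

open Cardinal in
theorem no_big_surj {α : Ordinal.{u}} (h : Inac (V_ α)) {c : ZFSet.{u}} (hc : c ∈ V_ α)
    (hct : c.IsTransitive) : ∃ l < α, ∀ A ∈ c, ∀ F : ZFSet.{u} → ZFSet.{u},
      ¬ ∀ ξ < l, ∃ z ∈ A, F z = ξ.toZFSet := by
  classical
  set l : Ordinal.{u} := (2 ^ card c : Cardinal.{u}).ord with hl
  have hlα : l < α := by
    by_contra hcon
    push Not at hcon
    have h1 : #{x // x ∈ α.toZFSet} ≤ #{x // x ∈ powerset c} := by
      have e1 : #{x // x ∈ α.toZFSet} = lift.{u + 1, u} (card α.toZFSet) := cardinalMk_coe_sort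
      have e2 : #{x // x ∈ powerset c} = lift.{u + 1, u} (card (powerset c)) :=
        cardinalMk_coe_sort
      rw [e1, e2, lift_le, card_powerset, Ordinal.card_toZFSet]
      have := Ordinal.card_le_card hcon
      rwa [hl, card_ord] at this
    obtain ⟨f⟩ := h1
    have ha : powerset c ∈ V_ α := Lvl_powerset h.lvl hc
    refine no_surj h (γ := 0) (lt_of_le_of_lt zero_le (inac_lim h).2) ha
      (fun y => if hy : ∃ x, (f x).1 = y then hy.choose.1 else ∅) ?_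
    intro δ hδ
    let x0 : {x // x ∈ α.toZFSet} := ⟨δ.toZFSet, Ordinal.toZFSet_mem_toZFSet_iff.2 hδ⟩
    refine ⟨(f x0).1, (f x0).2, ?_⟩
    have hy : ∃ x, (f x).1 = (f x0).1 := ⟨x0, rfl⟩
    rw [dif_pos hy]
    have : hy.choose = x0 := f.injective (Subtype.ext hy.choose_spec)
    rw [this]
  refine ⟨l, hlα, fun A hA F hF => ?_⟩
  have h1 : ∀ x : {x // x ∈ l.toZFSet}, ∃ z, z ∈ A ∧ F z = x.1 := by
    rintro ⟨x, hx⟩
    obtain ⟨ξ, hξ, rfl⟩ := Ordinal.mem_toZFSet_iff.1 hx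
    exact hF ξ hξ
  choose g hg hg' using h1
  have h2 : #{x // x ∈ l.toZFSet} ≤ #{x // x ∈ c} := by
    refine mk_le_of_injective (f := fun x => ⟨g x, hct.mem_trans (hg x) hA⟩) ?_
    intro x y hxy
    have : g x = g y := congrArg Subtype.val hxy
    exact Subtype.ext (by rw [← hg' x, ← hg' y, this])
  have e1 : #{x // x ∈ l.toZFSet} = lift.{u + 1, u} (card l.toZFSet) := cardinalMk_coe_sort
  have e2 : #{x // x ∈ c} = lift.{u + 1, u} (card c) := cardinalMk_coe_sort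
  rw [e1, e2, lift_le, Ordinal.card_toZFSet, hl, card_ord] at h2
  exact absurd (cantor (card c)) h2.not_gt

theorem Gd.eo {U t M e : ZFSet.{u}} {κ η : Ordinal.{u}} (G : Gd U (V_ κ) t M e (V_ η)) :
    app e κ.toZFSet = η.toZFSet := by
  have hκt : κ.toZFSet ∈ t := Lvl_sub G.tl G.Kt κ.toZFSet_subset_vonNeumann
  have h1 := (G.E.jV G.Kt)
  have h3 := h1.1
  have h4 := (G.E.el.t2 G.E.bt G.E.nt (A := fun k κ => κ ⊆ k ∧ ∀ x ∈ k, x.IsOrdinal → x ∈ κ)
    (by repeat' first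
          | exact dfn_ord subset_rfl _ | exact Dfn.mem _ _ | exact dfn_sub subset_rfl _ _
          | refine Dfn.and ?_ ?_ | refine Dfn.ball subset_rfl _ ?_
          | refine Dfn.imp ?_ ?_) G.Kt hκt).1 ⟨κ.toZFSet_subset_vonNeumann, by
      intro x hx hxo
      rw [← hxo.toZFSet_rank_eq, Ordinal.toZFSet_mem_toZFSet_iff]
      exact mem_vonNeumann.1 hx⟩
  rw [G.eK] at h4
  ext x
  constructor
  · intro hx
    have hxo := h3.mem hx
    have := mem_vonNeumann.1 (h4.1 hx)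
    rw [← hxo.toZFSet_rank_eq, Ordinal.toZFSet_mem_toZFSet_iff]
    exact this
  · intro hx
    exact h4.2 x (η.toZFSet_subset_vonNeumann hx) ((isOrdinal_toZFSet η).mem hx)

namespace Sit

variable {α κ : Ordinal.{u}}

/-- No element of `V_κ` maps onto `κ`. -/
theorem no_surj (S : Sit α κ) {a : ZFSet.{u}} (ha : a ∈ V_ κ) (F : ZFSet.{u} → ZFSet.{u})
    (hF : ∀ ξ < κ, ∃ z ∈ a, F z = ξ.toZFSet) : False := by
  classical
  obtain ⟨c, hc, hcl, hKc, hb⟩ := S.bound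
  obtain ⟨l, hl, hl'⟩ := no_big_surj S.hU hc (lvl_lev hcl).trans
  obtain ⟨t, M, e, w, G, hct, hlw⟩ := S.get hc (b := l.toZFSet)
    (by rw [mem_vonNeumann, Ordinal.rank_toZFSet]; exact hl)
  obtain ⟨η, rfl⟩ := G.lw
  have hlη : l < η := by
    have := mem_vonNeumann.1 hlw
    rwa [Ordinal.rank_toZFSet] at this
  have h0 : (0 : Ordinal.{u}) < κ := lt_of_le_of_lt zero_le S.om_lt
  let g : ZFSet.{u} → ZFSet.{u} := fun z => if F z ∈ κ.toZFSet then F z else (0 : Ordinal.{u}).toZFSet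
  have hg : ∀ z ∈ a, g z ∈ κ.toZFSet := by
    intro z hz
    simp only [g]
    split_ifs with hh
    · exact hh
    · exact Ordinal.toZFSet_mem_toZFSet_iff.2 h0
  have hf := isFunc_gr hg
  have hat : a ∈ t := G.E.bt.mem_trans ha G.Kt
  have hκt : κ.toZFSet ∈ t := Lvl_sub G.tl G.Kt κ.toZFSet_subset_vonNeumann
  have hft : gr a g ∈ t := Lvl_func G.tl hat hκt hf
  have h1 := (G.E.el.t3 G.E.bt G.E.nt (A := fun a κ f => ∀ y ∈ κ, ∃ z ∈ a, pair z y ∈ f)
    (by repeat' first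
          | exact dfn_pm subset_rfl _ _ _ | refine Dfn.ball subset_rfl _ ?_
          | refine Dfn.bex subset_rfl _ ?_) hat hκt hft).1 (by
      intro y hy
      obtain ⟨ξ, hξ, rfl⟩ := Ordinal.mem_toZFSet_iff.1 hy
      obtain ⟨z, hz, hFz⟩ := hF ξ hξ
      refine ⟨z, hz, pair_mem_gr.2 ⟨hz, ?_⟩⟩
      simp only [g]
      rw [hFz, if_pos hy])
  rw [G.eo] at h1
  have hfun := G.E.func hat hκt hf
  have hr : Order.succ (rank a) < κ := S.lim.succ_lt (mem_vonNeumann.1 ha)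
  have hac : app e a ∈ c := by
    have hγt : V_ (Order.succ (rank a)) ∈ t :=
      G.E.bt.mem_trans (vonNeumann_mem_vonNeumann_iff.2 hr) G.Kt
    exact (Lvl_sub_Trs hcl).mem_trans ((G.E.mem_iff hat hγt).1 (mem_vonNeumann_succ a))
      (hb t M e _ G hct _ hr)
  refine hl' (app e a) hac (app (app e (gr a g))) fun ξ hξ => ?_
  obtain ⟨z, hz, hzy⟩ := h1 ξ.toZFSet (Ordinal.toZFSet_mem_toZFSet_iff.2 (hξ.trans hlη))
  exact ⟨z, hz, (app_iff hfun hz).1 hzy⟩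

theorem cardIn (S : Sit α κ) (N : ZFSet.{u}) : CardIn N κ.toZFSet := by
  refine ⟨isOrdinal_toZFSet _, ?_⟩
  rintro x hx f _ ⟨hf, hs⟩
  obtain ⟨a, ha, rfl⟩ := Ordinal.mem_toZFSet_iff.1 hx
  refine S.no_surj (a := a.toZFSet) ?_ (app f) fun ξ hξ => ?_
  · rw [mem_vonNeumann, Ordinal.rank_toZFSet]; exact ha
  · obtain ⟨z, hz, hzy⟩ := hs ξ.toZFSet (Ordinal.toZFSet_mem_toZFSet_iff.2 hξ)
    exact ⟨z, hz, (app_iff hf hz).1 hzy⟩

open Cardinal in
theorem singular (S : Sit α κ) (hn : ¬ Inac (V_ κ)) : SingularIn (V_ α) κ.toZFSet := by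
  classical
  by_contra hs
  apply hn
  refine ⟨⟨κ, rfl⟩, ⟨om, om_mem_Lvl S.Kl, inf_om⟩, fun a ha g hg => ?_⟩
  set c0 : Ordinal.{u} := (card a).ord with hc0
  have hlt : c0 < κ := by
    by_contra hcon
    push Not at hcon
    have h1 : #{x // x ∈ κ.toZFSet} ≤ #{x // x ∈ a} := by
      have e1 : #{x // x ∈ κ.toZFSet} = lift.{u + 1, u} (card κ.toZFSet) := cardinalMk_coe_sort
      have e2 : #{x // x ∈ a} = lift.{u + 1, u} (card a) := cardinalMk_coe_sort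
      rw [e1, e2, lift_le, Ordinal.card_toZFSet]
      have := Ordinal.card_le_card hcon
      rwa [hc0, card_ord] at this
    obtain ⟨f⟩ := h1
    refine S.no_surj ha (fun y => if hy : ∃ x, (f x).1 = y then hy.choose.1 else ∅) ?_
    intro δ hδ
    let x0 : {x // x ∈ κ.toZFSet} := ⟨δ.toZFSet, Ordinal.toZFSet_mem_toZFSet_iff.2 hδ⟩
    refine ⟨(f x0).1, (f x0).2, ?_⟩
    have hy : ∃ x, (f x).1 = (f x0).1 := ⟨x0, rfl⟩
    rw [dif_pos hy]
    have : hy.choose = x0 := f.injective (Subtype.ext hy.choose_spec)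
    rw [this]
  have h2 : #{x // x ∈ c0.toZFSet} = #{x // x ∈ a} := by
    have e1 : #{x // x ∈ c0.toZFSet} = lift.{u + 1, u} (card c0.toZFSet) := cardinalMk_coe_sort
    have e2 : #{x // x ∈ a} = lift.{u + 1, u} (card a) := cardinalMk_coe_sort
    rw [e1, e2, Ordinal.card_toZFSet, hc0, card_ord]
  obtain ⟨eqv⟩ := Cardinal.eq.1 h2
  let s : ZFSet.{u} → ZFSet.{u} := fun z => if h : z ∈ c0.toZFSet then (eqv ⟨z, h⟩).1 else ∅
  have hsa : ∀ z ∈ c0.toZFSet, s z ∈ a := by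
    intro z hz
    simp only [s]
    rw [dif_pos hz]
    exact (eqv ⟨z, hz⟩).2
  have hss : ∀ u ∈ a, ∃ z ∈ c0.toZFSet, s z = u := by
    intro u hu
    refine ⟨(eqv.symm ⟨u, hu⟩).1, (eqv.symm ⟨u, hu⟩).2, ?_⟩
    simp only [s]
    rw [dif_pos (eqv.symm ⟨u, hu⟩).2]
    simp
  have hr : ∀ z ∈ c0.toZFSet, (rank (app g (s z))).toZFSet ∈ κ.toZFSet := by
    intro z hz
    exact Ordinal.toZFSet_mem_toZFSet_iff.2 (mem_vonNeumann.1 (app_mem hg (hsa z hz)))
  have hf := isFunc_gr hr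
  have hκU : κ.toZFSet ∈ V_ α := by
    rw [mem_vonNeumann, Ordinal.rank_toZFSet]; exact S.hκ
  have hcU : c0.toZFSet ∈ V_ α := by
    rw [mem_vonNeumann, Ordinal.rank_toZFSet]; exact hlt.trans S.hκ
  unfold SingularIn at hs
  push Not at hs
  obtain ⟨y, hy, hy'⟩ := hs c0.toZFSet (Ordinal.toZFSet_mem_toZFSet_iff.2 hlt) _
    (Lvl_func S.hU.lvl hcU hκU hf) hf
  obtain ⟨δ, hδ, rfl⟩ := Ordinal.mem_toZFSet_iff.1 hy
  have hbd : ∀ u ∈ a, rank (app g u) ≤ δ := by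
    intro u hu
    obtain ⟨z, hz, rfl⟩ := hss u hu
    have := hy' z hz _ (pair_mem_gr.2 ⟨hz, rfl⟩)
    rw [Ordinal.toZFSet_mem_toZFSet_iff] at this
    exact not_lt.1 this
  have hVδ : V_ (Order.succ δ) ∈ V_ κ := vonNeumann_mem_vonNeumann_iff.2 (S.lim.succ_lt hδ)
  refine Lvl_sub S.Kl (Lvl_prod S.Kl ha hVδ) ?_
  intro p hp
  obtain ⟨x, hx, w', hw', rfl⟩ := mem_prod.1 (hg.1 hp)
  refine pair_mem_prod.2 ⟨hx, ?_⟩
  rw [mem_vonNeumann, Order.lt_succ_iff, ← (app_iff hg hx).1 hp]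
  exact hbd x hx

end Sit

end Gss969
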