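import Pool.Agent.Gss969.SingC

/-!
`Ψ_gss`-large ordinals give large levels; the final theorem for MP_ce9e93_lc.
-/

namespace Gss969

open ZFSet

universe u

set_option linter.unusedVariables false

theorem dfn_sat (φ : Fml) : ∀ (i : ℕ) (g : ℕ → ℕ),
    Dfn Trs.{u} (fun v => Sat (v i) (fun n => v (g n)) φ) := by
  induction φ with
  | mem a b => intro i g; exact Dfn.mem (g a) (g b)
  | eq a b => intro i g; exact Dfn.eq (g a) (g b)
  | neg φ ih => intro i g; exact (ih i g).not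
  | and φ ψ ih ih' => intro i g; exact (ih i g).and (ih' i g)
  | ex l φ ih =>
    intro i g
    refine Dfn.bex subset_rfl i
      (A := fun a v => Sat (v i) (Function.update (fun n => v (g n)) l a) φ) ?_
    refine (ih (i + 1) (fun n => if n = l then 0 else g n + 1)).congr fun v => ?_
    have : (fun n => v (if n = l then 0 else g n + 1)) =
        Function.update (fun n => v (g n + 1)) l (v 0) := by
      funext n
      by_cases hn : n = l
      · subst hn; simp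
      · simp [hn]
    rw [this]

/-- An elementary embedding of some `V_δ` into a transitive set. -/
structure EmbT (B N : ZFSet.{u}) (j : ZFSet.{u} → ZFSet.{u}) : Prop where
  el : IsEl B N j
  lev : Lev B
  trs : N.IsTransitive

namespace EmbT

variable {B N : ZFSet.{u}} {j : ZFSet.{u} → ZFSet.{u}}

theorem bt (E : EmbT B N j) : B ∈ Trs.{u} := E.lev.trans

theorem nt (E : EmbT B N j) : N ∈ Trs.{u} := E.trs

theorem sb (E : EmbT B N j) {x y : ZFSet.{u}} (hy : y ∈ B) (h : x ⊆ y) : x ∈ B := by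
  obtain ⟨δ, hδ⟩ := E.lev
  rw [hδ] at hy ⊢
  exact mem_vonNeumann_of_subset h hy

theorem mem_iff (E : EmbT B N j) {x y : ZFSet.{u}} (hx : x ∈ B) (hy : y ∈ B) :
    x ∈ y ↔ j x ∈ j y :=
  E.el.t2 E.bt E.nt (A := fun a b => a ∈ b) (Dfn.mem 0 1) hx hy

theorem sub_iff (E : EmbT B N j) {x y : ZFSet.{u}} (hx : x ∈ B) (hy : y ∈ B) :
    x ⊆ y ↔ j x ⊆ j y :=
  E.el.t2 E.bt E.nt (A := fun a b => a ⊆ b) (dfn_sub subset_rfl 0 1) hx hy

theorem trans_iff (E : EmbT B N j) {x : ZFSet.{u}} (hx : x ∈ B) :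
    x.IsTransitive ↔ (j x).IsTransitive :=
  E.el.t1 E.bt E.nt (A := fun a => a.IsTransitive) (dfn_trans subset_rfl 0) hx

theorem all2 (E : EmbT B N j) {A : ZFSet.{u} → ZFSet.{u} → ZFSet.{u} → Prop}
    (hA : Dfn Trs.{u} (fun w => A (w 0) (w 1) (w 2))) {b c : ZFSet.{u}} (hb : b ∈ B) (hc : c ∈ B)
    (h : ∀ a ∈ B, A a b c) : ∀ a ∈ N, A a (j b) (j c) :=
  (E.el.all_transfer (𝒰 := Trs) (A := fun a v => A a (v 0) (v 1)) hA E.bt E.nt
    (asg b c c c c c) (asg_mem hb hc hc hc hc hc)).1 h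

theorem ord (E : EmbT B N j) {x : ZFSet.{u}} (hx : x ∈ B) (h : x.IsOrdinal) : (j x).IsOrdinal :=
  (E.el.t1 E.bt E.nt (A := fun a => a.IsOrdinal) (dfn_ord subset_rfl 0) hx).1 h

theorem jV (E : EmbT B N j) {γ : Ordinal.{u}} (hγ : V_ γ ∈ B) :
    (j γ.toZFSet).IsOrdinal ∧
      ∀ x, x ∈ j (V_ γ) ↔ x ∈ V_ (rank (j γ.toZFSet)) ∧ x ∈ N := by
  have hh : hst γ ∈ B := E.sb hγ sep_subset
  have ho : γ.toZFSet ∈ B := E.sb hγ γ.toZFSet_subset_vonNeumann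
  have H := hist_hst γ
  have hord := E.ord ho (isOrdinal_toZFSet γ)
  have hjN : ∀ x ∈ B, ∀ y, y ∈ j x → y ∈ N := fun x hx y hy => E.trs.mem_trans hy (E.el.1 x hx)
  have HN : Hist (fun y => y ∈ N) (j (hst γ)) (j (V_ γ)) := by
    constructor
    · exact (E.el.t1 E.bt E.nt (A := fun h => ∀ v ∈ h, ∀ y ∈ v, ∃ w ∈ h, w ∈ v ∧ y ⊆ w)
        (by repeat' first
            | exact Dfn.mem _ _ | exact dfn_sub subset_rfl _ _ | refine Dfn.and ?_ ?_
            | refine Dfn.ball subset_rfl _ ?_ | refine Dfn.bex subset_rfl _ ?_) hh).1 H.h1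
    · exact E.all2 (A := fun y h c => ∀ v ∈ h, ∀ w ∈ h, w ∈ v → y ⊆ w → y ∈ v)
        (by repeat' first
            | exact Dfn.mem _ _ | exact dfn_sub subset_rfl _ _ | refine Dfn.imp ?_ ?_
            | refine Dfn.ball subset_rfl _ ?_) hh hh (fun y _ => H.h2 y trivial)
    · exact (E.el.t2 E.bt E.nt (A := fun x h => ∀ y ∈ x, ∃ v ∈ h, y ⊆ v)
        (by repeat' first
            | exact dfn_sub subset_rfl _ _
            | refine Dfn.ball subset_rfl _ ?_ | refine Dfn.bex subset_rfl _ ?_) hγ hh).1 H.h3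
    · exact E.all2 (A := fun y h x => ∀ v ∈ h, y ⊆ v → y ∈ x)
        (by repeat' first
            | exact Dfn.mem _ _ | exact dfn_sub subset_rfl _ _ | refine Dfn.imp ?_ ?_
            | refine Dfn.ball subset_rfl _ ?_) hh hγ (fun y _ => H.h4 y trivial)
  have hKt : ∀ y z, y ∈ z → z ∈ N → y ∈ N := fun y z h1 h2 => E.trs.mem_trans h1 h2
  have hml := HN.mem_level hKt (hjN _ hh)
  obtain ⟨δ, hδ⟩ := HN.level hKt (hjN _ hh) (hjN _ hγ)
  refine ⟨hord, ?_⟩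
  have hrel := (E.el.t2 E.bt E.nt (A := fun h o => ∀ y ∈ h, ∃ α ∈ o, α ⊆ y ∧
      ∀ z ∈ y, z.IsOrdinal → z ∈ α)
      (by repeat' first
            | exact Dfn.mem _ _ | exact dfn_sub subset_rfl _ _ | exact dfn_ord subset_rfl _
            | refine Dfn.imp ?_ ?_ | refine Dfn.and ?_ ?_
            | refine Dfn.ball subset_rfl _ ?_ | refine Dfn.bex subset_rfl _ ?_) hh ho).1 (by
        intro y hy
        obtain ⟨ε, hε, rfl⟩ := mem_hst.1 hy
        refine ⟨ε.toZFSet, Ordinal.toZFSet_mem_toZFSet_iff.2 hε, ε.toZFSet_subset_vonNeumann, ?_⟩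
        intro z hz hzo
        rw [← hzo.toZFSet_rank_eq]
        exact Ordinal.toZFSet_mem_toZFSet_iff.2 (mem_vonNeumann.1 hz))
  have hle : rank (j γ.toZFSet) ≤ δ := by
    rw [← subset_vonNeumann]
    intro x hx
    exact ((hδ x).1 ((E.sub_iff ho hγ).1 γ.toZFSet_subset_vonNeumann hx)).1
  intro x
  constructor
  · intro hx
    refine ⟨?_, hjN _ hγ x hx⟩
    obtain ⟨y, hy, hxy⟩ := HN.h3 x hx
    obtain ⟨α, hα, _, hz⟩ := hrel y hy
    obtain ⟨ε, hε⟩ := hml y hy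
    have hαo : α.IsOrdinal := hord.mem hα
    have hαN : α ∈ N := hjN _ ho α hα
    have h1 : ε ≤ rank α := by
      by_contra hlt
      push Not at hlt
      have : α ∈ y := (hε α).2 ⟨mem_vonNeumann.2 hlt, hαN⟩
      exact mem_irrefl _ (hz α this hαo)
    rw [mem_vonNeumann]
    refine lt_of_le_of_lt ?_ (lt_of_le_of_lt h1 (rank_lt_of_mem hα))
    rw [← subset_vonNeumann]
    intro z hzx
    exact ((hε z).1 (hxy hzx)).1
  · rintro ⟨h1, h2⟩
    exact (hδ x).2 ⟨vonNeumann_subset_of_le hle h1, h2⟩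


/-- Restriction to an element of the domain. -/
theorem restr (E : EmbT B N j) {t : ZFSet.{u}} (ht : t ∈ B) : IsEl t (j t) j := by
  refine ⟨fun x hx => (E.mem_iff (E.bt.mem_trans hx ht) ht).1 hx, fun φ v hv => ?_⟩
  exact E.el.transfer (𝒰 := Trs) (A := fun v => Sat (v 0) (fun n => v (n + 1)) φ)
    (dfn_sat φ 0 (fun n => n + 1)) E.bt E.nt (fun n => Nat.casesOn n t v) (by
      intro i
      cases i with
      | zero => exact ht
      | succ n => exact E.bt.mem_trans (hv n) ht)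

end EmbT

theorem limOrd_of_lim {γ : Ordinal.{u}} (h : Order.IsSuccLimit γ) : LimOrd γ.toZFSet := by
  refine limOrd_iff.2 ⟨isOrdinal_toZFSet _, ⟨(0 : Ordinal.{u}).toZFSet, ?_, rfl⟩, ?_⟩
  · rw [Ordinal.toZFSet_mem_toZFSet_iff]
    exact h.pos
  · intro y hy
    obtain ⟨a, ha, rfl⟩ := Ordinal.mem_toZFSet_iff.1 hy
    exact ⟨(Order.succ a).toZFSet, Ordinal.toZFSet_mem_toZFSet_iff.2 (h.succ_lt ha),
      Ordinal.toZFSet_mem_toZFSet_iff.2 (Order.lt_succ a)⟩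

theorem pr_of_large {α κ : Ordinal.{u}} (hU : Inac (V_ α)) (hκ : κ < α)
    (h : PsiGssLargeIn (V_ α) κ.toZFSet) : Pr (V_ κ) (V_ α) := by
  intro t ht hlt hkt b hb
  have hul := hU.lvl
  have hVκ : V_ κ ∈ V_ α := vonNeumann_mem_vonNeumann_iff.2 hκ
  obtain ⟨t1, ht1, ⟨η, hηl, _, rfl⟩, hκη⟩ := hU.lvl_above hVκ
  obtain ⟨t2, ht2, ⟨θ, hθl, _, rfl⟩, hp⟩ := hU.lvl_above (Lvl_pair hul ht ht1)
  have hθt := isTransitive_vonNeumann.{u} θ
  have hup : ({t, V_ η} : ZFSet.{u}) ∈ V_ θ := hθt.mem_trans (by simp [pair]) hp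
  have htθ : t ∈ V_ θ := hθt.mem_trans (by simp) hup
  have hηθ : V_ η ∈ V_ θ := hθt.mem_trans (by simp) hup
  have hκη' : κ < η := vonNeumann_mem_vonNeumann_iff.1 hκη
  have hηθ' : η < θ := vonNeumann_mem_vonNeumann_iff.1 hηθ
  have hηα : η < α := vonNeumann_mem_vonNeumann_iff.1 ht1
  have hθα : θ < α := vonNeumann_mem_vonNeumann_iff.1 ht2
  have mα : ∀ γ < α, γ.toZFSet ∈ V_ α := fun γ hγ => by
    rw [mem_vonNeumann, Ordinal.rank_toZFSet]; exact hγ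
  obtain ⟨lam, hlam, hcard, hηlam, hblam, M, hM, hMt, e, he, hE, κ1, θ1, η1, pκ, pθ, pη, hlκ,
    hS, hsub⟩ := h η.toZFSet (mα _ hηα) θ.toZFSet (mα _ hθα) (limOrd_of_lim hηl)
      (limOrd_of_lim hθl) (Ordinal.toZFSet_mem_toZFSet_iff.2 hκη')
      (Ordinal.toZFSet_mem_toZFSet_iff.2 hηθ') (rank b).toZFSet (mα _ (mem_vonNeumann.1 hb))
      (isOrdinal_toZFSet _)
  rw [Ordinal.rank_toZFSet] at hE
  have E : EmbT (V_ (θ + 1)) M (app e) := ⟨hE.2, ⟨_, rfl⟩, hMt⟩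
  have hθs : θ < θ + 1 := Order.lt_succ θ
  have hsubV : V_ θ ⊆ V_ (θ + 1) := vonNeumann_subset_of_le hθs.le
  have htB : t ∈ V_ (θ + 1) := hsubV htθ
  have hκB : V_ κ ∈ V_ (θ + 1) :=
    vonNeumann_mem_vonNeumann_iff.2 ((hκη'.trans hηθ').trans hθs)
  have hκo : κ.toZFSet ∈ V_ (θ + 1) := by
    rw [mem_vonNeumann, Ordinal.rank_toZFSet]; exact (hκη'.trans hηθ').trans hθs
  have eκ : app e κ.toZFSet = κ1 := (app_iff hE.1 hκo).1 pκ
  have hr1 : rank κ1 < rank η1 := rank_lt_of_mem hS.lt.2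
  have hr2 : rank η1 < rank θ1 := mem_vonNeumann.1 (mem_inter.1 hS.memM.2.2).2
  have hVM : V_ (rank κ1) ⊆ M := by
    intro x hx
    have hx' : x ∈ V_ (rank θ1) := vonNeumann_subset_of_le (hr1.trans hr2).le hx
    exact (mem_inter.1 (hsub (mem_inter.2 ⟨hx', hx⟩))).1
  have eV : app e (V_ κ) = V_ (rank κ1) := by
    have h1 := (E.jV hκB).2
    rw [eκ] at h1
    ext x
    rw [h1]
    exact ⟨fun h => h.1, fun h => ⟨h, hVM h⟩⟩
  have hMM : app e t ∈ M := E.el.1 _ htB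
  have hMU : app e t ∈ V_ α := (isTransitive_vonNeumann α).mem_trans hMM hM
  have hIs := E.restr htB
  refine ⟨app e t, hMU, (E.trans_iff htB).1 hlt.trans, gr t (app e),
    Lvl_func hul ht hMU (isFunc_gr hIs.1), elS_gr hIs, V_ (rank κ1), ?_,
    pair_mem_gr.2 ⟨hkt, eV⟩, ⟨_, rfl⟩, ?_⟩
  · rw [← eV]
    exact (E.mem_iff hκB htB).1 hkt
  · rw [mem_vonNeumann]
    have h1 := rank_lt_of_mem hblam
    rw [Ordinal.rank_toZFSet] at h1
    exact h1.trans (rank_lt_of_mem hlκ)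

/-- The final theorem for the least large cardinal. -/
theorem final2 (h : ∃ (β : Ordinal.{u}) (N : ZFSet.{u}) (j : ZFSet.{u} → ZFSet.{u})
    (μ : Ordinal.{u}), TwoSuperstrong β N j μ) :
    ∃ α : Ordinal.{u}, ModelsZFC (V_ α) ∧ ∃ κ ∈ V_ α, CardIn (V_ α) κ ∧
      PsiGssLargeIn (V_ α) κ ∧ (∀ μ ∈ κ, ¬ PsiGssLargeIn (V_ α) μ) ∧
      SingularIn (V_ α) κ := by
  obtain ⟨β, N, j, μ, H⟩ := h
  obtain ⟨τ, σ, T⟩ := two_of H
  obtain ⟨k, hk, U, hτU, hUi, hki, hP, hmin⟩ := T.main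
  obtain ⟨α, rfl⟩ := hUi.1
  obtain ⟨κ', rfl⟩ := hki.1
  have hκτ' : κ' < τ := vonNeumann_mem_vonNeumann_iff.1 hk
  have hτα : τ < α := vonNeumann_mem_vonNeumann_iff.1 hτU
  obtain ⟨κ, hκP, hκmin⟩ := (wellFounded_lt (α := Ordinal.{u})).has_min
    {γ | Pr (V_ γ) (V_ α)} ⟨κ', hP⟩
  have hle : κ ≤ κ' := not_lt.1 (hκmin κ' hP)
  have hκτ : κ < τ := hle.trans_lt hκτ'
  have S : Sit α κ := ⟨hUi, hκτ.trans hτα, hκP, fun γ hγ hPγ => hκmin γ hPγ hγ⟩
  obtain ⟨c, kk, Q⟩ := S.two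
  -- `V_κ` belongs to `W`
  have hW : V_ κ ∈ Sit2.W κ c kk := by
    obtain ⟨t, M, e, w, G, hct, hcw, _, hτw, h⟩ := Q.pig _ hτU
    have hwl : w ∈ Lvl := S.wl G (G.lw.trans.mem_trans (om_mem_Lvl Q.cl) hcw)
    have hwU : w ⊆ V_ α := (isTransitive_vonNeumann α).subset_of_mem
      ((isTransitive_vonNeumann α).mem_trans G.wM G.MU)
    have hLτ : LgR (V_ τ) w := ⟨T.rr_tau, fun y hy => hmin y (hwU hy)⟩
    have h1 : ∃ m ∈ V_ κ, LgR m (V_ κ) :=
      (G.elK.u0 (A := fun U => ∃ m ∈ U, LgR m U) (DfU.ex (A := fun U m v => LgR m U)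
        (dfu_LgR 0)) S.Kl hwl).2 ⟨V_ τ, hτw, hLτ⟩
    obtain ⟨m, hm, hLm⟩ := h1
    have h2 : LgR (app e m) w :=
      (G.elK.u1 (A := fun U m => LgR m U) (dfu_LgR 0) S.Kl hwl hm).1 hLm
    have h3 : app e m = V_ τ := by
      rcases Sit2.lev_tri h2.1.1.1 ⟨τ, rfl⟩ with h | h | h
      · exact h
      · exact absurd T.rr_tau (h2.2 _ hτw h)
      · exact absurd h2.1 (hLτ.2 _ (G.elK.1 _ hm) h)
    obtain ⟨γ, rfl⟩ := hLm.1.1.1
    refine Q.mem_W.2 ⟨γ, vonNeumann_mem_vonNeumann_iff.1 hm, ?_⟩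
    rw [← h _ hm, h3]
    exact vonNeumann_mem_vonNeumann_iff.2 hκτ
  have hn := Q.not_inac hW
  refine ⟨α, modelsZFC hUi, κ.toZFSet, ?_, S.cardIn _, large_of_pr' hUi S.Kl S.hκ hκP, ?_,
    S.singular hn⟩
  · rw [mem_vonNeumann, Ordinal.rank_toZFSet]; exact S.hκ
  · intro x hx hx'
    obtain ⟨γ, hγ, rfl⟩ := Ordinal.mem_toZFSet_iff.1 hx
    exact S.hmin γ hγ (pr_of_large hUi (hγ.trans S.hκ) hx')

end Gss969
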